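import Pool.Agent.K3h82.BT.Loc
import Mathlib.NumberTheory.Padics.RingHoms

/-!
# The field `ℚ_2(i)`
-/

set_option autoImplicit false
set_option linter.all false

namespace Pool.Agent.K3h82.BT

/-- `L = ℚ_2(I)` with `I ^ 2 = -1` -/
structure Q2i (L : Type) [Field L] [Algebra ℚ_[2] L] (I : L) : Prop where
  sq : I ^ 2 = -1
  span : ∀ z : L, ∃ a b : ℚ_[2], z = algebraMap ℚ_[2] L a + algebraMap ℚ_[2] L b * I

/-- reduction modulo `8` -/
noncomputable def r8 : ℤ_[2] →+* ZMod 8 :=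
  ((ZMod.ringEquivCongr (by norm_num : 2 ^ 3 = 8)) : ZMod (2 ^ 3) →+* ZMod 8).comp
    (PadicInt.toZModPow 3)

theorem sq8 {r : ℚ_[2]} {n : ℤ} (h : r ^ 2 = n) : n % 8 = 0 ∨ n % 8 = 1 ∨ n % 8 = 4 := by
  have h1 : ‖r‖ ≤ 1 := by
    have h2 : ‖r‖ ^ 2 ≤ 1 := by
      rw [← norm_pow, h]
      exact Padic.norm_int_le_one n
    by_contra hc
    push Not at hc
    nlinarith [norm_nonneg r]
  obtain ⟨u, hu⟩ : ∃ u : ℤ_[2], (u : ℚ_[2]) = r := ⟨⟨r, h1⟩, rfl⟩
  have h2 : u ^ 2 = (n : ℤ_[2]) := by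
    apply Subtype.ext
    change ((u ^ 2 : ℤ_[2]) : ℚ_[2]) = ((n : ℤ_[2]) : ℚ_[2])
    rw [PadicInt.coe_pow, hu, h, PadicInt.coe_intCast]
  have h3 := congrArg r8 h2
  rw [map_pow, map_intCast] at h3
  have h4 : ∀ t : ZMod 8, t ^ 2 = ((0 : ℤ) : ZMod 8) ∨ t ^ 2 = ((1 : ℤ) : ZMod 8) ∨
    t ^ 2 = ((4 : ℤ) : ZMod 8) := by decide
  rcases h4 (r8 u) with h5 | h5 | h5
  · rw [h5, ZMod.intCast_eq_intCast_iff'] at h3
    left
    exact h3.symm
  · rw [h5, ZMod.intCast_eq_intCast_iff'] at h3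
    right; left
    exact h3.symm
  · rw [h5, ZMod.intCast_eq_intCast_iff'] at h3
    right; right
    exact h3.symm

theorem sq_ne {r : ℚ_[2]} : r ^ 2 ≠ -1 := by
  intro h
  have := sq8 (n := -1) (r := r) (by push_cast; exact h)
  norm_num at this

theorem nrm_zero {a b : ℚ_[2]} (h : a ^ 2 + b ^ 2 = 0) : a = 0 ∧ b = 0 := by
  have hb : b = 0 := by
    by_contra hb
    apply sq_ne (r := a / b)
    field_simp
    linear_combination h
  refine ⟨?_, hb⟩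
  rw [hb] at h
  simpa using h

theorem nrm_int_aux {a b : ℚ_[2]} (h : ‖a ^ 2 + b ^ 2‖ ≤ 1) (hab : ‖b‖ ≤ ‖a‖) : ‖a‖ ≤ 1 := by
  by_contra ha
  push Not at ha
  have ha0 : a ≠ 0 := by
    rintro rfl
    rw [norm_zero] at ha
    linarith
  have hna : (0 : ℝ) < ‖a‖ := norm_pos_iff.2 ha0
  have h1 : ‖a⁻¹‖ < 1 := by
    rw [norm_inv]
    exact inv_lt_one_of_one_lt₀ ha
  obtain ⟨c, hc⟩ : ∃ c : ℤ_[2], (c : ℚ_[2]) = a⁻¹ := ⟨⟨a⁻¹, h1.le⟩, rfl⟩
  have hc1 : ‖c‖ < 1 := by rw [PadicInt.norm_def, hc]; exact h1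
  obtain ⟨c', hc'⟩ := (PadicInt.norm_lt_one_iff_dvd c).1 hc1
  obtain ⟨r, hr⟩ : ∃ r : ℤ_[2], (r : ℚ_[2]) = b / a := ⟨⟨b / a, by
    rw [norm_div]
    exact div_le_one_of_le₀ hab hna.le⟩, rfl⟩
  obtain ⟨t, ht⟩ : ∃ t : ℤ_[2], (t : ℚ_[2]) = a ^ 2 + b ^ 2 := ⟨⟨_, h⟩, rfl⟩
  have key : r ^ 2 + 1 = 4 * (c' ^ 2 * t) := by
    apply Subtype.ext
    have e1 : ((r ^ 2 + 1 : ℤ_[2]) : ℚ_[2]) = (r : ℚ_[2]) ^ 2 + 1 := by push_cast; rfl
    have e2 : ((4 * (c' ^ 2 * t) : ℤ_[2]) : ℚ_[2]) =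
        ((((2 : ℕ) : ℤ_[2]) * c' : ℤ_[2]) : ℚ_[2]) ^ 2 * (t : ℚ_[2]) := by
      push_cast
      have e3 : ((4 : ℤ_[2]) : ℚ_[2]) = 4 := rfl
      have e4 : ((2 : ℤ_[2]) : ℚ_[2]) = 2 := rfl
      rw [e3, e4]
      ring
    change ((r ^ 2 + 1 : ℤ_[2]) : ℚ_[2]) = ((4 * (c' ^ 2 * t) : ℤ_[2]) : ℚ_[2])
    rw [e1, e2, ← hc', hc, hr, ht]
    field_simp
    ring
  have h3 := congrArg r8 key
  rw [map_add, map_pow, map_one, map_mul] at h3
  have h4 : r8 4 = 4 := map_ofNat r8 4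
  rw [h4] at h3
  have h5 : ∀ r t : ZMod 8, r ^ 2 + 1 ≠ 4 * t := by decide
  exact h5 _ _ h3

theorem nrm_int {a b : ℚ_[2]} (h : ‖a ^ 2 + b ^ 2‖ ≤ 1) : ‖a‖ ≤ 1 ∧ ‖b‖ ≤ 1 := by
  rcases le_total ‖b‖ ‖a‖ with h1 | h1
  · have h2 := nrm_int_aux h h1
    exact ⟨h2, h1.trans h2⟩
  · have h2 := nrm_int_aux (a := b) (b := a) (by rw [add_comm]; exact h) h1
    exact ⟨h1.trans h2, h2⟩

theorem int_nrm {a b : ℚ_[2]} (ha : ‖a‖ ≤ 1) (hb : ‖b‖ ≤ 1) : ‖a ^ 2 + b ^ 2‖ ≤ 1 := by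
  obtain ⟨A, hA⟩ : ∃ A : ℤ_[2], (A : ℚ_[2]) = a := ⟨⟨a, ha⟩, rfl⟩
  obtain ⟨B, hB⟩ : ∃ B : ℤ_[2], (B : ℚ_[2]) = b := ⟨⟨b, hb⟩, rfl⟩
  have : a ^ 2 + b ^ 2 = ((A ^ 2 + B ^ 2 : ℤ_[2]) : ℚ_[2]) := by
    rw [← hA, ← hB]
    push_cast
    rfl
  rw [this]
  exact PadicInt.norm_le_one _

section

variable {L : Type} [Field L] [Algebra ℚ_[2] L] {I : L} (hQ : Q2i L I)

include hQ

theorem Q2i.indep {a b a' b' : ℚ_[2]}
    (h : algebraMap ℚ_[2] L a + algebraMap ℚ_[2] L b * I =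
      algebraMap ℚ_[2] L a' + algebraMap ℚ_[2] L b' * I) : a = a' ∧ b = b' := by
  have hb : b = b' := by
    by_contra hne
    have h1 : b - b' ≠ 0 := sub_ne_zero.2 hne
    have h2 : algebraMap ℚ_[2] L (b - b') * I = algebraMap ℚ_[2] L (a' - a) := by
      rw [map_sub, map_sub]
      linear_combination h
    have h3 : I = algebraMap ℚ_[2] L ((a' - a) / (b - b')) := by
      rw [map_div₀, eq_div_iff ((_root_.map_ne_zero _).2 h1), ← h2, mul_comm]
    apply sq_ne (r := (a' - a) / (b - b'))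
    apply (algebraMap ℚ_[2] L).injective
    rw [map_pow, ← h3, hQ.sq, map_neg, map_one]
  refine ⟨?_, hb⟩
  rw [hb] at h
  exact (algebraMap ℚ_[2] L).injective (add_right_cancel h)

theorem Q2i.exists_nrm : ∃ n : L → ℚ_[2], ∀ a b : ℚ_[2],
    n (algebraMap ℚ_[2] L a + algebraMap ℚ_[2] L b * I) = a ^ 2 + b ^ 2 := by
  choose A B hAB using hQ.span
  refine ⟨fun z => A z ^ 2 + B z ^ 2, fun a b => ?_⟩
  obtain ⟨h1, h2⟩ := hQ.indep (hAB (algebraMap ℚ_[2] L a + algebraMap ℚ_[2] L b * I))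
  simp only
  rw [← h1, ← h2]

/-- the normalised valuation of `ℚ_2(i)` -/
theorem Q2i.exists_od : ∃ o : L → ℤ, OD L I o := by
  obtain ⟨n, hn⟩ := hQ.exists_nrm
  have hn1 : n 1 = 1 := by
    have := hn 1 0
    rw [map_one, map_zero, zero_mul, add_zero] at this
    rw [this]
    ring
  have hmul : ∀ x y, n (x * y) = n x * n y := by
    intro x y
    obtain ⟨a, b, hx⟩ := hQ.span x
    obtain ⟨a', b', hy⟩ := hQ.span y
    have h1 : x * y = algebraMap ℚ_[2] L (a * a' - b * b') + algebraMap ℚ_[2] L (a * b' + b * a') * I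
        := by
      rw [hx, hy]
      simp only [map_add, map_sub, map_mul]
      linear_combination (algebraMap ℚ_[2] L b * algebraMap ℚ_[2] L b') * hQ.sq
    rw [h1, hx, hy, hn, hn, hn]
    ring
  have hne : ∀ x, x ≠ 0 → n x ≠ 0 := by
    intro x hx h0
    have h1 := hmul x x⁻¹
    rw [mul_inv_cancel₀ hx, hn1, h0, zero_mul] at h1
    exact one_ne_zero h1
  have hodd : ∀ (A B : ℤ_[2]), ‖(A : ℚ_[2]) ^ 2 + (B : ℚ_[2]) ^ 2‖ = 1 →
      ∃ M : ℤ_[2], ((A : ℚ_[2]) - 1) ^ 2 + (B : ℚ_[2]) ^ 2 = 2 * (M : ℚ_[2]) := by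
    intro A B h
    have h1 : ‖A ^ 2 + B ^ 2‖ = 1 := by
      rw [PadicInt.norm_def]
      push_cast
      exact h
    have h2 : PadicInt.toZMod (A ^ 2 + B ^ 2) ≠ 0 := by
      intro h0
      have h3 : A ^ 2 + B ^ 2 ∈ RingHom.ker (PadicInt.toZMod (p := 2)) := h0
      rw [PadicInt.ker_toZMod, IsLocalRing.mem_maximalIdeal, PadicInt.mem_nonunits, h1] at h3
      exact lt_irrefl _ h3
    have h3 : ∀ t : ZMod 2, t ≠ 0 → t = 1 := by decide
    have h4 := h3 _ h2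
    have h5 : PadicInt.toZMod ((A - 1) ^ 2 + B ^ 2) = 0 := by
      have e : (A - 1) ^ 2 + B ^ 2 = (A ^ 2 + B ^ 2) - 2 * A + 1 := by ring
      have e2 : (PadicInt.toZMod (p := 2)) 2 = 0 := by
        rw [map_ofNat]
        decide
      rw [e, map_add, map_sub, map_mul, h4, e2, map_one]
      ring_nf
      decide
    have h6 : (A - 1) ^ 2 + B ^ 2 ∈ RingHom.ker (PadicInt.toZMod (p := 2)) := h5
    rw [PadicInt.ker_toZMod, IsLocalRing.mem_maximalIdeal, PadicInt.mem_nonunits,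
      PadicInt.norm_lt_one_iff_dvd] at h6
    obtain ⟨M, hM⟩ := h6
    refine ⟨M, ?_⟩
    have h7 := congrArg (fun t : ℤ_[2] => (t : ℚ_[2])) hM
    push_cast at h7
    exact h7
  refine ⟨fun z => (n z).valuation, ?_, ?_, hQ.sq, ?_, ?_, ?_⟩
  · intro x y hx hy
    change (n (x * y)).valuation = (n x).valuation + (n y).valuation
    rw [hmul, Padic.valuation_mul (hne x hx) (hne y hy)]
  · -- the ultrametric inequality
    have key : ∀ x y, x ≠ 0 → y ≠ 0 → x + y ≠ 0 → (n x).valuation ≤ (n y).valuation →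
        (n x).valuation ≤ (n (x + y)).valuation := by
      intro x y hx hy hxy hle
      obtain ⟨z, hz⟩ : ∃ z, z = y / x := ⟨_, rfl⟩
      have hz0 : z ≠ 0 := by rw [hz]; exact div_ne_zero hy hx
      have hyz : y = x * z := by rw [hz, mul_div_cancel₀ _ hx]
      have h1z : 1 + z ≠ 0 := by
        intro h0
        apply hxy
        rw [hyz]
        linear_combination x * h0
      rw [hyz, hmul, Padic.valuation_mul (hne x hx) (hne z hz0)] at hle
      have h1 : ‖n z‖ ≤ 1 := by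
        rw [Padic.norm_le_one_iff_val_nonneg]
        linarith
      obtain ⟨a, b, hab⟩ := hQ.span z
      rw [hab, hn] at h1
      obtain ⟨ha, hb⟩ := nrm_int h1
      have h2 : ‖(1 + a) ^ 2 + b ^ 2‖ ≤ 1 := by
        refine int_nrm ?_ hb
        refine (Padic.nonarchimedean 1 a).trans ?_
        rw [norm_one]
        exact max_le le_rfl ha
      have h3 : n (1 + z) = (1 + a) ^ 2 + b ^ 2 := by
        rw [← hn, hab, map_add, map_one]
        congr 1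
        ring
      rw [← h3, Padic.norm_le_one_iff_val_nonneg] at h2
      have h4 : x + y = x * (1 + z) := by rw [hyz]; ring
      rw [h4, hmul, Padic.valuation_mul (hne x hx) (hne _ h1z)]
      linarith
    intro x y hx hy hxy
    rcases le_total (n x).valuation (n y).valuation with h | h
    · exact (min_le_left _ _).trans (key x y hx hy hxy h)
    · refine (min_le_right _ _).trans ?_
      have := key y x hy hx (by rwa [add_comm]) h
      rwa [add_comm y x] at this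
  · have h1 : n (1 + I) = 2 := by
      have := hn 1 1
      rw [map_one, one_mul] at this
      rw [this]
      norm_num
    change (n (1 + I)).valuation = 1
    rw [h1]
    have h2 := Padic.valuation_p (p := 2)
    push_cast at h2
    exact h2
  · intro h0
    have h1 := hn 1 1
    rw [map_one, one_mul, h0] at h1
    have h2 := hn 0 0
    rw [map_zero, zero_mul, add_zero, h1] at h2
    norm_num at h2
  · intro x hx ho hx1
    obtain ⟨a, b, hab⟩ := hQ.span x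
    have hnx := hne x hx
    have h1 : ‖n x‖ = 1 := by
      rw [Padic.norm_eq_zpow_neg_valuation hnx]
      have : (n x).valuation = 0 := ho
      rw [this, neg_zero, zpow_zero]
    rw [hab, hn] at h1
    obtain ⟨ha, hb⟩ := nrm_int h1.le
    obtain ⟨M, hM⟩ := hodd ⟨a, ha⟩ ⟨b, hb⟩ h1
    have h2 : n (x - 1) = 2 * (M : ℚ_[2]) := by
      rw [← hM]
      change n (x - 1) = (a - 1) ^ 2 + b ^ 2
      rw [← hn, hab, map_sub, map_one]
      congr 1
      ring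
    have hx10 : x - 1 ≠ 0 := sub_ne_zero.2 hx1
    have hM0 : (M : ℚ_[2]) ≠ 0 := by
      intro h0
      apply hne _ hx10
      rw [h2, h0, mul_zero]
    have h3 : (0 : ℤ) ≤ (M : ℚ_[2]).valuation := by
      rw [← Padic.norm_le_one_iff_val_nonneg]
      exact M.2
    have h4 : (2 : ℚ_[2]).valuation = 1 := by
      have h2 := Padic.valuation_p (p := 2)
      push_cast at h2
      exact h2
    change 1 ≤ (n (x - 1)).valuation
    rw [h2, Padic.valuation_mul two_ne_zero hM0, h4]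
    linarith

end

end Pool.Agent.K3h82.BT
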