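import Pool.Agent.K3h82.BT.Cl
import Pool.Agent.K3h82.BT.Lcl

/-!
# Numbers of `ℚ(i)` which are squares in `ℚ_2(i)`
-/

set_option autoImplicit false
set_option linter.all false

open NumberField IsDedekindDomain

namespace Pool.Agent.K3h82.BT

/-- divisors of `2 p ^ 2` -/
theorem dvd_2pp {p : ℕ} (hp : p.Prime) (hp8 : p % 8 = 3 ∨ p % 8 = 5) {N N' : ℤ} (hN0 : 0 ≤ N)
    (h : N * N' = 2 * (p : ℤ) ^ 2) (h8 : N % 8 = 0 ∨ N % 8 = 1 ∨ N % 8 = 4) :
    N = 1 ∨ N = (p : ℤ) ^ 2 := by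
  obtain ⟨n, rfl⟩ := Int.eq_ofNat_of_zero_le hN0
  have hpp : p ^ 2 % 8 = 1 := by
    rcases hp8 with h1 | h1
    · rw [Nat.pow_mod, h1]
    · rw [Nat.pow_mod, h1]
  have hdvd : n ∣ 2 * p ^ 2 := by
    have h1 : (n : ℤ) ∣ ((2 * p ^ 2 : ℕ) : ℤ) := ⟨N', by push_cast; exact h.symm⟩
    exact Int.natCast_dvd_natCast.1 h1
  have hn8 : n % 8 = 0 ∨ n % 8 = 1 ∨ n % 8 = 4 := by omega
  have hodd : n % 2 = 1 := by
    by_contra hc
    have h4 : 4 ∣ n := by omega
    have h5 := h4.trans hdvd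
    omega
  have h2 : n ∣ p ^ 2 := by
    refine Nat.Coprime.dvd_of_dvd_mul_left ?_ hdvd
    rw [Nat.coprime_comm, Nat.Prime.coprime_iff_not_dvd Nat.prime_two]
    omega
  obtain ⟨i, hi, hni⟩ := (Nat.dvd_prime_pow hp).1 h2
  interval_cases i
  · left
    rw [hni]
    norm_num
  · rw [pow_one] at hni
    rw [hni] at hn8
    omega
  · right
    rw [hni]
    push_cast
    rfl

section

variable {K : Type} [Field K] [NumberField K] {ι : K} (hG : Gi K ι)
  {Lv : Type} [Field Lv] [Algebra ℚ_[2] Lv] [Algebra K Lv] (hQ : Q2i Lv (algebraMap K Lv ι))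

include hG hQ

/-- local squares -/
theorem loc_sq {m n : ℤ} (h : ∃ z : Lv, algebraMap K Lv ((m : K) + n * ι) = z ^ 2) :
    ∃ A B : ℚ_[2], A ^ 2 - B ^ 2 = m ∧ 2 * A * B = n := by
  obtain ⟨z, hz⟩ := h
  obtain ⟨A, B, hAB⟩ := hQ.span z
  refine ⟨A, B, ?_⟩
  have h1 : algebraMap ℚ_[2] Lv (A ^ 2 - B ^ 2) + algebraMap ℚ_[2] Lv (2 * A * B) *
      algebraMap K Lv ι = algebraMap ℚ_[2] Lv (m : ℚ_[2]) + algebraMap ℚ_[2] Lv (n : ℚ_[2]) *
      algebraMap K Lv ι := by
    rw [map_intCast, map_intCast, ← map_intCast (algebraMap K Lv) m,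
      ← map_intCast (algebraMap K Lv) n, ← map_mul, ← map_add, hz, hAB]
    simp only [map_sub, map_mul, map_pow, map_ofNat]
    linear_combination (-(algebraMap ℚ_[2] Lv B) ^ 2) * hQ.sq
  exact hQ.indep h1

/-- **numbers which are squares in `ℚ_2(i)`** -/
theorem inj_of {p : ℕ} (hp : p.Prime) (hp8 : p % 8 = 3 ∨ p % 8 = 5) (a : K) (ha : a ≠ 0)
    (hv : ∀ v : HeightOneSpectrum (𝓞 K), (2 : 𝓞 K) ∉ v.asIdeal → (p : 𝓞 K) ∉ v.asIdeal →
      ∃ t : WithZero (Multiplicative ℤ), v.valuation K a = t ^ 2)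
    (hloc : ∃ z : Lv, algebraMap K Lv a = z ^ 2) : ∃ b : K, a = b ^ 2 := by
  have hp0 : (p : 𝓞 K) ≠ 0 := by exact_mod_cast hp.ne_zero
  obtain ⟨z, ⟨w, hw⟩, k, hk, hak⟩ := odd_part hG a ha (lamI hG * p) (mul_ne_zero (lamI_ne hG) hp0)
    (fun v hr => hv v (fun h2 => hr (Ideal.mul_mem_right _ _ (lamI_mem hG h2)))
      (fun h2 => hr (Ideal.mul_mem_left _ _ h2)))
  obtain ⟨m, n, hz⟩ := int_form hG z
  obtain ⟨m', n', hw'⟩ := int_form hG w
  have h1 : ((m : K) + n * ι) * ((m' : K) + n' * ι) = ((p : ℤ) : K) + ((p : ℤ) : K) * ι := by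
    have h0 : ((z * w : 𝓞 K) : K) = (z : K) * (w : K) := map_mul (algebraMap (𝓞 K) K) _ _
    have h2 : ((lamI hG * p : 𝓞 K) : K) = ((lamI hG : 𝓞 K) : K) * ((p : 𝓞 K) : K) :=
      map_mul (algebraMap (𝓞 K) K) _ _
    have h3 : ((p : 𝓞 K) : K) = (p : K) := map_natCast (algebraMap (𝓞 K) K) p
    rw [← hz, ← hw', ← h0, ← hw, h2, lamI_coe, h3]
    push_cast
    ring
  have hN := nmul hG h1
  have hι0 : ι ≠ 0 := by
    rintro rfl
    have := hG.sq
    norm_num at this
  -- coordinates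
  obtain ⟨hc1, hc2⟩ : m * m' - n * n' = p ∧ m * n' + n * m' = p := by
    have h2 : (((m * m' - n * n' : ℤ) : ℚ) : K) + ((m * n' + n * m' : ℤ) : ℚ) * ι =
        (((p : ℤ) : ℚ) : K) + (((p : ℤ) : ℚ) : K) * ι := by
      push_cast at h1 ⊢
      linear_combination h1 - ((n : K) * n') * hG.sq
    obtain ⟨h3, h4⟩ := indep hG h2
    exact ⟨by exact_mod_cast h3, by exact_mod_cast h4⟩
  -- the local square
  obtain ⟨A, B, hA, hB⟩ := loc_sq hG hQ (m := m) (n := n) (by
    obtain ⟨t, ht⟩ := hloc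
    refine ⟨t / algebraMap K Lv k, ?_⟩
    have hk' : algebraMap K Lv k ≠ 0 := (_root_.map_ne_zero _).2 hk
    rw [div_pow, ← ht, hak, ← hz, map_mul, map_pow, mul_div_cancel_right₀ _ (pow_ne_zero 2 hk')])
  have h8 : (m ^ 2 + n ^ 2) % 8 = 0 ∨ (m ^ 2 + n ^ 2) % 8 = 1 ∨ (m ^ 2 + n ^ 2) % 8 = 4 := by
    apply sq8 (r := A ^ 2 + B ^ 2)
    push_cast
    rw [← hA, ← hB]
    ring
  have hNN := dvd_2pp hp hp8 (N := m ^ 2 + n ^ 2) (N' := m' ^ 2 + n' ^ 2) (by positivity)
    (by rw [hN]; ring) h8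
  -- `z` is a unit or a unit times `p`
  obtain ⟨q, hq, m₁, n₁, hm, hn, h11⟩ : ∃ q : ℤ, (q = 1 ∨ q = p) ∧ ∃ m₁ n₁ : ℤ, m = q * m₁ ∧
      n = q * n₁ ∧ m₁ ^ 2 + n₁ ^ 2 = 1 := by
    rcases hNN with hN1 | hN2
    · exact ⟨1, Or.inl rfl, m, n, by ring, by ring, hN1⟩
    · have hp0' : (p : ℤ) ≠ 0 := by exact_mod_cast hp.ne_zero
      have e1 : (m + n) = p * m' := by
        have : (p : ℤ) * (m + n) = p * (p * m') := by
          linear_combination m' * hN2 - m * hc1 - n * hc2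
        exact mul_left_cancel₀ hp0' this
      have e2 : (m - n) = p * n' := by
        have : (p : ℤ) * (m - n) = p * (p * n') := by
          linear_combination n' * hN2 + n * hc1 - m * hc2
        exact mul_left_cancel₀ hp0' this
      have hcop : IsCoprime (p : ℤ) 2 := by
        rw [Int.isCoprime_iff_gcd_eq_one]
        have : Nat.Coprime p 2 := by
          rw [Nat.coprime_comm, Nat.Prime.coprime_iff_not_dvd Nat.prime_two]
          omega
        exact_mod_cast this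
      have d1 : (p : ℤ) ∣ m := by
        apply hcop.dvd_of_dvd_mul_left
        exact ⟨m' + n', by linear_combination e1 + e2⟩
      have d2 : (p : ℤ) ∣ n := by
        apply hcop.dvd_of_dvd_mul_left
        exact ⟨m' - n', by linear_combination e1 - e2⟩
      obtain ⟨m₁, hm₁⟩ := d1
      obtain ⟨n₁, hn₁⟩ := d2
      refine ⟨p, Or.inr rfl, m₁, n₁, hm₁, hn₁, ?_⟩
      have : (p : ℤ) ^ 2 * (m₁ ^ 2 + n₁ ^ 2) = p ^ 2 * 1 := by
        rw [mul_one]
        nth_rw 2 [← hN2]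
        rw [hm₁, hn₁]
        ring
      exact mul_left_cancel₀ (pow_ne_zero 2 hp0') this
  have hq8 : q % 8 = 1 ∨ q % 8 = 3 ∨ q % 8 = 5 := by
    rcases hq with h | h
    · left; rw [h]; norm_num
    · right; omega
  have hcases : (n₁ = 0 ∧ (m₁ = 1 ∨ m₁ = -1)) ∨ (m₁ = 0 ∧ (n₁ = 1 ∨ n₁ = -1)) := by
    have hm1 : -1 ≤ m₁ := by nlinarith [sq_nonneg n₁]
    have hm2 : m₁ ≤ 1 := by nlinarith [sq_nonneg n₁]
    have hn1 : -1 ≤ n₁ := by nlinarith [sq_nonneg m₁]
    have hn2 : n₁ ≤ 1 := by nlinarith [sq_nonneg m₁]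
    interval_cases m₁ <;> interval_cases n₁ <;> simp_all
  rcases hcases with ⟨hn0, hm1⟩ | ⟨hm0, hn1⟩
  · -- `z = ± q`
    have hn0' : n = 0 := by rw [hn, hn0, mul_zero]
    rw [hn0'] at hB
    have hAB : A = 0 ∨ B = 0 := by
      have : A * B = 0 := by
        have h2 : (2 : ℚ_[2]) ≠ 0 := two_ne_zero
        have : 2 * (A * B) = 0 := by
          push_cast at hB
          linear_combination hB
        exact (mul_eq_zero.1 this).resolve_left h2
      exact mul_eq_zero.1 this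
    have hm8 : (m % 8 = 0 ∨ m % 8 = 1 ∨ m % 8 = 4) ∨ ((-m) % 8 = 0 ∨ (-m) % 8 = 1 ∨ (-m) % 8 = 4)
        := by
      rcases hAB with h0 | h0
      · right
        apply sq8 (r := B)
        push_cast
        rw [← hA, h0]
        ring
      · left
        apply sq8 (r := A)
        rw [← hA, h0]
        ring
    have hq1 : q = 1 := by
      rcases hq with h | h
      · exact h
      · exfalso
        rcases hm1 with h1 | h1
        · rw [h1, mul_one] at hm
          omega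
        · rw [h1, mul_neg, mul_one] at hm
          omega
    rw [hq1, one_mul] at hm
    rw [hz, hm, hn0'] at hak
    rcases hm1 with h1 | h1
    · exact ⟨k, by rw [hak, h1]; push_cast; ring⟩
    · refine ⟨ι * k, ?_⟩
      rw [hak, h1]
      push_cast
      linear_combination (-k ^ 2) * hG.sq
  · -- `z = ± q ι`
    exfalso
    have hm0' : m = 0 := by rw [hm, hm0, mul_zero]
    rw [hm0'] at hA
    have hAB : (A - B) * (A + B) = 0 := by
      push_cast at hA
      linear_combination hA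
    have key : (2 * n) % 8 = 0 ∨ (2 * n) % 8 = 1 ∨ (2 * n) % 8 = 4 ∨ (-(2 * n)) % 8 = 0 ∨
        (-(2 * n)) % 8 = 1 ∨ (-(2 * n)) % 8 = 4 := by
      rcases mul_eq_zero.1 hAB with h0 | h0
      · have h3 : A = B := sub_eq_zero.1 h0
        have := sq8 (r := 2 * A) (n := 2 * n) (by
          push_cast
          rw [← hB, ← h3]
          ring)
        omega
      · have h3 : B = -A := eq_neg_of_add_eq_zero_right h0
        have := sq8 (r := 2 * A) (n := -(2 * n)) (by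
          push_cast
          rw [← hB, h3]
          ring)
        omega
    rcases hn1 with h1 | h1
    · rw [h1, mul_one] at hn
      omega
    · rw [h1, mul_neg, mul_one] at hn
      omega

end

section val

variable {K : Type} [Field K] [NumberField K]

theorem val_dvd {p : ℕ} {v : HeightOneSpectrum (𝓞 K)} (h2 : (2 : 𝓞 K) ∉ v.asIdeal)
    (hpv : (p : 𝓞 K) ∉ v.asIdeal) {d : ℤ} (hd : d ∣ 2 * p) : v.valuation K (d : K) = 1 := by
  have h3 : (d : K) = algebraMap (𝓞 K) K (d : 𝓞 K) := by rw [map_intCast]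
  rw [h3, v.valuation_of_algebraMap, v.intValuation_eq_one_iff]
  intro h4
  obtain ⟨e, he⟩ := hd
  have h5 : ((2 * p : ℤ) : 𝓞 K) ∈ v.asIdeal := by
    rw [he]
    push_cast
    exact Ideal.mul_mem_right _ _ h4
  push_cast at h5
  rcases v.isPrime.mem_or_mem h5 with h6 | h6
  · exact h2 h6
  · exact hpv h6

/-- rational numbers prime to `p` -/
theorem val_rat {p : ℕ} [hp : Fact p.Prime] {v : HeightOneSpectrum (𝓞 K)}
    (hpv : (p : 𝓞 K) ∈ v.asIdeal) {u : ℚ} (hu : u ≠ 0) (h0 : padicValRat p u = 0) :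
    v.valuation K (u : K) = 1 := by
  have key : ∀ a : ℤ, ¬ (p : ℤ) ∣ a → v.valuation K (a : K) = 1 := by
    intro a ha
    have h3 : (a : K) = algebraMap (𝓞 K) K (a : 𝓞 K) := by rw [map_intCast]
    rw [h3, v.valuation_of_algebraMap, v.intValuation_eq_one_iff]
    intro h4
    have hcop : IsCoprime (p : ℤ) a := by
      rw [Prime.coprime_iff_not_dvd (Nat.prime_iff_prime_int.1 hp.out)]
      exact ha
    obtain ⟨r, t, hrt⟩ := hcop
    apply v.isPrime.ne_top
    rw [Ideal.eq_top_iff_one]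
    have h5 : (1 : 𝓞 K) = (r : 𝓞 K) * (p : 𝓞 K) + (t : 𝓞 K) * (a : 𝓞 K) := by
      have := congrArg (fun z : ℤ => (z : 𝓞 K)) hrt
      push_cast at this
      exact this.symm
    rw [h5]
    exact add_mem (Ideal.mul_mem_left _ _ hpv) (Ideal.mul_mem_left _ _ h4)
  have hden : ¬ (p : ℤ) ∣ (u.den : ℤ) ∧ ¬ (p : ℤ) ∣ u.num := by
    have h1 : (padicValInt p u.num : ℤ) = padicValNat p u.den := by
      unfold padicValRat at h0
      linarith
    have hnum0 : u.num ≠ 0 := Rat.num_ne_zero.2 hu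
    have hcop := u.reduced
    have ha : ∀ h : (p : ℤ) ∣ u.num, 1 ≤ padicValInt p u.num := by
      intro h
      rcases Nat.eq_zero_or_pos (padicValInt p u.num) with h2 | h2
      · rw [padicValInt.eq_zero_iff] at h2
        rcases h2 with h2 | h2 | h2
        · exact absurd h2 hp.out.one_lt.ne'
        · exact absurd h2 hnum0
        · exact absurd h h2
      · exact h2
    have hb : ∀ h : p ∣ u.den, 1 ≤ padicValNat p u.den := fun h =>
      one_le_padicValNat_of_dvd u.den_nz h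
    have ha' : 1 ≤ padicValInt p u.num → (p : ℤ) ∣ u.num := by
      intro h
      by_contra hc
      rw [padicValInt.eq_zero_of_not_dvd hc] at h
      omega
    have hb' : 1 ≤ padicValNat p u.den → p ∣ u.den := by
      intro h
      exact dvd_of_one_le_padicValNat h
    have hno : ¬ (p ∣ u.den ∧ (p : ℤ) ∣ u.num) := by
      rintro ⟨h2, h3⟩
      have h4 : p ∣ u.num.natAbs := Int.natCast_dvd.1 h3
      have h5 := Nat.dvd_gcd h4 h2
      rw [hcop] at h5
      exact hp.out.one_lt.ne' (Nat.dvd_one.1 h5)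
    constructor
    · intro h
      have h2 : p ∣ u.den := Int.natCast_dvd_natCast.1 h
      refine hno ⟨h2, ha' ?_⟩
      have := hb h2
      omega
    · intro h
      refine hno ⟨hb' ?_, h⟩
      have := ha h
      omega
  have h1 : (u : K) = (u.num : K) / ((u.den : ℤ) : K) := by
    rw [Rat.cast_def]
    push_cast
    rfl
  rw [h1, map_div₀, key _ hden.1, key _ hden.2, div_one]

/-- parity -/
theorem val_even {p : ℕ} [hp : Fact p.Prime] {v : HeightOneSpectrum (𝓞 K)}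
    (hpv : (p : 𝓞 K) ∈ v.asIdeal) {D : ℚ} (hD : D ≠ 0) (h0 : Even (padicValRat p D)) :
    ∃ t : WithZero (Multiplicative ℤ), v.valuation K (D : K) = t ^ 2 := by
  obtain ⟨m, hm⟩ := h0
  have hp0 : (p : ℚ) ≠ 0 := by exact_mod_cast hp.out.ne_zero
  have hu0 : D / ((p : ℚ) ^ m) ^ 2 ≠ 0 := div_ne_zero hD (pow_ne_zero _ (zpow_ne_zero _ hp0))
  have h1 := val_rat (K := K) hpv (u := D / ((p : ℚ) ^ m) ^ 2) hu0 (by
    rw [padicValRat.div hD (pow_ne_zero _ (zpow_ne_zero _ hp0)),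
      padicValRat.pow, padicValRat.zpow, padicValRat.self hp.out.one_lt,
      hm]
    push_cast
    ring)
  refine ⟨v.valuation K ((p : K) ^ m), ?_⟩
  have h2 : (D : K) = ((D / ((p : ℚ) ^ m) ^ 2 : ℚ) : K) * ((p : K) ^ m) ^ 2 := by
    have h3 : D = D / ((p : ℚ) ^ m) ^ 2 * ((p : ℚ) ^ m) ^ 2 := by
      rw [div_mul_cancel₀ _ (pow_ne_zero _ (zpow_ne_zero _ hp0))]
    conv_lhs => rw [h3]
    push_cast
    rfl
  rw [h2, map_mul, h1, one_mul, map_pow]

end val

/-- one of three rational numbers with square product has even valuation -/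
theorem even_one {p : ℕ} [hp : Fact p.Prime] {a b c r : ℚ} (ha : a ≠ 0) (hb : b ≠ 0) (hc : c ≠ 0)
    (h : r ^ 2 = a * b * c) :
    Even (padicValRat p a) ∨ Even (padicValRat p b) ∨ Even (padicValRat p c) := by
  have hr : r ≠ 0 := by
    rintro rfl
    rw [zero_pow two_ne_zero] at h
    exact mul_ne_zero (mul_ne_zero ha hb) hc h.symm
  have h1 := congrArg (padicValRat p) h
  rw [padicValRat.pow, padicValRat.mul (mul_ne_zero ha hb) hc, padicValRat.mul ha hb] at h1
  by_contra hcon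
  push Not at hcon
  obtain ⟨h2, h3, h4⟩ := hcon
  rw [Int.not_even_iff_odd] at h2 h3 h4
  obtain ⟨i, hi⟩ := h2
  obtain ⟨j, hj⟩ := h3
  obtain ⟨l, hl⟩ := h4
  push_cast at h1
  omega

end Pool.Agent.K3h82.BT
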