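import Pool.Agent.Y158.GR.Gen

/-!
# Restriction of a section and of a place
-/

set_option autoImplicit false
set_option linter.all false

open Polynomial FF Pool.Agent.Y157.PS Pool.Agent.TH954 IsDedekindDomain NumberField

namespace Pool.Agent.K3h82.BT

open Pool.Agent.Y158.GR (alg_sub exists_eB resPlc resPlc_val resPlc_mem)

section res

variable {K : Type} [Field K] [CharZero K] {F Ω B : Type} [Field F] [Field Ω] [Field B]
  [Algebra K F] [Algebra F Ω] [Algebra K Ω] [Algebra K B] [IsScalarTower K F Ω] [IsAlgClosed Ω]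
  [Algebra.IsAlgebraic F Ω] [IsAlgClosure K B]
  {C Lv : Type} [Field C] [Field Lv] [Algebra Lv C] [Algebra K C]

theorem trans_sub {F₀ : IntermediateField K F} {x : F} (hx : Transcendental K x) (hxF : x ∈ F₀) :
    Transcendental K (⟨x, hxF⟩ : F₀) := by
  rw [← transcendental_algebraMap_iff (R := K) (A := F) (algebraMap F₀ F).injective]
  exact hx

theorem alg_sub' {F₀ : IntermediateField K F} {x : F} (hxF : x ∈ F₀)
    (hFx : Algebra.IsAlgebraic (IntermediateField.adjoin K {x}) F) :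
    Algebra.IsAlgebraic (IntermediateField.adjoin K {(⟨x, hxF⟩ : F₀)}) F₀ := by
  have h1 : Algebra.IsAlgebraic
      ((IntermediateField.adjoin K {(⟨x, hxF⟩ : F₀)}).map F₀.val) F := by
    refine alg_sub hFx _ one_ne_zero ?_
    rw [pow_one]
    exact ⟨⟨x, hxF⟩, IntermediateField.mem_adjoin_simple_self K _, rfl⟩
  let i : (IntermediateField.adjoin K {(⟨x, hxF⟩ : F₀)}).map F₀.val →+*
      IntermediateField.adjoin K {(⟨x, hxF⟩ : F₀)} :=
    ((IntermediateField.adjoin K {(⟨x, hxF⟩ : F₀)}).equivMap F₀.val).symm.toAlgHom.toRingHom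
  refine ⟨fun z => ?_⟩
  obtain ⟨q, hq, hqz⟩ := h1.isAlgebraic (z : F)
  refine ⟨q.map i, (Polynomial.map_ne_zero_iff i.injective).2 hq, ?_⟩
  apply (algebraMap F₀ F).injective
  rw [aeval_def, eval₂_map, hom_eval₂, map_zero, ← hqz, aeval_def]
  congr 1
  ext t
  have h2 := ((IntermediateField.adjoin K {(⟨x, hxF⟩ : F₀)}).equivMap F₀.val).apply_symm_apply t
  exact congrArg Subtype.val h2

/-- restriction of a section and of a place to a geometrically pro-`ℓ` extension -/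
theorem res_sec {ℓ : ℕ} [hp : Fact ℓ.Prime] {x : F} (hx : Transcendental K x)
    (hFx : Algebra.IsAlgebraic (IntermediateField.adjoin K {x}) F) (F₀ : IntermediateField K F)
    (hxF : x ∈ F₀) (N : IntermediateField F Ω) (hN : ∀ z ∈ geomPro ℓ K F₀ Ω, z ∈ N)
    (s : GalSection K F N B) (p : Plc K N C) (hpv : s.GivenBy Lv p) :
    ∃ (eB : B ≃ₐ[K] algebraicClosure K Ω)
      (s₀ : GalSection K F₀ (geomPro ℓ K F₀ Ω) (algebraicClosure K Ω))
      (p₀ : Plc K (geomPro ℓ K F₀ Ω) C),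
      (∀ z, ((s₀.j z : geomPro ℓ K F₀ Ω) : Ω) = (z : Ω)) ∧ s₀.GivenBy Lv p₀ ∧
      (∀ g (z : N) (w : geomPro ℓ K F₀ Ω), (w : Ω) = (z : Ω) →
        ((s₀.s (AlgEquiv.autCongr eB g) w : geomPro ℓ K F₀ Ω) : Ω) = ((s.s g z : N) : Ω)) ∧
      (∀ (z : N) (w : geomPro ℓ K F₀ Ω) (c : C), (w : Ω) = (z : Ω) →
        (p₀.val w c ↔ p.val z c)) ∧
      (∀ (z : N) (w : geomPro ℓ K F₀ Ω), (w : Ω) = (z : Ω) → (w ∈ p₀.W ↔ z ∈ p.W)) ∧
      Algebra.IsAlgebraic F₀ Ω := by
  haveI hFF : Algebra.IsAlgebraic F₀ F := alg_sub hFx F₀ one_ne_zero (by rw [pow_one]; exact hxF)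
  haveI hFΩ : Algebra.IsAlgebraic F₀ Ω := Algebra.IsAlgebraic.trans F₀ F Ω
  haveI : IsAlgClosure F₀ Ω := ⟨inferInstance, inferInstance⟩
  obtain ⟨-, hst⟩ := a_inrt ℓ K F₀ Ω (⟨x, hxF⟩ : F₀) (trans_sub hx hxF) (alg_sub' hxF hFx)
  -- the restriction
  obtain ⟨Φ, hΦc, hΦ⟩ := Pool.Agent.Y674.PS.restr' (F₀ := F₀) (Ω₀ := Ω) (F := F) (Ω := Ω)
    (algebraMap F₀ F) (RingHom.id Ω) (fun a => rfl) (geomPro ℓ K F₀ Ω) N hN (fun σ z hz =>
      ⟨σ z, hst (σ.restrictScalars F₀) z hz, rfl⟩)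
  have hΦ' : ∀ (e : N ≃ₐ[F] N) (z : N) (w : geomPro ℓ K F₀ Ω), (w : Ω) = (z : Ω) →
      ((Φ e w : geomPro ℓ K F₀ Ω) : Ω) = ((e z : N) : Ω) := hΦ
  -- the algebraic closures
  haveI : IsScalarTower K N Ω := IsScalarTower.of_algebraMap_eq fun _ => rfl
  obtain ⟨eB, heB⟩ := exists_eB (Ω := Ω) ((IsScalarTower.toAlgHom K N Ω).comp s.j)
  have heB' : ∀ b, ((s.j b : N) : Ω) = ((eB b : algebraicClosure K Ω) : Ω) := fun b => (heB b).symm
  let j₀ : algebraicClosure K Ω →ₐ[K] geomPro ℓ K F₀ Ω :=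
    { toFun := fun z => ⟨(z : Ω), const_geomPro ℓ K z⟩
      map_one' := rfl
      map_mul' := fun _ _ => rfl
      map_zero' := rfl
      map_add' := fun _ _ => rfl
      commutes' := fun c => rfl }
  have hj₀ : ∀ z, ((j₀ z : geomPro ℓ K F₀ Ω) : Ω) = (z : Ω) := fun z => rfl
  let s₀ : GalSection K F₀ (geomPro ℓ K F₀ Ω) (algebraicClosure K Ω) :=
    { j := j₀
      s := (Φ.comp s.s).comp (AlgEquiv.autCongr eB.symm : _ →* _)
      cont := (hΦc.comp s.cont).comp (Pool.Agent.Y674.PS.conj_cont eB.symm)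
      sec := by
        intro σ z
        apply Subtype.ext
        have h1 := hΦ' (s.s (AlgEquiv.autCongr eB.symm σ)) (s.j (eB.symm z)) (j₀ z) (by
          rw [heB', eB.apply_symm_apply, hj₀])
        have h2 : (AlgEquiv.autCongr eB.symm σ) (eB.symm z) = eB.symm (σ z) := by
          change eB.symm (σ (eB (eB.symm z))) = _
          rw [eB.apply_symm_apply]
        rw [s.sec, h2, heB', eB.apply_symm_apply] at h1
        exact h1 }
  have hs₀ : ∀ σ (z : N) (w : geomPro ℓ K F₀ Ω), (w : Ω) = (z : Ω) →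
      ((s₀.s σ w : geomPro ℓ K F₀ Ω) : Ω) =
        ((s.s (AlgEquiv.autCongr eB.symm σ) z : N) : Ω) := fun σ z w h => hΦ' _ z w h
  -- the place
  let i : geomPro ℓ K F₀ Ω →+* N :=
    { toFun := fun w => ⟨(w : Ω), hN _ w.2⟩
      map_one' := rfl
      map_mul' := fun _ _ => rfl
      map_zero' := rfl
      map_add' := fun _ _ => rfl }
  have hi : ∀ w, ((i w : N) : Ω) = (w : Ω) := fun w => rfl
  have hiK : ∀ c : K, i (algebraMap K (geomPro ℓ K F₀ Ω) c) = algebraMap K N c := fun c =>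
    Subtype.ext rfl
  have his : ∀ σ w, i (s₀.s σ w) = s.s (AlgEquiv.autCongr eB.symm σ) (i w) := fun σ w =>
    Subtype.ext (hs₀ σ (i w) w rfl)
  have hij : ∀ z, i (j₀ z) = s.j (eB.symm z) := fun z => by
    apply Subtype.ext
    rw [hi, hj₀, heB', eB.apply_symm_apply]
  have hpv₀ : s₀.GivenBy Lv (resPlc i hiK p) := by
    intro τ σ h w c hw
    rw [resPlc_val] at hw ⊢
    rw [his]
    refine hpv τ _ (fun z c' hz => ?_) _ _ hw
    have h1 := h (eB z) c' (by
      rw [resPlc_val]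
      change p.val (i (j₀ (eB z))) c'
      rw [hij, eB.symm_apply_apply]
      exact hz)
    rw [resPlc_val] at h1
    change p.val (i (j₀ (σ (eB z)))) (τ c') at h1
    rw [hij] at h1
    exact h1
  refine ⟨eB, s₀, resPlc i hiK p, hj₀, hpv₀, fun g z w h => ?_, fun z w c h => ?_,
    fun z w h => ?_, hFΩ⟩
  · have h5 : AlgEquiv.autCongr eB.symm (AlgEquiv.autCongr eB g) = g := by
      ext b
      change eB.symm (eB (g (eB.symm (eB b)))) = g b
      rw [eB.symm_apply_apply, eB.symm_apply_apply]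
    rw [hs₀ _ z w h, h5]
  · have h1 : i w = z := Subtype.ext h
    rw [resPlc_val, h1]
  · have h1 : i w = z := Subtype.ext h
    rw [resPlc_mem, h1]

end res

end Pool.Agent.K3h82.BT
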