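import Pool.Agent.K3h82.BT.RigM
import Pool.Agent.K3h82.BT.Res

/-!
# Rigidity over larger function fields
-/

set_option autoImplicit false
set_option linter.all false

open Polynomial FF Pool.Agent.Y157.PS Pool.Agent.TH954 IsDedekindDomain NumberField

namespace Pool.Agent.K3h82.BT

open Pool.Agent.Y158.GR
open Pool.Agent.Y158.FQ (adjoin_pair_top)

section

variable {K : Type} [Field K] [NumberField K] {F Ω B : Type} [Field F] [Field Ω] [Field B]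
  [Algebra K F] [Algebra F Ω] [Algebra K Ω] [Algebra K B] [IsScalarTower K F Ω] [IsAlgClosed Ω]
  [Algebra.IsAlgebraic F Ω] [IsAlgClosure K B]
  {C Lv : Type} [Field C] [Field Lv] [Algebra Lv C] [Algebra K C] [Algebra K Lv]
  [IsScalarTower K Lv C] [CharZero Lv] [IsAlgClosure Lv C]

variable {ι : K}

/-- rigidity -/
theorem rigK (hι : ι ^ 2 = -1) {d : K} (hd : d ≠ 0)
    (hinj : ∀ a : K, a ≠ 0 → (∀ v : HeightOneSpectrum (𝓞 K), (2 : 𝓞 K) ∉ v.asIdeal →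
      (∃ t : WithZero (Multiplicative ℤ), v.valuation K d = t ^ 2) →
      ∃ t : WithZero (Multiplicative ℤ), v.valuation K a = t ^ 2) →
      (∃ z : Lv, algebraMap K Lv a = z ^ 2) → ∃ b : K, a = b ^ 2)
    (x y : F) (hx : Transcendental K x)
    (hFx : Algebra.IsAlgebraic (IntermediateField.adjoin K {x}) F)
    (hxy : algebraMap K F d * y ^ 2 = x ^ 5 - x) (N : IntermediateField F Ω)
    (hN : ∀ z ∈ geomPro 2 K (IntermediateField.adjoin K {x, y}) Ω, z ∈ N)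
    (s : GalSection K F N B) (p : Plc K N C) (hpv : s.GivenBy Lv p)
    (hpt : p.val (algebraMap F N x)⁻¹ 0 ∨ ∃ c : C, c ^ 5 = c ∧ p.val (algebraMap F N x) c) :
    ∀ (g : B ≃ₐ[K] B) (z : N), (z : Ω) ∈ geomPro 2 K (IntermediateField.adjoin K {x, y}) Ω →
      (s.s g z ∈ p.W ↔ z ∈ p.W) := by
  classical
  haveI h2p : Fact (Nat.Prime 2) := ⟨Nat.prime_two⟩
  obtain ⟨F₀, hF₀⟩ : ∃ F₀ : IntermediateField K F, F₀ = IntermediateField.adjoin K {x, y} :=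
    ⟨_, rfl⟩
  have hxF : x ∈ F₀ := by rw [hF₀]; exact IntermediateField.subset_adjoin K _ (by simp)
  have hyF : y ∈ F₀ := by rw [hF₀]; exact IntermediateField.subset_adjoin K _ (by simp)
  rw [← hF₀] at hN ⊢
  obtain ⟨eB, s₀, p₀, hj₀, hpv₀, hs₀, hval, hmem, hFΩ⟩ :=
    res_sec (ℓ := 2) hx hFx F₀ hxF N hN s p hpv
  have htop := adjoin_pair_top hF₀ hxF hyF
  have hx0 : Transcendental K (⟨x, hxF⟩ : F₀) := trans_sub hx hxF
  have hxy0 : algebraMap K F₀ d * (⟨y, hyF⟩ : F₀) ^ 2 = (⟨x, hxF⟩ : F₀) ^ 5 - ⟨x, hxF⟩ :=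
    Subtype.ext hxy
  have key := rig5 hι hd hinj (⟨x, hxF⟩ : F₀) ⟨y, hyF⟩ hx0 htop hxy0 s₀ hj₀ p₀ hpv₀ (by
    rcases hpt with h | ⟨c, hc, h⟩
    · left
      exact (hval (algebraMap F N x)⁻¹ _ 0 rfl).2 h
    · right
      exact ⟨c, hc, (hval (algebraMap F N x) _ c rfl).2 h⟩)
  intro g z hz
  have h1 := key (AlgEquiv.autCongr eB g) ⟨(z : Ω), hz⟩
  have h2 := hmem z ⟨(z : Ω), hz⟩ rfl
  have h3 := hmem (s.s g z) (s₀.s (AlgEquiv.autCongr eB g) ⟨(z : Ω), hz⟩)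
    (hs₀ g z ⟨(z : Ω), hz⟩ rfl)
  rw [h2, h3] at h1
  exact h1

end

end Pool.Agent.K3h82.BT
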