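import Pool.Agent.K3h82.BT.KM2
import Pool.Agent.K3h82.BT.RigK
import Pool.Agent.Y158.FQ.Main

/-!
# Base change from `ℚ` to `ℚ(i)`
-/

set_option autoImplicit false
set_option linter.all false

open Polynomial FF Pool.Agent.Y157.PS Pool.Agent.TH954 IsDedekindDomain NumberField

namespace Pool.Agent.K3h82.BT

attribute [-instance] DivisionRing.toRatAlgebra
attribute [local instance 1] DivisionRing.toRatAlgebra

open Pool.Agent.Y158.FQ (extSec extPlc extGiven extPlc_val extPlc_mem extSec_apply alg_over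
  geomPro_base)

section

variable {K : Type} [Field K] [NumberField K] {ι : K}
  {F F' Ω B : Type} [Field F] [Field F'] [Field Ω] [Field B] [Algebra ℚ F] [Algebra F Ω]
  [Algebra ℚ Ω] [Algebra ℚ B] [IsScalarTower ℚ F Ω] [IsAlgClosed Ω] [Algebra.IsAlgebraic F Ω]
  [Algebra ℚ K] [Algebra K F'] [Algebra F' Ω] [Algebra K Ω] [IsScalarTower K F' Ω] [Algebra K B]
  [IsScalarTower ℚ K B] [IsScalarTower ℚ K Ω] [IsAlgClosure ℚ B]
  {C Lv : Type} [Field C] [Field Lv] [Algebra Lv C] [Algebra ℚ C] [Algebra K C] [Algebra K Lv]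
  [IsScalarTower K Lv C] [CharZero Lv] [IsScalarTower ℚ K C] [IsAlgClosure Lv C] {o : Lv → ℤ}

/-- the main step, with a field `F'` which contains `K` -/
theorem btAbs [Algebra.IsAlgebraic ℚ K] (hG : Gi K ι) (od : OD Lv (algebraMap K Lv ι) o) (x : F)
    (hx : Transcendental ℚ x)
    (hF : Algebra.IsAlgebraic (IntermediateField.adjoin ℚ {x}) F) (Y : Ω)
    (N : IntermediateField F Ω) (N' : IntermediateField F' Ω) (hNN' : ∀ z, z ∈ N ↔ z ∈ N')
    (hN : ∀ z ∈ geomPro 2 ℚ (IntermediateField.adjoin ℚ {algebraMap F Ω x, Y}) Ω, z ∈ N)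
    (s : GalSection ℚ F N B) (p : Plc ℚ N C) (hpv : s.GivenBy Lv p)
    (hKB : ∀ c : K, ((s.j (algebraMap K B c) : N) : Ω) = algebraMap K Ω c)
    (hKC : ∀ c : K, p.val (s.j (algebraMap K B c)) (algebraMap K C c))
    (hfix : ∀ (r : F') (g : B ≃ₐ[K] B) (z : N), (z : Ω) = algebraMap F' Ω r →
      s.s (g.restrictScalars ℚ) z = z)
    (x' y' w' : F') (hx' : algebraMap F' Ω x' = algebraMap F Ω x) (hy' : algebraMap F' Ω y' = Y)
    {d D : K} (hd : d ≠ 0) (hD : D ≠ 0) (hxy : algebraMap K F' d * y' ^ 2 = x' ^ 5 - x')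
    (hw : algebraMap K F' D * w' ^ 2 = x' ^ 4 - 1 ∨ ∃ e : K, e ^ 4 = 1 ∧
      algebraMap K F' D * w' ^ 2 = x' ^ 3 + (algebraMap K F' e) ^ 2 * x')
    (hodd : ∀ v : HeightOneSpectrum (𝓞 K), (2 : 𝓞 K) ∉ v.asIdeal →
      (∃ t, v.valuation K d = t ^ 2) ∨ ∃ t, v.valuation K D = t ^ 2) :
    (p.val (algebraMap F N x)⁻¹ 0 ∨ ∃ c : C, c ^ 5 = c ∧ p.val (algebraMap F N x) c) ∧
      ((∀ a : K, a ≠ 0 → (∀ v : HeightOneSpectrum (𝓞 K), (2 : 𝓞 K) ∉ v.asIdeal →
      (∃ t : WithZero (Multiplicative ℤ), v.valuation K d = t ^ 2) →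
      ∃ t : WithZero (Multiplicative ℤ), v.valuation K a = t ^ 2) →
      (∃ z : Lv, algebraMap K Lv a = z ^ 2) → ∃ b : K, a = b ^ 2) →
      ∀ (g : B ≃ₐ[K] B) (z : N),
        (z : Ω) ∈ geomPro 2 ℚ (IntermediateField.adjoin ℚ {algebraMap F Ω x, Y}) Ω →
        (s.s (g.restrictScalars ℚ) z ∈ p.W ↔ z ∈ p.W)) := by
  haveI : IsAlgClosure K B := ⟨IsAlgClosure.isAlgClosed ℚ,
    haveI : Algebra.IsAlgebraic ℚ B := IsAlgClosure.isAlgebraic
    Algebra.IsAlgebraic.tower_top (K := ℚ) K⟩
  haveI : Algebra.IsAlgebraic ℚ B := IsAlgClosure.isAlgebraic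
  -- the fields are algebraic
  let R : IntermediateField ℚ Ω :=
    { (IntermediateField.adjoin K {algebraMap F' Ω x'}).toSubfield with
      algebraMap_mem' := fun q => by
        change algebraMap ℚ Ω q ∈ IntermediateField.adjoin K {algebraMap F' Ω x'}
        rw [IsScalarTower.algebraMap_apply ℚ K Ω]
        exact IntermediateField.algebraMap_mem _ _ }
  have hR : Algebra.IsAlgebraic R Ω := by
    refine alg_over hF R ?_
    change algebraMap F Ω x ∈ IntermediateField.adjoin K {algebraMap F' Ω x'}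
    rw [← hx']
    exact IntermediateField.subset_adjoin K _ (by simp)
  have hRmem : ∀ z ∈ R, ∃ z' : IntermediateField.adjoin K {x'}, algebraMap F' Ω z' = z := by
    intro z hz
    have hz1 : z ∈ IntermediateField.adjoin K {algebraMap F' Ω x'} := hz
    have h2 := IntermediateField.adjoin_map K {x'} (IsScalarTower.toAlgHom K F' Ω)
    rw [Set.image_singleton] at h2
    have hz2 : z ∈ IntermediateField.adjoin K {(IsScalarTower.toAlgHom K F' Ω) x'} := hz1
    rw [← h2] at hz2
    obtain ⟨z', hz', hz''⟩ := hz2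
    exact ⟨⟨z', hz'⟩, hz''⟩
  have hEΩ : Algebra.IsAlgebraic (IntermediateField.adjoin K {x'}) Ω := by
    choose f hf using fun z : R => hRmem z z.2
    have hinj := (algebraMap (IntermediateField.adjoin K {x'}) Ω).injective
    have hf' : ∀ z : R, algebraMap (IntermediateField.adjoin K {x'}) Ω (f z) = z := hf
    let i : R →+* IntermediateField.adjoin K {x'} :=
      { toFun := f
        map_one' := hinj (by rw [hf', map_one]; rfl)
        map_mul' := fun a b => hinj (by rw [hf', map_mul, hf', hf']; rfl)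
        map_zero' := hinj (by rw [hf', map_zero]; rfl)
        map_add' := fun a b => hinj (by rw [hf', map_add, hf', hf']; rfl) }
    refine ⟨fun z => ?_⟩
    obtain ⟨q, hq, hqz⟩ := Algebra.IsAlgebraic.isAlgebraic (R := R) z
    refine ⟨q.map i, (Polynomial.map_ne_zero_iff i.injective).2 hq, ?_⟩
    rw [aeval_def, eval₂_map]
    have h3 : (algebraMap (IntermediateField.adjoin K {x'}) Ω).comp i = algebraMap R Ω :=
      RingHom.ext fun z => hf' z
    rw [h3]
    exact hqz
  have hEF : Algebra.IsAlgebraic (IntermediateField.adjoin K {x'}) F' :=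
    Algebra.IsAlgebraic.tower_bot (IntermediateField.adjoin K {x'}) F' Ω
  haveI hF'Ω : Algebra.IsAlgebraic F' Ω :=
    Algebra.IsAlgebraic.tower_top (K := IntermediateField.adjoin K {x'}) F'
  have hXt : Transcendental K x' := by
    intro h
    have h1 : IsAlgebraic K (algebraMap F' Ω x') := h.algebraMap
    have h2 : IsAlgebraic ℚ (algebraMap F' Ω x') := h1.restrictScalars ℚ
    have h3 : IsAlgebraic ℚ (algebraMap F Ω x) := by rw [← hx']; exact h2
    exact (transcendental_algebraMap_iff (R := ℚ) (algebraMap F Ω).injective (a := x)).2 hx h3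
  -- the extension of the base field
  let e : N ≃+* N' :=
    { toFun := fun z => ⟨(z : Ω), (hNN' _).1 z.2⟩
      invFun := fun z => ⟨(z : Ω), (hNN' _).2 z.2⟩
      left_inv := fun z => rfl
      right_inv := fun z => rfl
      map_mul' := fun _ _ => rfl
      map_add' := fun _ _ => rfl }
  have he : ∀ z : N, ((e z : N') : Ω) = (z : Ω) := fun z => rfl
  have hgp : ∀ z, z ∈ geomPro 2 K (IntermediateField.adjoin K {x', y'}) Ω ↔
      z ∈ geomPro 2 ℚ (IntermediateField.adjoin ℚ {algebraMap F Ω x, Y}) Ω :=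
    geomPro_base (c := 1) (c' := 1) (one_mem _) (one_mem _) one_ne_zero one_ne_zero
      (by rw [hx', one_mul]) (by rw [hy', one_mul])
  have hN' : ∀ z ∈ geomPro 2 K (IntermediateField.adjoin K {x', y'}) Ω, z ∈ N' :=
    fun z hz => (hNN' _).1 (hN z ((hgp z).1 hz))
  have hgiv := extGiven e he s p hKB hKC hfix Lv hpv
  have h1 : (extPlc e he s p hKB hKC).val (algebraMap F' N' x')⁻¹ 0 ∨ ∃ c : C, c ^ 5 = c ∧
      (extPlc e he s p hKB hKC).val (algebraMap F' N' x') c := by
    rcases hw with hw | ⟨ε, hε, hw⟩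
    · exact secK hG od x' y' w' hXt hEF hd hD hodd hxy hw N' hN' (extSec e he s hKB hfix)
        (extPlc e he s p hKB hKC) hgiv
    · exact secKe hG od hε x' y' w' hXt hEF hd hD hodd hxy hw N' hN' (extSec e he s hKB hfix)
        (extPlc e he s p hKB hKC) hgiv
  refine ⟨?_, fun hinj g z hz => ?_⟩
  · have hXe : e.symm (algebraMap F' N' x') = algebraMap F N x := by
      apply Subtype.ext
      exact hx'
    rcases h1 with h1 | ⟨c, hc, h1⟩
    · left
      rw [extPlc_val, map_inv₀, hXe] at h1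
      exact h1
    · right
      rw [extPlc_val, hXe] at h1
      exact ⟨c, hc, h1⟩
  · have h2 := rigK hG.sq hd hinj x' y' hXt hEF hxy N' hN' (extSec e he s hKB hfix)
      (extPlc e he s p hKB hKC) hgiv h1 g (e z) ((hgp _).2 hz)
    rw [extPlc_mem, extPlc_mem, extSec_apply, e.symm_apply_apply, e.symm_apply_apply] at h2
    exact h2

end

end Pool.Agent.K3h82.BT
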