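import Pool.Agent.K3h82.BT.Abs
import Pool.Agent.Y158.FQ.Main3

/-!
# Sections over `ℚ`: the action of the Galois group of `ℚ(i)`
-/

set_option autoImplicit false
set_option linter.all false

open Polynomial FF Pool.Agent.Y157.PS Pool.Agent.TH954 IsDedekindDomain NumberField

namespace Pool.Agent.K3h82.BT

attribute [-instance] DivisionRing.toRatAlgebra
attribute [local instance 1] DivisionRing.toRatAlgebra

open Pool.Agent.Y158.GR (DecL exists_decL given_mem exists_eB)

section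

variable {K : Type} [Field K] [NumberField K] {ι : K}
  {F Ω B : Type} [Field F] [Field Ω] [Field B] [Algebra ℚ F] [Algebra F Ω]
  [Algebra ℚ Ω] [Algebra ℚ B] [IsScalarTower ℚ F Ω] [IsAlgClosed Ω] [Algebra.IsAlgebraic F Ω]
  [IsAlgClosure ℚ B]
  {C Lv : Type} [Field C] [Field Lv] [Algebra Lv C] [Algebra ℚ C] [Algebra K Lv]
  [CharZero Lv] [IsAlgClosure Lv C] {o : Lv → ℤ}

/-- the section preserves the valuation ring, for automorphisms over `K` -/
theorem btK [Algebra.IsAlgebraic ℚ B] (hG : Gi K ι) (od : OD Lv (algebraMap K Lv ι) o) (x : F)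
    (hx : Transcendental ℚ x)
    (hF : Algebra.IsAlgebraic (IntermediateField.adjoin ℚ {x}) F)
    (N : IntermediateField F Ω) (s : GalSection ℚ F N B) (y w : N) (hys : ∀ g, s.s g y = y)
    (hws : ∀ g, s.s g w = w) {d D : ℚ} (hd : d ≠ 0) (hD : D ≠ 0)
    (hxy : algebraMap ℚ N d * y ^ 2 = algebraMap F N (x ^ 5 - x))
    (hw : algebraMap ℚ N D * w ^ 2 = algebraMap F N (x ^ 4 - 1) ∨
      algebraMap ℚ N D * w ^ 2 = algebraMap F N (x ^ 3 - x) ∨
      algebraMap ℚ N D * w ^ 2 = algebraMap F N (x ^ 3 + x))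
    (hodd : ∀ v : HeightOneSpectrum (𝓞 K), (2 : 𝓞 K) ∉ v.asIdeal →
      (∃ t, v.valuation K (d : K) = t ^ 2) ∨ ∃ t, v.valuation K (D : K) = t ^ 2)
    (hN : ∀ z ∈ geomPro 2 ℚ (IntermediateField.adjoin ℚ {algebraMap F Ω x, (y : Ω)}) Ω, z ∈ N)
    (p : Plc ℚ N C) (hpv : s.GivenBy Lv p) :
    ∃ f : K →+* B, (∀ c : K, p.iot s.j (f c) = algebraMap Lv C (algebraMap K Lv c)) ∧
      (p.val (algebraMap F N x)⁻¹ 0 ∨ ∃ c : C, c ^ 5 = c ∧ p.val (algebraMap F N x) c) ∧
      ((∀ a : K, a ≠ 0 → (∀ v : HeightOneSpectrum (𝓞 K), (2 : 𝓞 K) ∉ v.asIdeal →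
      (∃ t : WithZero (Multiplicative ℤ), v.valuation K (d : K) = t ^ 2) →
      ∃ t : WithZero (Multiplicative ℤ), v.valuation K a = t ^ 2) →
      (∃ z : Lv, algebraMap K Lv a = z ^ 2) → ∃ b : K, a = b ^ 2) →
      ∀ g : B ≃ₐ[ℚ] B, g (f ι) = f ι → ∀ z : N,
        (z : Ω) ∈ geomPro 2 ℚ (IntermediateField.adjoin ℚ {algebraMap F Ω x, (y : Ω)}) Ω →
        (s.s g z ∈ p.W ↔ z ∈ p.W)) := by
  haveI hCac : IsAlgClosed C := IsAlgClosure.isAlgClosed Lv
  haveI : Algebra.IsAlgebraic ℚ K := Algebra.IsAlgebraic.of_finite ℚ K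
  obtain ⟨φ, hφ⟩ : ∃ φ : K →+* C, φ = (algebraMap Lv C).comp (algebraMap K Lv) := ⟨_, rfl⟩
  have hφ' : ∀ c, φ c = algebraMap Lv C (algebraMap K Lv c) := fun c => by rw [hφ]; rfl
  -- the embedding of `K` in `B`
  obtain ⟨eB, heB⟩ := exists_eB (K := ℚ) (Ω := C) (p.iot s.j)
  have hmemC : ∀ c : K, φ c ∈ algebraicClosure ℚ C := by
    intro c
    rw [mem_algebraicClosure_iff]
    obtain ⟨q, hq, hqc⟩ := Algebra.IsAlgebraic.isAlgebraic (R := ℚ) c
    refine ⟨q, hq, ?_⟩
    rw [aeval_def] at hqc ⊢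
    have h1 : algebraMap ℚ C = φ.comp (algebraMap ℚ K) := Subsingleton.elim _ _
    rw [h1, ← hom_eval₂, hqc, map_zero]
  let f : K →+* B := (eB.symm : algebraicClosure ℚ C →+* B).comp
    (φ.codRestrict (algebraicClosure ℚ C) hmemC)
  have hf : ∀ c, p.iot s.j (f c) = φ c := by
    intro c
    rw [← heB]
    change ((eB (eB.symm (φ.codRestrict (algebraicClosure ℚ C) hmemC c)) :
      algebraicClosure ℚ C) : C) = _
    rw [eB.apply_symm_apply]
    rfl
  refine ⟨f, fun c => by rw [hf, hφ'], ?_⟩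
  letI iKB : Algebra K B := f.toAlgebra
  haveI : IsScalarTower ℚ K B := IsScalarTower.of_algebraMap_eq' (Subsingleton.elim _ _)
  letI iKΩ : Algebra K Ω := (((algebraMap N Ω).comp (s.j : B →+* N)).comp f).toAlgebra
  haveI : IsScalarTower ℚ K Ω := IsScalarTower.of_algebraMap_eq' (Subsingleton.elim _ _)
  letI iKC : Algebra K C := φ.toAlgebra
  haveI : IsScalarTower ℚ K C := IsScalarTower.of_algebraMap_eq' (Subsingleton.elim _ _)
  haveI : IsScalarTower K Lv C := IsScalarTower.of_algebraMap_eq fun c => hφ' c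
  obtain ⟨S, hS⟩ : ∃ S : Set Ω, S = Set.range (algebraMap K Ω) ∪ {(y : Ω), (w : Ω)} := ⟨_, rfl⟩
  have hSK : ∀ r : K, algebraMap K Ω r ∈ S := fun r => by
    rw [hS]; exact Or.inl ⟨r, rfl⟩
  have hSy : (y : Ω) ∈ S := by rw [hS]; exact Or.inr (by simp)
  have hSw : (w : Ω) ∈ S := by rw [hS]; exact Or.inr (by simp)
  let F' : IntermediateField F Ω := IntermediateField.adjoin F S
  have hF'K : ∀ r : K, algebraMap K Ω r ∈ F' := fun r =>
    IntermediateField.subset_adjoin F _ (hSK r)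
  have hF'N : F' ≤ N := by
    rw [IntermediateField.adjoin_le_iff, hS]
    rintro z (⟨r, rfl⟩ | hz)
    · exact (s.j (f r)).2
    · rcases hz with hz | hz
      · rw [hz]; exact y.2
      · rw [Set.mem_singleton_iff] at hz
        rw [hz]; exact w.2
  let iKF : Algebra K F' := ((algebraMap K Ω).codRestrict F' hF'K).toAlgebra
  haveI : IsScalarTower K F' Ω := IsScalarTower.of_algebraMap_eq fun _ => rfl
  have hfix : ∀ (r : F') (g : B ≃ₐ[K] B) (z : N), (z : Ω) = algebraMap F' Ω r →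
      s.s (g.restrictScalars ℚ) z = z := by
    intro r g z hz
    let T : Subfield Ω := Subfield.map (algebraMap N Ω)
      (RingHom.eqLocusField ((s.s (g.restrictScalars ℚ) : N ≃ₐ[F] N) : N →+* N) (RingHom.id N))
    have hT : ∀ t : N, s.s (g.restrictScalars ℚ) t = t → (t : Ω) ∈ T := fun t ht => ⟨t, ht, rfl⟩
    have h1 : (r : Ω) ∈ T := by
      refine adjoin_le_sub (T := T) (fun q => ?_) (fun t ht => ?_) _ r.2
      · exact hT (algebraMap F N q) ((s.s (g.restrictScalars ℚ)).commutes q)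
      · rw [hS] at ht
        rcases ht with ⟨q, rfl⟩ | ht
        · refine hT (s.j (f q)) ?_
          rw [s.sec]
          congr 1
          exact g.commutes q
        · rcases ht with ht | ht
          · rw [ht]; exact hT y (hys _)
          · rw [Set.mem_singleton_iff] at ht
            rw [ht]; exact hT w (hws _)
    obtain ⟨t, ht, htr⟩ := h1
    have h2 : t = z := Subtype.ext (htr.trans hz.symm)
    rw [← h2]
    exact ht
  -- the equations
  have hratN : ∀ q : ℚ, ((algebraMap ℚ N q : N) : Ω) = algebraMap K Ω (q : K) := by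
    intro q
    have h1 : ((algebraMap ℚ N q : N) : Ω) = (q : Ω) := by
      change algebraMap N Ω (algebraMap ℚ N q) = _
      rw [eq_ratCast (algebraMap ℚ N) q, map_ratCast]
    rw [h1, map_ratCast]
  have hinjF : Function.Injective (algebraMap F' Ω) := (algebraMap F' Ω).injective
  have htr : ∀ (q : ℚ) (z : N) (z' : F'), ((z : N) : Ω) = algebraMap F' Ω z' → ∀ (r : F) (r' : F'),
      algebraMap F' Ω r' = algebraMap F Ω r → algebraMap ℚ N q * z ^ 2 = algebraMap F N r →
      algebraMap K F' (q : K) * z' ^ 2 = r' := by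
    intro q z z' hz r r' hr h
    apply hinjF
    have h3 := congrArg (algebraMap N Ω) h
    rw [map_mul, map_pow] at h3
    rw [map_mul, map_pow, ← IsScalarTower.algebraMap_apply, hr, ← hz, ← hratN]
    exact h3
  obtain ⟨x', hx'⟩ : ∃ x' : F', algebraMap F' Ω x' = algebraMap F Ω x := ⟨algebraMap F F' x, rfl⟩
  have hyF : algebraMap F' Ω ⟨(y : Ω), IntermediateField.subset_adjoin F _ hSy⟩ = (y : Ω) := rfl
  have hwF : algebraMap F' Ω ⟨(w : Ω), IntermediateField.subset_adjoin F _ hSw⟩ = (w : Ω) := rfl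
  have hdK : (d : K) ≠ 0 := by exact_mod_cast hd
  have hDK : (D : K) ≠ 0 := by exact_mod_cast hD
  have hxy' := htr d y ⟨(y : Ω), IntermediateField.subset_adjoin F _ hSy⟩ hyF.symm (x ^ 5 - x)
    (x' ^ 5 - x') (by rw [map_sub, map_pow, hx', map_sub, map_pow]) hxy
  obtain ⟨h1, h2⟩ := btAbs (F' := F') hG od x hx hF (y : Ω) N
    (IntermediateField.extendScalars hF'N)
    (fun z => (IntermediateField.mem_extendScalars hF'N).symm) hN s p hpv (fun c => rfl) (fun c => by
      have h3 : p.val (s.j (f c)) (p.iot s.j (f c)) := Pool.Agent.Y158.GR.iot_val s p (f c)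
      rw [hf] at h3
      exact h3) hfix x' ⟨(y : Ω), IntermediateField.subset_adjoin F _ hSy⟩
      ⟨(w : Ω), IntermediateField.subset_adjoin F _ hSw⟩ hx' hyF hdK hDK hxy' (by
        rcases hw with hw | hw | hw
        · left
          exact htr D w _ hwF.symm (x ^ 4 - 1) (x' ^ 4 - 1)
            (by rw [map_sub, map_pow, map_one, hx', map_sub, map_pow, map_one]) hw
        · right
          refine ⟨ι, by linear_combination (ι ^ 2 - 1) * hG.sq, ?_⟩
          rw [htr D w _ hwF.symm (x ^ 3 - x) (x' ^ 3 - x')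
            (by rw [map_sub, map_pow, hx', map_sub, map_pow]) hw, ← map_pow, hG.sq, map_neg,
            map_one]
          ring
        · right
          refine ⟨1, by ring, ?_⟩
          rw [htr D w _ hwF.symm (x ^ 3 + x) (x' ^ 3 + x')
            (by rw [map_add, map_pow, hx', map_add, map_pow]) hw, map_one]
          ring) hodd
  refine ⟨h1, fun hinj g hg z hz => ?_⟩
  have hgK : ∀ r : K, g (f r) = f r := by
    intro r
    obtain ⟨a, b, hab⟩ := hG.span r
    rw [hab]
    simp only [map_add, map_mul, map_ratCast, hg]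
  have h3 := h2 hinj (AlgEquiv.ofRingEquiv (f := (g : B ≃+* B)) hgK) z hz
  exact h3

end

end Pool.Agent.K3h82.BT
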