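import Pool.Agent.K3h82.BT.Desc

/-!
# The chain of divisions
-/

set_option autoImplicit false
set_option linter.all false

open NumberField IsDedekindDomain WithZero Pool.Agent.TH954 Pool.Agent.Y158.KL

namespace Pool.Agent.K3h82.BT

/-- one of the four classes -/
def Fr {K : Type} [Field K] (ι D : K) : Prop := D = 1 ∨ D = ι ∨ D = 1 + ι ∨ D = ι * (1 + ι)

section

variable {K L Lv : Type} [Field K] [NumberField K] [Field L] [Algebra K L] [Field Lv]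
  [Algebra K Lv] {ι : K} {o : Lv → ℤ}

theorem Fr.int (hG : Gi K ι) {D : K} (hD : Fr ι D) :
    ∃ Di : 𝓞 K, (Di : K) = D ∧ Di ∣ 2 := by
  have h1 : ((1 : 𝓞 K) : K) = 1 := map_one (algebraMap (𝓞 K) K)
  have hsq : iotI hG * iotI hG = -1 := by
    apply RingOfIntegers.ext
    have e1 : ((iotI hG * iotI hG : 𝓞 K) : K) = ((iotI hG : 𝓞 K) : K) * ((iotI hG : 𝓞 K) : K) :=
      map_mul (algebraMap (𝓞 K) K) _ _
    have e2 : ((-1 : 𝓞 K) : K) = -((1 : 𝓞 K) : K) := map_neg (algebraMap (𝓞 K) K) _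
    rw [e1, e2, iotI_coe, h1]
    linear_combination hG.sq
  rcases hD with h | h | h | h
  · exact ⟨1, by rw [h, h1], one_dvd _⟩
  · exact ⟨iotI hG, by rw [h, iotI_coe], ⟨-2 * iotI hG, by linear_combination 2 * hsq⟩⟩
  · exact ⟨lamI hG, by rw [h, lamI_coe], ⟨1 - iotI hG, by
      unfold lamI
      linear_combination hsq⟩⟩
  · refine ⟨iotI hG * lamI hG, ?_, ⟨-1 - iotI hG, ?_⟩⟩
    · rw [h]
      have e1 : ((iotI hG * lamI hG : 𝓞 K) : K) = ((iotI hG : 𝓞 K) : K) * ((lamI hG : 𝓞 K) : K) :=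
        map_mul (algebraMap (𝓞 K) K) _ _
      rw [e1, iotI_coe, lamI_coe]
    · unfold lamI
      linear_combination (2 + iotI hG) * hsq

theorem Fr.ne (hG : Gi K ι) {D : K} (hD : Fr ι D) : D ≠ 0 := by
  obtain ⟨Di, h1, h2⟩ := hD.int hG
  rw [← h1]
  apply coe_ne
  rintro rfl
  exact two_ne_zero (zero_dvd_iff.1 h2)

/-- divisors of `2` are units outside `2` -/
theorem GO.unit {v : HeightOneSpectrum (𝓞 K)} (hv : (2 : 𝓞 K) ∉ v.asIdeal) {O : ValuationSubring L}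
    (hO : GO v O) {a : 𝓞 K} (ha : a ∣ 2) : O.valuation (algebraMap K L (a : K)) = 1 := by
  have h1 : v.intValuation a = 1 := by
    rw [v.intValuation_eq_one_iff]
    intro h2
    exact hv (v.asIdeal.mem_of_dvd ha h2)
  exact hO.1 a h1

theorem GO.two {v : HeightOneSpectrum (𝓞 K)} (hv : (2 : 𝓞 K) ∉ v.asIdeal) {O : ValuationSubring L}
    (hO : GO v O) : O.valuation 2 = 1 := by
  have h1 := hO.unit hv (dvd_refl (2 : 𝓞 K))
  have h2 : ((2 : 𝓞 K) : K) = 2 := map_ofNat (algebraMap (𝓞 K) K) 2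
  rwa [h2, map_ofNat] at h1

/-- the state of the descent -/
structure St (pl : Plc K L Lv) (ι D : K) (X W : L) : Prop where
  eq : algebraMap K L D * W ^ 2 = X ^ 3 - X
  gs : ∀ v : HeightOneSpectrum (𝓞 K), (2 : 𝓞 K) ∉ v.asIdeal → ∃ O : ValuationSubring L,
    GO v O ∧ Inv O (algebraMap K L ι) X
  pt : Inv pl.W (algebraMap K L ι) X

theorem St.ne {pl : Plc K L Lv} {D : K} {X W : L} (h : St pl ι D X W) :
    X ≠ 0 ∧ X - 1 ≠ 0 ∧ X + 1 ≠ 0 ∧ X - algebraMap K L ι ≠ 0 ∧ X + algebraMap K L ι ≠ 0 := by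
  have key : ∀ {z : L}, pl.W.valuation z = 1 → z ≠ 0 := by
    rintro z hz rfl
    rw [map_zero] at hz
    exact zero_ne_one hz
  exact ⟨key h.pt.a, key h.pt.b, key h.pt.c, key h.pt.d, key h.pt.e⟩

/-- the class of `D X` -/
theorem St.cls (hG : Gi K ι) (kum : Kum 2 K L) {pl : Plc K L Lv} {D : K} (hD : Fr ι D) {X W : L}
    (h : St pl ι D X W) : ∃ c : K, Fr ι c ∧ ∃ g : L, g ≠ 0 ∧
      algebraMap K L D * X = algebraMap K L c * g ^ 2 := by
  obtain ⟨hX0, hX1, hX2, -, -⟩ := h.ne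
  have hD0 : algebraMap K L D ≠ 0 := (map_ne_zero _).2 (hD.ne hG)
  have hX21 : X ^ 2 - 1 ≠ 0 := by
    have : X ^ 2 - 1 = (X - 1) * (X + 1) := by ring
    rw [this]
    exact mul_ne_zero hX1 hX2
  have hw : algebraMap K L D * X ≠ 0 := mul_ne_zero hD0 hX0
  obtain ⟨c, hc, g, hg⟩ := kum _ hw (fun O hO =>
    even_div (triv_val hO (hD.ne hG)) hX0 hX21 h.eq)
  have hg0 : g ≠ 0 := by
    rintro rfl
    rw [zero_pow two_ne_zero, mul_zero] at hg
    exact hw hg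
  obtain ⟨Di, hDi, hDi2⟩ := hD.int hG
  obtain ⟨k, hk, hck⟩ := cls4 hG c hc (fun v hv => by
    obtain ⟨O, hO, hI⟩ := h.gs v hv
    refine hO.2 c g 1 hc hg0 one_ne_zero ?_
    rw [← hg, map_mul, hI.a, ← hDi, hO.unit hv hDi2, map_one]
    simp)
  have hk' : algebraMap K L k ≠ 0 := (map_ne_zero _).2 hk
  have key : ∀ c₀ : K, c = c₀ * k ^ 2 → algebraMap K L D * X =
      algebraMap K L c₀ * (algebraMap K L k * g) ^ 2 := by
    intro c₀ h1
    rw [hg, h1, map_mul, map_pow]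
    ring
  rcases hck with h1 | h1 | h1 | h1
  · exact ⟨1, Or.inl rfl, _, mul_ne_zero hk' hg0, key 1 (by rw [h1, one_mul])⟩
  · exact ⟨ι, Or.inr (Or.inl rfl), _, mul_ne_zero hk' hg0, key ι h1⟩
  · exact ⟨1 + ι, Or.inr (Or.inr (Or.inl rfl)), _, mul_ne_zero hk' hg0, key _ h1⟩
  · exact ⟨ι * (1 + ι), Or.inr (Or.inr (Or.inr rfl)), _, mul_ne_zero hk' hg0, key _ h1⟩

theorem Fr.map {D : K} (hD : Fr ι D) : Fr (algebraMap K Lv ι) (algebraMap K Lv D) := by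
  rcases hD with h | h | h | h <;> rw [h]
  · exact Or.inl (map_one _)
  · exact Or.inr (Or.inl rfl)
  · exact Or.inr (Or.inr (Or.inl (by rw [map_add, map_one])))
  · exact Or.inr (Or.inr (Or.inr (by rw [map_mul, map_add, map_one])))

/-- values of an element with `Inv` -/
theorem Inv.nt {pl : Plc K L Lv} {X : L} {ξ : Lv} (hι : ι ^ 2 = -1)
    (h : Inv pl.W (algebraMap K L ι) X) (hξ : pl.val X ξ) : NT ξ := by
  have h0 := val_ne h.a hξ
  have h1 := val_ne h.b (hξ.sub Plc.val_one)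
  have h2 := val_ne h.c (hξ.add Plc.val_one)
  have h3 := val_ne h.d (hξ.sub (Plc.val_alg ι))
  have h4 := val_ne h.e (hξ.add (Plc.val_alg ι))
  have hι' : (algebraMap K Lv ι) ^ 2 = -1 := by rw [← map_pow, hι, map_neg, map_one]
  refine ⟨h0, fun h5 => mul_ne_zero h1 h2 (by linear_combination h5), fun h5 =>
    mul_ne_zero h3 h4 (by linear_combination h5 - hι')⟩

/-- the local classes -/
theorem St.loc (hG : Gi K ι) {pl : Plc K L Lv} (od : OD Lv (algebraMap K Lv ι) o) {D c : K}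
    (hD : Fr ι D) (hc : Fr ι c) {X W g : L} (h : St pl ι D X W)
    (hg : algebraMap K L D * X = algebraMap K L c * g ^ 2) : c = 1 ∨ c = D ∨ (D = 1 ∧ c = ι) := by
  obtain ⟨ξ, hξ⟩ := Plc.val_of_mem ((ValuationSubring.valuation_le_one_iff _ _).1 h.pt.a.le)
  have hnt := h.pt.nt hG.sq hξ
  have hinj := (algebraMap K Lv).injective
  have hmem : ∀ a : K, algebraMap K L a ∈ pl.W := fun a => pl.alg_mem a
  have hc0 : algebraMap K L c ≠ 0 := (map_ne_zero _).2 (hc.ne hG)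
  have hD0 : algebraMap K L D ≠ 0 := (map_ne_zero _).2 (hD.ne hG)
  have hg2 : g ^ 2 ∈ pl.W := by
    have e : g ^ 2 = algebraMap K L (D / c) * X := by
      rw [map_div₀, div_mul_eq_mul_div, hg, mul_div_cancel_left₀ _ hc0]
    rw [e]
    exact mul_mem (hmem _) hξ.mem
  have hW2 : W ^ 2 ∈ pl.W := by
    have e : W ^ 2 = algebraMap K L D⁻¹ * (X ^ 3 - X) := by
      rw [← h.eq, map_inv₀, inv_mul_cancel_left₀ hD0]
    rw [e]
    exact mul_mem (hmem _) (sub_mem (pow_mem hξ.mem _) hξ.mem)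
  obtain ⟨γ, hγ⟩ := Plc.val_of_mem (Plc.mem_of_pow_mem two_pos hg2)
  obtain ⟨η, hη⟩ := Plc.val_of_mem (Plc.mem_of_pow_mem two_pos hW2)
  have e1 : algebraMap K Lv D * η ^ 2 = ξ ^ 3 - ξ := by
    have h1 := (Plc.val_alg (pl := pl) D).mul (hη.pow 2)
    rw [h.eq] at h1
    exact h1.unique ((hξ.pow 3).sub hξ)
  have e2 : algebraMap K Lv c * γ ^ 2 = algebraMap K Lv D * ξ := by
    have h1 := (Plc.val_alg (pl := pl) c).mul (hγ.pow 2)
    rw [← hg] at h1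
    exact h1.unique ((Plc.val_alg D).mul hξ)
  rcases od.cls (hD.map (Lv := Lv)) (hc.map (Lv := Lv)) hnt.1 hnt.2.1 e1 e2 with h1 | h1 | ⟨h1, h2⟩
  · exact Or.inl (hinj (by rw [h1, map_one]))
  · exact Or.inr (Or.inl (hinj h1))
  · exact Or.inr (Or.inr ⟨hinj (by rw [h1, map_one]), hinj h2⟩)

/-- the values of `rho` -/
theorem rho_eq {ι' ξ ξ' : Lv} (h2 : (2 : Lv) ≠ 0) (hι : ι' ≠ 0) (hξ : ξ' ≠ 0)
    (h : ξ' ^ 2 - 1 = 2 * ι' * ξ * ξ') : rho ι' ξ' = ξ := by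
  unfold rho
  rw [div_eq_iff (mul_ne_zero (mul_ne_zero h2 hι) hξ), h]
  ring

/-- `rho` of `(z + 1) / (z - 1)` -/
theorem rho_mu {ι' z z' : Lv} (h2 : (2 : Lv) ≠ 0) (hι : ι' ^ 2 = -1) (hz : z ≠ 0) (hz1 : z - 1 ≠ 0)
    (hz2 : z + 1 ≠ 0) (h : z' * (z - 1) = z + 1) : rho ι' (rho ι' z') = rho ι' (rho ι' z) := by
  have hι0 : ι' ≠ 0 := by
    rintro rfl
    rw [zero_pow two_ne_zero] at hι
    exact neg_ne_zero.2 one_ne_zero hι.symm
  have hz' : z' = (z + 1) / (z - 1) := by rw [eq_div_iff hz1, h]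
  have hz'0 : z' ≠ 0 := by rw [hz']; exact div_ne_zero hz2 hz1
  have hw0 : rho ι' z ≠ 0 := by
    unfold rho
    refine div_ne_zero ?_ (mul_ne_zero (mul_ne_zero h2 hι0) hz)
    have : z ^ 2 - 1 = (z - 1) * (z + 1) := by ring
    rw [this]
    exact mul_ne_zero hz1 hz2
  have e1 : rho ι' z' * rho ι' z = -1 := by
    unfold rho
    rw [hz']
    field_simp
    linear_combination (4 * (z ^ 3 - z)) * hι
  have e2 : rho ι' z' = -(rho ι' z)⁻¹ := by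
    rw [eq_neg_iff_add_eq_zero]
    apply mul_right_cancel₀ hw0
    rw [add_mul, inv_mul_cancel₀ hw0, e1]
    ring
  rw [e2]
  set w := rho ι' z
  unfold rho
  field_simp
  ring

/-- the values of the coordinate of `P + T` -/
theorem rho_T {ι' ξ ξ' : Lv} (h2 : (2 : Lv) ≠ 0) (hι : ι' ^ 2 = -1) (hξ : ξ ≠ 0) (hξ' : ξ' ≠ 0)
    (h1 : ξ - 1 ≠ 0) (h1' : ξ + 1 ≠ 0) (hj : ξ - ι' ≠ 0) (hj' : ξ + ι' ≠ 0)
    (h : (ξ' ^ 2 - 1) * (ξ - ι') ^ 2 = 2 * ι' * ξ' * (ξ + ι') ^ 2) :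
    rho ι' (rho ι' (rho ι' ξ')) = rho ι' (rho ι' (rho ι' ξ)) := by
  have hι0 : ι' ≠ 0 := by
    rintro rfl
    rw [zero_pow two_ne_zero] at hι
    exact neg_ne_zero.2 one_ne_zero hι.symm
  have h2ι := mul_ne_zero h2 hι0
  have hd : 2 * ι' * ξ ≠ 0 := mul_ne_zero h2ι hξ
  have hd' : 2 * ι' * ξ' ≠ 0 := mul_ne_zero h2ι hξ'
  have e1 : rho ι' ξ - 1 = (ξ - ι') ^ 2 / (2 * ι' * ξ) := by
    unfold rho
    rw [div_sub_one hd]
    congr 1
    linear_combination -hι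
  have e2 : rho ι' ξ + 1 = (ξ + ι') ^ 2 / (2 * ι' * ξ) := by
    unfold rho
    rw [div_add_one hd]
    congr 1
    linear_combination -hι
  refine rho_mu h2 hι ?_ ?_ ?_ ?_
  · unfold rho
    refine div_ne_zero ?_ hd
    have : ξ ^ 2 - 1 = (ξ - 1) * (ξ + 1) := by ring
    rw [this]
    exact mul_ne_zero h1 h1'
  · rw [e1]
    exact div_ne_zero (pow_ne_zero _ hj) hd
  · rw [e2]
    exact div_ne_zero (pow_ne_zero _ hj') hd
  · rw [e1, e2]
    unfold rho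
    rw [div_mul_div_comm, div_eq_div_iff (mul_ne_zero hd' hd) hd]
    linear_combination (2 * ι' * ξ) * h

/-- **the step** -/
theorem St.step (hG : Gi K ι) (kum : Kum 2 K L) {pl : Plc K L Lv} (od : OD Lv (algebraMap K Lv ι) o)
    {D : K} (hD : Fr ι D) {X W : L} (h : St pl ι D X W) :
    ∃ X' W' : L, St pl ι D X' W' ∧ ∀ ξ ξ' : Lv, pl.val X ξ → pl.val X' ξ' →
      (rho (algebraMap K Lv ι))^[3] ξ = (rho (algebraMap K Lv ι))^[4] ξ' := by
  have hj : (algebraMap K L ι) ^ 2 = -1 := by rw [← map_pow, hG.sq, map_neg, map_one]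
  have hι' : (algebraMap K Lv ι) ^ 2 = -1 := by rw [← map_pow, hG.sq, map_neg, map_one]
  have hι0 := od.ι0
  have h2Lv := od.two.2
  have hD0 : algebraMap K L D ≠ 0 := (map_ne_zero _).2 (hD.ne hG)
  have h2p : pl.W.valuation 2 = 1 := by
    have h1 := triv_val (K := K) (O := pl.W) (fun c => pl.alg_mem c) (c := 2) two_ne_zero
    rwa [map_ofNat] at h1
  have ei : ∀ z : Lv, (rho (algebraMap K Lv ι))^[3] z = rho (algebraMap K Lv ι)
    (rho (algebraMap K Lv ι) (rho (algebraMap K Lv ι) z)) := fun z => rfl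
  have ei4 : ∀ z : Lv, (rho (algebraMap K Lv ι))^[4] z =
    (rho (algebraMap K Lv ι))^[3] (rho (algebraMap K Lv ι) z) := fun z => rfl
  -- the case of a square
  have main : ∀ {X₁ W₁ g₁ : L}, St pl ι D X₁ W₁ → algebraMap K L D * X₁ = g₁ ^ 2 →
      (∀ ξ ξ₁ : Lv, pl.val X ξ → pl.val X₁ ξ₁ →
        (rho (algebraMap K Lv ι))^[3] ξ₁ = (rho (algebraMap K Lv ι))^[3] ξ) →
      ∃ X' W' : L, St pl ι D X' W' ∧ ∀ ξ ξ' : Lv, pl.val X ξ → pl.val X' ξ' →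
      (rho (algebraMap K Lv ι))^[3] ξ = (rho (algebraMap K Lv ι))^[4] ξ' := by
    intro X₁ W₁ g₁ h₁ hg₁ hv
    obtain ⟨X', W', h3, h4⟩ := alg_case1 hj hD0 h₁.ne.1 h₁.eq hg₁
    have hpt := h₁.pt.case1 hj h2p h4
    refine ⟨X', W', ⟨h3, fun v hv => ?_, hpt⟩, fun ξ ξ' hξ hξ' => ?_⟩
    · obtain ⟨O, hO, hI⟩ := h₁.gs v hv
      exact ⟨O, hO, hI.case1 hj (hO.two hv) h4⟩
    · obtain ⟨ξ₁, hξ₁⟩ := Plc.val_of_mem ((ValuationSubring.valuation_le_one_iff _ _).1 h₁.pt.a.le)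
      have h5 := (hξ'.pow 2).sub Plc.val_one
      rw [h4] at h5
      have h6 : pl.val (2 : L) (2 : Lv) := by
        have := Plc.val_natCast (pl := pl) 2
        push_cast at this
        exact this
      have h7 := h5.unique (((h6.mul (Plc.val_alg ι)).mul hξ₁).mul hξ')
      rw [ei4, rho_eq h2Lv hι0 (hpt.nt hG.sq hξ').1 h7]
      exact (hv ξ ξ₁ hξ hξ₁).symm
  obtain ⟨hX0, hX1, hX2, hX3, hX4⟩ := h.ne
  obtain ⟨c, hc, g, hg0, hg⟩ := h.cls hG kum hD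
  rcases h.loc hG od hD hc hg with h1 | h1 | ⟨h1, h1'⟩
  · refine main h (g₁ := g) (by rw [hg, h1, map_one, one_mul]) fun ξ ξ₁ hξ hξ₁ => ?_
    rw [hξ.unique hξ₁]
  · -- translation by `(1, 0)`
    rw [h1] at hg
    have hg' : X = g ^ 2 := mul_left_cancel₀ hD0 hg
    obtain ⟨h3, h4⟩ := alg_caseZ hj hD0 hX0 hX1 h.eq hg'
    refine main (X₁ := (X + 1) / (X - 1)) (W₁ := 2 * W / (X - 1) ^ 2) ⟨h3, fun v hv => ?_,
      h.pt.caseZ hj h2p⟩ h4 fun ξ ξ₁ hξ hξ₁ => ?_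
    · obtain ⟨O, hO, hI⟩ := h.gs v hv
      exact ⟨O, hO, hI.caseZ hj (hO.two hv)⟩
    · have h5 := hξ₁.mul (hξ.sub Plc.val_one)
      rw [div_mul_cancel₀ _ hX1] at h5
      have h6 := h5.unique (hξ.add Plc.val_one)
      have h7 := h.pt.nt hG.sq hξ
      have h8 := val_ne h.pt.b (hξ.sub Plc.val_one)
      have h9 := val_ne h.pt.c (hξ.add Plc.val_one)
      rw [ei, ei, rho_mu h2Lv hι' h7.1 h8 h9 h6]
  · -- translation by `(ι, 1 - ι)`
    have hW : W ^ 2 = X ^ 3 - X := by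
      have := h.eq
      rwa [h1, map_one, one_mul] at this
    rw [h1, h1', map_one, one_mul] at hg
    obtain ⟨⟨W₁, h3⟩, ⟨g₁, h4⟩, h5⟩ := alg_caseT hj hX0 hX3 hW hg
    refine main (X₁ := (algebraMap K L ι * W + (1 - algebraMap K L ι) * X) ^ 2 /
      (algebraMap K L ι * X * (X - algebraMap K L ι) ^ 2)) (W₁ := W₁) (g₁ := g₁)
      ⟨by rw [h1, map_one, one_mul, h3], fun v hv => ?_, h.pt.caseT hj h2p hW⟩
      (by rw [h1, map_one, one_mul, h4]) fun ξ ξ₁ hξ hξ₁ => ?_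
    · obtain ⟨O, hO, hI⟩ := h.gs v hv
      exact ⟨O, hO, hI.caseT hj (hO.two hv) hW⟩
    · have h6 : pl.val (2 : L) (2 : Lv) := by
        have := Plc.val_natCast (pl := pl) 2
        push_cast at this
        exact this
      have h7 := ((hξ₁.pow 2).sub Plc.val_one).mul ((hξ.sub (Plc.val_alg ι)).pow 2)
      rw [h5] at h7
      have h8 := (((h6.mul (Plc.val_alg ι)).mul hξ₁).mul ((hξ.add (Plc.val_alg ι)).pow 2))
      have h9 := h7.unique h8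
      have h10 := h.pt.nt hG.sq hξ
      have h11 := (h.pt.caseT hj h2p hW).nt hG.sq hξ₁
      rw [ei, ei]
      exact rho_T h2Lv hι' h10.1 h11.1 (val_ne h.pt.b (hξ.sub Plc.val_one))
        (val_ne h.pt.c (hξ.add Plc.val_one)) (val_ne h.pt.d (hξ.sub (Plc.val_alg ι)))
        (val_ne h.pt.e (hξ.add (Plc.val_alg ι))) h9

/-- **the descent** -/
theorem desc (hG : Gi K ι) (kum : Kum 2 K L) {pl : Plc K L Lv} (od : OD Lv (algebraMap K Lv ι) o)
    {D : K} (hD : Fr ι D) {X W : L} (h : St pl ι D X W) : False := by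
  obtain ⟨ξ, hξ⟩ := Plc.val_of_mem ((ValuationSubring.valuation_le_one_iff _ _).1 h.pt.a.le)
  have chain : ∀ n : ℕ, ∃ X' W' : L, St pl ι D X' W' ∧ ∀ ξ' : Lv, pl.val X' ξ' →
      (rho (algebraMap K Lv ι))^[3] ξ = (rho (algebraMap K Lv ι))^[n + 3] ξ' := by
    intro n
    induction n with
    | zero =>
      refine ⟨X, W, h, fun ξ' hξ' => ?_⟩
      rw [hξ.unique hξ']
    | succ n ih =>
      obtain ⟨X₁, W₁, h1, h2⟩ := ih
      obtain ⟨X', W', h3, h4⟩ := h1.step hG kum od hD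
      refine ⟨X', W', h3, fun ξ' hξ' => ?_⟩
      obtain ⟨ξ₁, hξ₁⟩ := Plc.val_of_mem
        ((ValuationSubring.valuation_le_one_iff _ _).1 h1.pt.a.le)
      rw [h2 ξ₁ hξ₁, Function.iterate_add_apply, h4 ξ₁ ξ' hξ₁ hξ',
        ← Function.iterate_add_apply]
  refine od.no_chain (h.pt.nt hG.sq hξ) fun n => ?_
  obtain ⟨X', W', h1, h2⟩ := chain n
  obtain ⟨ξ', hξ'⟩ := Plc.val_of_mem ((ValuationSubring.valuation_le_one_iff _ _).1 h1.pt.a.le)
  exact ⟨ξ', h1.pt.nt hG.sq hξ', h2 ξ' hξ'⟩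

end

end Pool.Agent.K3h82.BT
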