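import Pool.Agent.K3h82.BT.Gi
import Pool.Agent.Y158.KL.Cls

/-!
# Numbers of `ℚ(i)` with even valuations
-/

set_option autoImplicit false
set_option linter.all false

open NumberField IsDedekindDomain WithZero

namespace Pool.Agent.K3h82.BT

variable {K : Type} [Field K] [NumberField K] {ι : K} (hG : Gi K ι)

theorem coe_ne {a : 𝓞 K} (ha : a ≠ 0) : (a : K) ≠ 0 :=
  (map_ne_zero_iff _ (FaithfulSMul.algebraMap_injective (𝓞 K) K)).2 ha

/-- an odd valuation becomes even after multiplication by a uniformiser -/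
theorem even_or_odd' (t : WithZero (Multiplicative ℤ)) (ht : t ≠ 0)
    (h : ¬ ∃ s, t = s ^ 2) : ∃ s, t / exp (-1 : ℤ) = s ^ 2 := by
  obtain ⟨m, rfl⟩ : ∃ m : ℤ, t = exp m := by
    obtain ⟨m, hm⟩ := Pool.Agent.Y158.KL.exists_exp ht
    exact ⟨m, hm⟩
  rcases Int.even_or_odd m with ⟨k, hk⟩ | ⟨k, hk⟩
  · exfalso
    apply h
    refine ⟨exp k, ?_⟩
    rw [hk, exp_add, sq]
  · refine ⟨exp (k + 1), ?_⟩
    rw [hk, ← exp_sub, sq, ← exp_add]
    congr 1
    ring

include hG in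
/-- a number with even valuation at all places not containing `r` is a divisor of `r` times a
square -/
theorem odd_part (c : K) (hc : c ≠ 0) (r : 𝓞 K) (hr : r ≠ 0)
    (h : ∀ v : HeightOneSpectrum (𝓞 K), r ∉ v.asIdeal → ∃ t, v.valuation K c = t ^ 2) :
    ∃ z : 𝓞 K, z ∣ r ∧ ∃ k : K, k ≠ 0 ∧ c = (z : K) * k ^ 2 := by
  classical
  haveI := pid hG
  have hgen : ∀ v : HeightOneSpectrum (𝓞 K), ∃ π : 𝓞 K, π ≠ 0 ∧ v.asIdeal = Ideal.span {π} := by
    intro v
    obtain ⟨π, hπ⟩ := (IsPrincipalIdealRing.principal v.asIdeal).principal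
    refine ⟨π, ?_, hπ⟩
    rintro rfl
    apply v.ne_bot
    rw [hπ]
    simp
  choose π hπ0 hπ using hgen
  have hself : ∀ v : HeightOneSpectrum (𝓞 K), v.intValuation (π v) = exp (-1 : ℤ) := fun v =>
    v.intValuation_singleton (hπ0 v) (hπ v)
  have hother : ∀ v v' : HeightOneSpectrum (𝓞 K), v' ≠ v → v'.intValuation (π v) = 1 := by
    intro v v' hne
    rw [HeightOneSpectrum.intValuation_eq_one_iff]
    intro hmem
    apply hne
    have h1 : v.asIdeal ≤ v'.asIdeal := by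
      rw [hπ v, Ideal.span_le, Set.singleton_subset_iff]
      exact hmem
    have h2 : v.asIdeal.IsMaximal := v.isMaximal
    exact HeightOneSpectrum.ext (h2.eq_of_le v'.isPrime.ne_top h1).symm
  have hfin : {v : HeightOneSpectrum (𝓞 K) | v.asIdeal ∣ Ideal.span {r}}.Finite :=
    Ideal.finite_factors (by
      rw [Ne, Ideal.zero_eq_bot, Ideal.span_singleton_eq_bot]
      exact hr)
  let T : Finset (HeightOneSpectrum (𝓞 K)) :=
    hfin.toFinset.filter fun v => ¬ ∃ t, v.valuation K c = t ^ 2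
  have hT : ∀ v, v ∈ T ↔ ¬ ∃ t, v.valuation K c = t ^ 2 := by
    intro v
    simp only [T, Finset.mem_filter, Set.Finite.mem_toFinset, Set.mem_setOf_eq]
    refine ⟨fun h => h.2, fun h1 => ⟨?_, h1⟩⟩
    rw [Ideal.dvd_span_singleton]
    by_contra h2
    exact h1 (h v h2)
  let z : 𝓞 K := ∏ v ∈ T, π v
  have hz0 : z ≠ 0 := Finset.prod_ne_zero_iff.2 fun v _ => hπ0 v
  have hzr : z ∣ r := by
    rw [← Ideal.mem_span_singleton, ← Ideal.dvd_span_singleton]
    have h1 : Ideal.span {z} = ∏ v ∈ T, v.asIdeal := by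
      simp only [z]
      rw [← Ideal.prod_span_singleton]
      exact Finset.prod_congr rfl fun v _ => (hπ v).symm
    rw [h1]
    have h2 : (∏ v ∈ T, v.asIdeal) = ∏ I ∈ T.image (fun v => v.asIdeal), I := by
      rw [Finset.prod_image]
      intro v _ v' _ h3
      exact HeightOneSpectrum.ext h3
    rw [h2]
    refine Finset.prod_primes_dvd _ (fun I hI => ?_) fun I hI => ?_
    · obtain ⟨v, -, rfl⟩ := Finset.mem_image.1 hI
      exact v.prime
    · obtain ⟨v, hv, rfl⟩ := Finset.mem_image.1 hI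
      simp only [T, Finset.mem_filter, Set.Finite.mem_toFinset, Set.mem_setOf_eq] at hv
      exact hv.1
  have hzK : (z : K) ≠ 0 := coe_ne hz0
  obtain ⟨u, k, hk, hu⟩ := Pool.Agent.Y158.KL.exists_unit_mul_pow (K := K) (ℓ := 2) (by norm_num)
    (cls_cop hG) (c / z) (div_ne_zero hc hzK) (by
      intro v
      by_cases hv : v ∈ T
      · have h1 : v.intValuation z = exp (-1 : ℤ) := by
          simp only [z]
          rw [map_prod, Finset.prod_eq_single_of_mem v hv (fun v' _ hne => hother v' v (Ne.symm hne)),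
            hself]
        rw [map_div₀, v.valuation_of_algebraMap, h1]
        exact even_or_odd' _ ((Valuation.ne_zero_iff _).2 hc) ((hT v).1 hv)
      · have h1 : v.intValuation z = 1 := by
          simp only [z]
          rw [map_prod]
          refine Finset.prod_eq_one fun v' hv' => hother v' v ?_
          rintro rfl
          exact hv hv'
        rw [map_div₀, v.valuation_of_algebraMap, h1, div_one]
        by_contra h2
        exact hv ((hT v).2 h2))
  refine ⟨u * z, (Units.mul_left_dvd).2 hzr, k, hk, ?_⟩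
  have h1 : c = c / z * z := by rw [div_mul_cancel₀ _ hzK]
  have h2 : ((u * z : 𝓞 K) : K) = algebraMap (𝓞 K) K u * z := map_mul (algebraMap (𝓞 K) K) _ _
  rw [h1, hu, h2]
  ring

include hG in
theorem indep {a b c d : ℚ} (h : (a : K) + b * ι = c + d * ι) : a = c ∧ b = d := by
  have hb : b = d := by
    by_contra hne
    have h1 : ((b - d : ℚ) : K) ≠ 0 := by
      rw [Ne, Rat.cast_eq_zero]
      exact sub_ne_zero.2 hne
    have h2 : ι = (((c - a) / (b - d) : ℚ) : K) := by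
      rw [Rat.cast_div, eq_div_iff h1]
      push_cast
      linear_combination h
    have h3 := hG.sq
    rw [h2] at h3
    have h4 : ((c - a) / (b - d)) ^ 2 = -1 := by exact_mod_cast h3
    have h5 := sq_nonneg ((c - a) / (b - d))
    rw [h4] at h5
    norm_num at h5
  refine ⟨?_, hb⟩
  rw [hb] at h
  exact_mod_cast add_right_cancel h

include hG in
theorem nmul {m n m' n' a b : ℤ} (h : ((m : K) + n * ι) * ((m' : K) + n' * ι) = a + b * ι) :
    (m ^ 2 + n ^ 2) * (m' ^ 2 + n' ^ 2) = a ^ 2 + b ^ 2 := by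
  have h1 : (((m * m' - n * n' : ℤ) : ℚ) : K) + ((m * n' + n * m' : ℤ) : ℚ) * ι =
      ((a : ℚ) : K) + ((b : ℚ) : K) * ι := by
    push_cast
    linear_combination h - ((n : K) * n') * hG.sq
  obtain ⟨h2, h3⟩ := indep hG h1
  have h4 : m * m' - n * n' = a := by exact_mod_cast h2
  have h5 : m * n' + n * m' = b := by exact_mod_cast h3
  rw [← h4, ← h5]
  ring

/-- `ι` as an integer -/
noncomputable def iotI : 𝓞 K := ⟨ι, iota_int hG⟩

theorem iotI_coe : ((iotI hG : 𝓞 K) : K) = ι := rfl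

/-- `1 + ι` as an integer -/
noncomputable def lamI : 𝓞 K := 1 + iotI hG

theorem lamI_coe : ((lamI hG : 𝓞 K) : K) = 1 + ι := by
  have h : ((1 + iotI hG : 𝓞 K) : K) = ((1 : 𝓞 K) : K) + ((iotI hG : 𝓞 K) : K) :=
    map_add (algebraMap (𝓞 K) K) _ _
  have h1 : ((1 : 𝓞 K) : K) = 1 := map_one (algebraMap (𝓞 K) K)
  unfold lamI
  rw [h, iotI_coe, h1]

theorem lamI_ne : lamI hG ≠ 0 := by
  intro h
  have h1 := lamI_coe hG
  have h0 : ((0 : 𝓞 K) : K) = 0 := map_zero (algebraMap (𝓞 K) K)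
  rw [h, h0] at h1
  have h2 : (((1 : ℚ) : K)) + ((1 : ℚ) : K) * ι = ((0 : ℚ) : K) + ((0 : ℚ) : K) * ι := by
    push_cast
    linear_combination -h1
  have := (indep hG h2).1
  norm_num at this

theorem lamI_sq : lamI hG ^ 2 = 2 * iotI hG := by
  apply RingOfIntegers.ext
  have h1 : ((lamI hG ^ 2 : 𝓞 K) : K) = ((lamI hG : 𝓞 K) : K) ^ 2 :=
    map_pow (algebraMap (𝓞 K) K) _ _
  have h2 : ((2 * iotI hG : 𝓞 K) : K) = ((2 : 𝓞 K) : K) * ((iotI hG : 𝓞 K) : K) :=
    map_mul (algebraMap (𝓞 K) K) _ _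
  have h3 : ((2 : 𝓞 K) : K) = 2 := map_ofNat (algebraMap (𝓞 K) K) 2
  rw [h1, h2, lamI_coe, iotI_coe, h3]
  linear_combination hG.sq

theorem lamI_mem {v : HeightOneSpectrum (𝓞 K)} (h : (2 : 𝓞 K) ∈ v.asIdeal) :
    lamI hG ∈ v.asIdeal := by
  refine v.isPrime.mem_of_pow_mem 2 ?_
  rw [lamI_sq]
  exact Ideal.mul_mem_right _ _ h

include hG in
/-- the classes of the numbers with even valuation outside `2` -/
theorem cls4 (c : K) (hc : c ≠ 0)
    (h : ∀ v : HeightOneSpectrum (𝓞 K), (2 : 𝓞 K) ∉ v.asIdeal → ∃ t, v.valuation K c = t ^ 2) :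
    ∃ k : K, k ≠ 0 ∧ (c = k ^ 2 ∨ c = ι * k ^ 2 ∨ c = (1 + ι) * k ^ 2 ∨
      c = ι * (1 + ι) * k ^ 2) := by
  obtain ⟨z, ⟨w, hw⟩, k, hk, hck⟩ := odd_part hG c hc (lamI hG) (lamI_ne hG) fun v hv =>
    h v fun h2 => hv (lamI_mem hG h2)
  obtain ⟨m, n, hz⟩ := int_form hG z
  obtain ⟨m', n', hw'⟩ := int_form hG w
  have h1 : ((m : K) + n * ι) * ((m' : K) + n' * ι) = ((1 : ℤ) : K) + ((1 : ℤ) : K) * ι := by
    have h0 : ((z * w : 𝓞 K) : K) = (z : K) * (w : K) := map_mul (algebraMap (𝓞 K) K) _ _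
    rw [← hz, ← hw', ← h0, ← hw, lamI_coe]
    push_cast
    ring
  have h2 := nmul hG h1
  have hι0 : ι ≠ 0 := by
    rintro rfl
    have := hG.sq
    norm_num at this
  have h3 : (m ^ 2 + n ^ 2) ∣ 2 := ⟨m' ^ 2 + n' ^ 2, by rw [h2]; norm_num⟩
  have h4 : m ^ 2 + n ^ 2 ≤ 2 := Int.le_of_dvd (by norm_num) h3
  have hm1 : -1 ≤ m := by nlinarith [sq_nonneg n]
  have hm2 : m ≤ 1 := by nlinarith [sq_nonneg n]
  have hn1 : -1 ≤ n := by nlinarith [sq_nonneg m]
  have hn2 : n ≤ 1 := by nlinarith [sq_nonneg m]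
  rw [hz] at hck
  have hs := hG.sq
  have hιk : ι * k ≠ 0 := mul_ne_zero hι0 hk
  interval_cases m <;> interval_cases n <;> push_cast at hck
  · refine ⟨ι * k, hιk, Or.inr (Or.inr (Or.inl ?_))⟩
    rw [hck]; linear_combination (-(1 + ι) * k ^ 2) * hs
  · refine ⟨ι * k, hιk, Or.inl ?_⟩
    rw [hck]; linear_combination (-k ^ 2) * hs
  · refine ⟨k, hk, Or.inr (Or.inr (Or.inr ?_))⟩
    rw [hck]; linear_combination (-k ^ 2) * hs
  · refine ⟨ι * k, hιk, Or.inr (Or.inl ?_)⟩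
    rw [hck]; linear_combination (-ι * k ^ 2) * hs
  · norm_num at h2
  · refine ⟨k, hk, Or.inr (Or.inl ?_)⟩
    rw [hck]; ring
  · refine ⟨ι * k, hιk, Or.inr (Or.inr (Or.inr ?_))⟩
    rw [hck]; linear_combination (-ι ^ 2 * k ^ 2 - ι * k ^ 2 + k ^ 2) * hs
  · refine ⟨k, hk, Or.inl ?_⟩
    rw [hck]; ring
  · refine ⟨k, hk, Or.inr (Or.inr (Or.inl ?_))⟩
    rw [hck]; ring

end Pool.Agent.K3h82.BT
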