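import Pool.Agent.K3h82.BT.Inv
import Pool.Agent.K3h82.BT.Cl
import Pool.Agent.Y158.KL.Core

/-!
# The descent on `D W ^ 2 = X ^ 3 - X`
-/

set_option autoImplicit false
set_option linter.all false

open NumberField IsDedekindDomain WithZero Pool.Agent.TH954 Pool.Agent.Y158.KL

namespace Pool.Agent.K3h82.BT

/-- a Gauss valuation above `v` -/
def GO {K L : Type} [Field K] [NumberField K] [Field L] [Algebra K L]
    (v : HeightOneSpectrum (𝓞 K)) (O : ValuationSubring L) : Prop :=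
  (∀ a : 𝓞 K, v.intValuation a = 1 → O.valuation (oo K L a) = 1) ∧
  ∀ (c : K) (g t : L), c ≠ 0 → g ≠ 0 → t ≠ 0 →
    O.valuation (algebraMap K L c * g ^ 2) = O.valuation t ^ 2 →
      ∃ τ : WithZero (Multiplicative ℤ), v.valuation K c = τ ^ 2

section alg

variable {L : Type} [Field L]

theorem even_div {O : ValuationSubring L} {D X W : L} (hD : O.valuation D = 1) (hX : X ≠ 0)
    (hX1 : X ^ 2 - 1 ≠ 0) (hW : D * W ^ 2 = X ^ 3 - X) :
    ∃ t : L, t ≠ 0 ∧ O.valuation (D * X) = O.valuation t ^ 2 := by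
  have hD0 : D ≠ 0 := by
    rintro rfl
    rw [map_zero] at hD
    exact zero_ne_one hD
  have hW0 : W ≠ 0 := by
    rintro rfl
    rw [zero_pow two_ne_zero, mul_zero] at hW
    exact mul_ne_zero hX hX1 (by linear_combination -hW)
  have e : O.valuation W ^ 2 = O.valuation X * O.valuation (X ^ 2 - 1) := by
    have h1 := congrArg O.valuation hW
    have h2 : X ^ 3 - X = X * (X ^ 2 - 1) := by ring
    rw [h2, map_mul, map_mul, map_pow, hD, one_mul] at h1
    exact h1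
  have hv0 : O.valuation X ≠ 0 := (Valuation.ne_zero_iff _).2 hX
  rcases lt_trichotomy (O.valuation X) 1 with h | h | h
  · refine ⟨W, hW0, ?_⟩
    have h3 : O.valuation (X ^ 2 - 1) = 1 := by
      have h4 : O.valuation (X ^ 2) < O.valuation (-1 : L) := by
        rw [map_pow, Valuation.map_neg, map_one]
        exact pow_lt_one₀ zero_le h two_ne_zero
      have h5 := Valuation.map_add_eq_of_lt_right O.valuation h4
      rw [← sub_eq_add_neg, Valuation.map_neg, map_one] at h5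
      exact h5
    rw [map_mul, hD, one_mul, e, h3, mul_one]
  · exact ⟨1, one_ne_zero, by rw [map_mul, hD, h, map_one]; simp⟩
  · refine ⟨W / X, div_ne_zero hW0 hX, ?_⟩
    have h3 : O.valuation (X ^ 2 - 1) = O.valuation X ^ 2 := by
      have h4 : O.valuation (-1 : L) < O.valuation (X ^ 2) := by
        rw [map_pow, Valuation.map_neg, map_one]
        exact one_lt_pow₀ h two_ne_zero
      have h5 := Valuation.map_add_eq_of_lt_left O.valuation h4
      rw [← sub_eq_add_neg, map_pow] at h5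
      exact h5
    rw [map_mul, hD, one_mul, map_div₀, div_pow, e, h3, eq_div_iff (pow_ne_zero _ hv0)]

variable {j : L} (hj : j ^ 2 = -1)

include hj

theorem alg_case1 {D g X W : L} (hD : D ≠ 0) (hX : X ≠ 0) (hW : D * W ^ 2 = X ^ 3 - X)
    (hg : D * X = g ^ 2) :
    ∃ X' W' : L, D * W' ^ 2 = X' ^ 3 - X' ∧ X' ^ 2 - 1 = 2 * j * X * X' := by
  have hr : (j * g * W / X) ^ 2 = 1 - X ^ 2 := by
    rw [div_pow, div_eq_iff (pow_ne_zero _ hX)]
    linear_combination (g ^ 2 * W ^ 2) * hj - X * hW + W ^ 2 * hg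
  refine ⟨j * X + j * g * W / X, (1 + j) * g * (j * X + j * g * W / X) / D, ?_, ?_⟩
  · set r := j * g * W / X with hr'
    rw [div_pow, mul_div_assoc', div_eq_iff (pow_ne_zero _ hD)]
    have h1 : (j * X + r) ^ 2 - 1 = 2 * j * X * (j * X + r) := by
      linear_combination hr - X ^ 2 * hj
    have h2 : (1 + j) ^ 2 = 2 * j := by linear_combination hj
    have h3 : (j * X + r) ^ 3 - (j * X + r) = 2 * j * X * (j * X + r) ^ 2 := by
      linear_combination (j * X + r) * h1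
    rw [h3]
    linear_combination (D * g ^ 2 * (j * X + r) ^ 2) * h2 - (2 * j * D * (j * X + r) ^ 2) * hg
  · linear_combination hr - X ^ 2 * hj

theorem alg_caseZ {D g X W : L} (hD : D ≠ 0) (hX : X ≠ 0) (hX1 : X - 1 ≠ 0)
    (hW : D * W ^ 2 = X ^ 3 - X) (hg : X = g ^ 2) :
    D * (2 * W / (X - 1) ^ 2) ^ 2 = ((X + 1) / (X - 1)) ^ 3 - (X + 1) / (X - 1) ∧
      D * ((X + 1) / (X - 1)) = (D * W / (g * (X - 1))) ^ 2 := by
  have hg0 : g ≠ 0 := by
    rintro rfl
    rw [zero_pow two_ne_zero] at hg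
    exact hX hg
  constructor
  · field_simp
    linear_combination (4 * (X - 1) ^ 0) * hW
  · have h1 : g * (X - 1) ≠ 0 := mul_ne_zero hg0 hX1
    rw [mul_div_assoc', div_pow, div_eq_div_iff hX1 (pow_ne_zero _ h1)]
    linear_combination (-(D * (X - 1))) * hW - (D * (X - 1) * (X ^ 2 - 1)) * hg

theorem alg_caseT {g X W : L} (hX : X ≠ 0) (hXj : X - j ≠ 0)
    (hW : W ^ 2 = X ^ 3 - X) (hg : X = j * g ^ 2) :
    (∃ W₁ : L, W₁ ^ 2 = ((j * W + (1 - j) * X) ^ 2 / (j * X * (X - j) ^ 2)) ^ 3 -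
      (j * W + (1 - j) * X) ^ 2 / (j * X * (X - j) ^ 2)) ∧
      (∃ h : L, (j * W + (1 - j) * X) ^ 2 / (j * X * (X - j) ^ 2) = h ^ 2) ∧
      (((j * W + (1 - j) * X) ^ 2 / (j * X * (X - j) ^ 2)) ^ 2 - 1) * (X - j) ^ 2 =
        2 * j * ((j * W + (1 - j) * X) ^ 2 / (j * X * (X - j) ^ 2)) * (X + j) ^ 2 := by
  have hj0 : j ≠ 0 := by
    rintro rfl
    rw [zero_pow two_ne_zero] at hj
    exact neg_ne_zero.2 one_ne_zero hj.symm
  have hg0 : g ≠ 0 := by
    rintro rfl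
    rw [zero_pow two_ne_zero, mul_zero] at hg
    exact hX hg
  have hden0 : j * (X - j) ^ 2 ≠ 0 := mul_ne_zero hj0 (pow_ne_zero _ hXj)
  have hden1 : j * X * (X - j) ^ 2 ≠ 0 := mul_ne_zero (mul_ne_zero hj0 hX) (pow_ne_zero _ hXj)
  obtain ⟨m, hm⟩ : ∃ m, m * (X - j) = W + (1 - j) := ⟨(W + (1 - j)) / (X - j), div_mul_cancel₀ _ hXj⟩
  obtain ⟨k, hk⟩ : ∃ k, k = W - m * X := ⟨_, rfl⟩
  have hk1 : k * (X - j) = -(j * W + (1 - j) * X) := by
    rw [hk]
    linear_combination (-X) * hm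
  have hQ : X ^ 2 + X * j + j ^ 2 - 1 - m ^ 2 * (X + j) - 2 * m * k = 0 := by
    apply mul_left_cancel₀ hXj
    rw [mul_zero, hk]
    linear_combination (-1 : L) * hW - (j - 1) * hj +
      (2 * (1 - j) + (m * (X - j) - W - (1 - j))) * hm
  have hK : k ^ 2 = j * X * (m ^ 2 - X - j) := by
    rw [hk] at hQ ⊢
    linear_combination hW + X * hQ
  have e1 : (j * W + (1 - j) * X) ^ 2 / (j * X * (X - j) ^ 2) = m ^ 2 - X - j := by
    rw [div_eq_iff hden1]
    linear_combination (j * W + (1 - j) * X - k * (X - j)) * hk1 + (X - j) ^ 2 * hK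
  have e0 : (m ^ 2 - X - j) * (j * (X - j) ^ 2) =
      (1 - X ^ 2 - 2 * j * X + 2 * (1 + j) * W) := by
    rw [← e1, ← eq_div_iff hden0, div_eq_div_iff hden1 hden0]
    linear_combination (j * (X - j) ^ 2) * ((W ^ 2 - 2 * W * X + X ^ 2) * hj - hW)
  rw [e1]
  refine ⟨⟨m * (m ^ 2 - X - j) + k, ?_⟩, ⟨j * k / g, ?_⟩, ?_⟩
  · rw [hk] at hQ ⊢
    linear_combination hW - ((m ^ 2 - X - j) - X) * hQ
  · rw [div_pow, eq_div_iff (pow_ne_zero _ hg0)]
    linear_combination (-(m ^ 2 - X - j) * g ^ 2 * (j ^ 2 - 1)) * hj -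
      (j ^ 3 * (m ^ 2 - X - j)) * hg - j ^ 2 * hK
  · set Z := m ^ 2 - X - j with hZ
    have h3 : j ^ 2 * (X - j) ^ 2 ≠ 0 := mul_ne_zero (pow_ne_zero _ hj0) (pow_ne_zero _ hXj)
    apply mul_right_cancel₀ h3
    linear_combination (Z * (j * (X - j) ^ 2) + (1 - X ^ 2 - 2 * j * X + 2 * (1 + j) * W) -
      2 * j ^ 2 * (X + j) ^ 2) * e0 + (4 * j ^ 2 + 8 * j + 4) * hW +
      (-8 * W * X * j ^ 2 - 4 * W * X ^ 2 * j - 4 * W * j ^ 3 + 8 * X * j ^ 3 +
      4 * X ^ 2 * j ^ 2 + 12 * X ^ 3 * j + X ^ 4 - j ^ 4 - 8 * W * X * j - 4 * W * X ^ 2 -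
      4 * W * j ^ 2 + 4 * X ^ 3 + 4 * W * j - 12 * X * j - 2 * X ^ 2 - j ^ 2 + 4 * W - 4 * X + 1) * hj

end alg

section val

variable {K L Lv : Type} [Field K] [NumberField K] [Field L] [Algebra K L] [Field Lv]
  [Algebra K Lv] {ι : K} {o : Lv → ℤ}

theorem val_ne {pl : Plc K L Lv} {x : L} {c : Lv} (hx : pl.W.valuation x = 1) (hc : pl.val x c) :
    c ≠ 0 := by
  have hx0 : x ≠ 0 := by
    rintro rfl
    rw [map_zero] at hx
    exact zero_ne_one hx
  have h1 : x⁻¹ ∈ pl.W := by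
    rw [← ValuationSubring.valuation_le_one_iff, map_inv₀, hx, inv_one]
  obtain ⟨d, hd⟩ := Plc.val_of_mem h1
  have h2 := hc.mul hd
  rw [mul_inv_cancel₀ hx0] at h2
  intro h3
  rw [h3, zero_mul] at h2
  exact one_ne_zero (Plc.val_one.unique h2)

theorem val_unit_of_ne {pl : Plc K L Lv} {x : L} {c : Lv} (hc : pl.val x c) (hc0 : c ≠ 0) :
    pl.W.valuation x = 1 := by
  have h1 := (hc.inv hc0).mem
  have hx0 : x ≠ 0 := by
    rintro rfl
    exact hc0 (hc.unique Plc.val_zero)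
  rw [← ValuationSubring.valuation_le_one_iff, map_inv₀] at h1
  have h2 := (ValuationSubring.valuation_le_one_iff _ _).2 hc.mem
  exact le_antisymm h2 ((inv_le_one₀ (zero_lt_iff.2 ((Valuation.ne_zero_iff _).2 hx0))).1 h1)

end val

end Pool.Agent.K3h82.BT
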