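import Pool.Agent.K3h82.BT.Glue5

/-!
# The covering fields of the genus one quotients
-/

set_option autoImplicit false
set_option linter.all false

open Polynomial FF Pool.Agent.Y157.PS

namespace Pool.Agent.K3h82.BT

open Pool.Agent.Y158.FQ (adjoin_pair_top alg_over)

/-- membership in the covering field of `κ(X, Y)` -/
def MP (κ : Type) {Ω : Type} [Field κ] [Field Ω] [Algebra κ Ω] (X Y z : Ω) : Prop :=
  z ∈ maxPro 2 κ (IntermediateField.adjoin (IntermediateField.adjoin κ {X}) {Y}) Ω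

section mp

variable {κ Ω : Type} [Field κ] [Field Ω] [Algebra κ Ω] {X Y W z : Ω}

theorem MP.self : MP κ X Y Y :=
  (maxPro 2 κ (IntermediateField.adjoin (IntermediateField.adjoin κ {X}) {Y}) Ω).algebraMap_mem
    ⟨Y, IntermediateField.mem_adjoin_simple_self _ _⟩

theorem MP.base {r : Ω} (hr : r ∈ IntermediateField.adjoin κ {X}) : MP κ X Y r :=
  (maxPro 2 κ (IntermediateField.adjoin (IntermediateField.adjoin κ {X}) {Y}) Ω).algebraMap_mem
    (algebraMap (IntermediateField.adjoin κ {X}) _ ⟨r, hr⟩)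

theorem MP.mul {z w : Ω} (hz : MP κ X Y z) (hw : MP κ X Y w) : MP κ X Y (z * w) :=
  mul_mem (S := IntermediateField _ Ω) hz hw

theorem MP.inv {z : Ω} (hz : MP κ X Y z) : MP κ X Y z⁻¹ :=
  inv_mem (S := IntermediateField _ Ω) hz

/-- change of the generators -/
theorem mp_eq {u Y' : Ω} (h1 : IntermediateField.adjoin κ {u} = IntermediateField.adjoin κ {X})
    {r : Ω} (hr : r ∈ IntermediateField.adjoin κ {X}) (hr0 : r ≠ 0) (hY : Y' = r * Y) :
    MP κ u Y' z ↔ MP κ X Y z := by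
  unfold MP
  rw [h1, hY]
  have h2 := adjoin_mul (R := IntermediateField.adjoin κ {X}) (Ω := Ω) (Y := Y) (c := ⟨r, hr⟩)
    (fun h => hr0 (congrArg Subtype.val h))
  have h3 : algebraMap (IntermediateField.adjoin κ {X}) Ω ⟨r, hr⟩ = r := rfl
  rw [h3] at h2
  rw [h2]

variable [IsAlgClosed κ] [CharZero κ] [IsAlgClosed Ω]

theorem mp_sub (hX : Transcendental κ X)
    (halg : Algebra.IsAlgebraic (IntermediateField.adjoin κ {X}) Ω) {d D : κ} (hd : d ≠ 0)
    (hD : D ≠ 0) (hY : algebraMap κ Ω d * Y ^ 2 = X ^ 5 - X)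
    (hW : algebraMap κ Ω D * W ^ 2 = X ^ 4 - 1) (hz : MP κ X W z) : MP κ X Y z := by
  haveI h2p : Fact (Nat.Prime 2) := ⟨Nat.prime_two⟩
  haveI : IsAlgClosure (IntermediateField.adjoin κ {X}) Ω := ⟨inferInstance, halg⟩
  obtain ⟨a, ha⟩ : ∃ a : κ, a = 2 := ⟨_, rfl⟩
  have ha5 : a ^ 5 - a ≠ 0 := by
    rw [ha]
    norm_num
  have ha4 : a ^ 4 - 1 ≠ 0 := by
    rw [ha]
    norm_num
  have haT5 := notMem_T5 ha5
  have haT4 : a ∉ T4 κ := by
    rw [mem_T4]
    exact fun h => ha4 (sub_eq_zero.2 h)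
  obtain ⟨R, hR⟩ : ∃ R : IntermediateField κ Ω, R = IntermediateField.adjoin κ {X} := ⟨_, rfl⟩
  have hrat := ratF_adj hX
  obtain ⟨x', hx'⟩ : ∃ x' : IntermediateField.adjoin κ {X},
    x' = ⟨X, IntermediateField.mem_adjoin_simple_self _ _⟩ := ⟨_, rfl⟩
  rw [← hx'] at hrat
  have hxa : x' - algebraMap κ _ a ≠ 0 := by
    intro h0
    apply hrat.trans
    rw [sub_eq_zero.1 h0]
    exact isAlgebraic_algebraMap a
  have hx'Ω : algebraMap (IntermediateField.adjoin κ {X}) Ω x' = X := by rw [hx']; rfl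
  have hxaΩ : X - algebraMap κ Ω a ≠ 0 := by
    have h1 := (_root_.map_ne_zero (algebraMap (IntermediateField.adjoin κ {X}) Ω)).2 hxa
    rwa [map_sub, hx'Ω, ← IsScalarTower.algebraMap_apply] at h1
  have htΩ : algebraMap (IntermediateField.adjoin κ {X}) Ω (x' - algebraMap κ _ a)⁻¹ =
      (X - algebraMap κ Ω a)⁻¹ := by
    rw [map_inv₀, map_sub, hx'Ω, ← IsScalarTower.algebraMap_apply]
  -- the constants
  have hcst : ∀ c b : κ, c ≠ 0 → b ≠ 0 → ∃ δ : κ, δ ≠ 0 ∧ δ ^ 2 * b = c := by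
    intro c b hc hb
    obtain ⟨δ, hδ⟩ := IsAlgClosed.exists_pow_nat_eq (c / b) two_pos
    refine ⟨δ, ?_, by rw [hδ, div_mul_cancel₀ _ hb]⟩
    rintro rfl
    rw [zero_pow two_ne_zero] at hδ
    exact div_ne_zero hc hb hδ.symm
  obtain ⟨δ, hδ0, hδ⟩ := hcst d (a ^ 5 - a) hd ha5
  obtain ⟨ε, hε0, hε⟩ := hcst D (a ^ 4 - 1) hD ha4
  obtain ⟨c, hc⟩ : ∃ c : IntermediateField.adjoin κ {X},
      c = algebraMap κ _ δ * (x' - algebraMap κ _ a)⁻¹ ^ 3 := ⟨_, rfl⟩
  obtain ⟨b, hb⟩ : ∃ b : IntermediateField.adjoin κ {X},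
      b = algebraMap κ _ ε * (x' - algebraMap κ _ a)⁻¹ ^ 2 := ⟨_, rfl⟩
  have hc0 : c ≠ 0 := by
    rw [hc]
    exact mul_ne_zero ((_root_.map_ne_zero _).2 hδ0) (pow_ne_zero _ (inv_ne_zero hxa))
  have hb0 : b ≠ 0 := by
    rw [hb]
    exact mul_ne_zero ((_root_.map_ne_zero _).2 hε0) (pow_ne_zero _ (inv_ne_zero hxa))
  have hadj := adjoin_mul (Ω := Ω) (Y := Y) hc0
  have hadj' := adjoin_mul (Ω := Ω) (Y := W) hb0
  have hYt : (algebraMap _ Ω c * Y) ^ 2 = ∏ e ∈ B5 a, (algebraMap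
      (IntermediateField.adjoin κ {X}) Ω
      (x' - algebraMap κ _ a)⁻¹ - algebraMap κ Ω e) := by
    rw [htΩ, prod_B5 haT5 hxaΩ, ← hY, hc, map_mul, map_pow, htΩ,
      ← IsScalarTower.algebraMap_apply]
    have h2 : algebraMap κ Ω (a ^ 5 - a) ≠ 0 := (_root_.map_ne_zero _).2 ha5
    rw [← hδ, map_mul, map_pow]
    generalize algebraMap κ Ω (a ^ 5 - a) = A at h2 ⊢
    field_simp
  have hZt : (algebraMap _ Ω b * W) ^ 2 = ∏ e ∈ shf a (T4 κ), (algebraMap
      (IntermediateField.adjoin κ {X}) Ω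
      (x' - algebraMap κ _ a)⁻¹ - algebraMap κ Ω e) := by
    rw [htΩ, prod_A4 haT4 hxaΩ, ← hW, hb, map_mul, map_pow, htΩ,
      ← IsScalarTower.algebraMap_apply]
    have h2 : algebraMap κ Ω (a ^ 4 - 1) ≠ 0 := (_root_.map_ne_zero _).2 ha4
    rw [← hε, map_mul, map_pow]
    generalize algebraMap κ Ω (a ^ 4 - 1) = A at h2 ⊢
    field_simp
  have h1 := sub_maxPro (ℓ := 2) (Ω := Ω) (ratF_inv hrat a) (A := shf a (T4 κ)) (B := B5 a) A4_sub
    (by rw [card_shf, card_T4]; norm_num) (by rw [← Finset.card_pos, card_shf, card_T4]; norm_num)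
    (by rw [card_B5 haT5]; norm_num) (by rw [card_B5 haT5]; norm_num) hZt hYt (z := z) (by
      rw [hadj']
      exact hz)
  rw [hadj] at h1
  exact h1

end mp

section gp

variable {k F Ω : Type} [Field k] [Field F] [Field Ω] [Algebra k F] [Algebra F Ω]
  [Algebra k Ω] [IsScalarTower k F Ω] [IsAlgClosed Ω]

theorem gp_iff {x y : F} {z : Ω} :
    z ∈ geomPro 2 k (IntermediateField.adjoin k {x, y}) Ω ↔
      MP (algebraicClosure k Ω) (algebraMap F Ω x) (algebraMap F Ω y) z := by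
  obtain ⟨E, hE⟩ : ∃ E : IntermediateField k F, E = IntermediateField.adjoin k {x, y} := ⟨_, rfl⟩
  have hxE : x ∈ E := by rw [hE]; exact IntermediateField.subset_adjoin k _ (by simp)
  have hyE : y ∈ E := by rw [hE]; exact IntermediateField.subset_adjoin k _ (by simp)
  have h1 := maxPro_geom (Ω := Ω) 2 k (adjoin_pair_top hE hxE hyE)
    (1 : algebraicClosure k Ω) one_ne_zero z
  have h2 : ((1 : algebraicClosure k Ω) : Ω) * algebraMap E Ω ⟨y, hyE⟩ = algebraMap F Ω y := by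
    change 1 * algebraMap F Ω y = _
    rw [one_mul]
  rw [h2] at h1
  rw [← hE, ← h1]
  rfl

end gp

end Pool.Agent.K3h82.BT
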