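import Pool.Agent.K3h82.BT.Mob
import Pool.Agent.Y158.GR.NumV

/-!
# Good reduction of `y ^ 2 = x ^ 5 - x` outside two
-/

set_option autoImplicit false
set_option linter.all false

open Polynomial FF Pool.Agent.Y157.PS IsDedekindDomain NumberField

namespace Pool.Agent.K3h82.BT

open Pool.Agent.Y158.GR

section

variable {κ : Type} [Field κ] {V : ValuationSubring κ}

theorem isU_neg {z : κ} (h : IsU V z) : IsU V (-z) :=
  ⟨neg_ne_zero.2 h.1, neg_mem h.2.1, by rw [inv_neg]; exact neg_mem h.2.2⟩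

theorem isU_inv' {z : κ} (h : IsU V z) : IsU V z⁻¹ :=
  ⟨inv_ne_zero h.1, h.2.2, by rw [inv_inv]; exact h.2.1⟩

theorem isU_of_mul {a b : κ} (ha : a ∈ V) (hb : b ∈ V) (h : IsU V (a * b)) : IsU V a := by
  have ha0 : a ≠ 0 := left_ne_zero_of_mul h.1
  have hb0 : b ≠ 0 := right_ne_zero_of_mul h.1
  refine ⟨ha0, ha, ?_⟩
  have h1 := mul_mem hb h.2.2
  have h2 : b * (a * b)⁻¹ = a⁻¹ := by field_simp
  rwa [h2] at h1

theorem mu4_unit {e : κ} (he : e ^ 4 = 1) : IsU V e :=
  Pool.Agent.Y748.PS.isU_of_pow (m := 4) (by norm_num)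
    (by rw [he]; exact Pool.Agent.Y748.PS.isU_one)

theorem mu4_diff (h2 : IsU V ((2 : ℕ) : κ)) {e e' : κ} (he : e ^ 4 = 1) (he' : e' ^ 4 = 1)
    (hne : e ≠ e') : IsU V (e - e') := by
  have hU := mu4_unit (V := V) he
  have hU' := mu4_unit (V := V) he'
  refine isU_of_not_nonunit (sub_mem hU.2.1 hU'.2.1) fun h1 => hne ?_
  have h3 : e / e' - 1 = e'⁻¹ * (e - e') := by
    have := hU'.1
    field_simp
  have h4 : IsU V ((4 : ℕ) : κ) := by
    have h5 : ((4 : ℕ) : κ) = ((2 : ℕ) : κ) * ((2 : ℕ) : κ) := by push_cast; ring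
    rw [h5]
    exact Pool.Agent.Y748.PS.isU_mul h2 h2
  have h5 := Pool.Agent.Y748.PS.rou_eq_one h4 (z := e / e') (by rw [div_pow, he, he', div_one])
    (by rw [h3]; exact Pool.Agent.Y748.PS.nu_mul hU'.2.2 h1)
  exact (div_eq_one_iff_eq hU'.1).1 h5

theorem good4 (h2 : IsU V ((2 : ℕ) : κ)) : Good V (T4 κ) := by
  refine ⟨fun e he => ?_, fun e he e' he' hne => ?_⟩
  · rw [mem_T4] at he
    exact (mu4_unit he).2.1
  · rw [mem_T4] at he he'
    exact mu4_diff h2 he he' hne

theorem T5_mem {e : κ} (he : e ∈ T5 κ) : e ∈ V := by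
  classical
  unfold T5 at he
  rw [Finset.mem_insert, mem_T4] at he
  rcases he with rfl | he
  · exact zero_mem _
  · exact (mu4_unit he).2.1

theorem T5_diff (h2 : IsU V ((2 : ℕ) : κ)) {e e' : κ} (he : e ∈ T5 κ) (he' : e' ∈ T5 κ)
    (hne : e ≠ e') : IsU V (e - e') := by
  classical
  unfold T5 at he he'
  rw [Finset.mem_insert, mem_T4] at he he'
  rcases he with rfl | he
  · rcases he' with rfl | he'
    · exact absurd rfl hne
    · rw [zero_sub]
      exact isU_neg (mu4_unit he')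
  · rcases he' with rfl | he'
    · rw [sub_zero]
      exact mu4_unit he
    · exact mu4_diff h2 he he' hne

theorem T5_sub {a e : κ} (haV : a ∈ V) (ha : IsU V (a ^ 5 - a)) (he : e ∈ T5 κ) :
    IsU V (e - a) := by
  have heV := T5_mem (V := V) he
  rw [mem_T5] at he
  have h1 : (a - e) * (a ^ 4 + a ^ 3 * e + a ^ 2 * e ^ 2 + a * e ^ 3 + e ^ 4 - 1) = a ^ 5 - a := by
    linear_combination -he
  have h3 : IsU V (a - e) := isU_of_mul (sub_mem haV heV) (sub_mem (add_mem (add_mem (add_mem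
    (add_mem (pow_mem haV _) (mul_mem (pow_mem haV _) heV)) (mul_mem (pow_mem haV _)
    (pow_mem heV _))) (mul_mem haV (pow_mem heV _))) (pow_mem heV _)) (one_mem _))
    (by rw [h1]; exact ha)
  have h4 : e - a = -(a - e) := by ring
  rw [h4]
  exact isU_neg h3

theorem good5 (h2 : IsU V ((2 : ℕ) : κ)) {a : κ} (haV : a ∈ V) (ha : IsU V (a ^ 5 - a)) :
    Good V (B5 a) := by
  classical
  have key : ∀ b ∈ B5 a, b = 0 ∨ ∃ e ∈ T5 κ, b = (e - a)⁻¹ := by
    intro b hb
    unfold B5 shf at hb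
    rw [Finset.mem_insert, Finset.mem_image] at hb
    rcases hb with hb | ⟨e, he, hb⟩
    · exact Or.inl hb
    · exact Or.inr ⟨e, he, hb.symm⟩
  refine ⟨fun b hb => ?_, fun b hb b' hb' hne => ?_⟩
  · rcases key b hb with rfl | ⟨e, he, rfl⟩
    · exact zero_mem _
    · exact (T5_sub haV ha he).2.2
  · rcases key b hb with rfl | ⟨e, he, rfl⟩
    · rcases key b' hb' with rfl | ⟨e', he', rfl⟩
      · exact absurd rfl hne
      · rw [zero_sub]
        exact isU_neg (isU_inv' (T5_sub haV ha he'))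
    · have hU := T5_sub haV ha he
      rcases key b' hb' with rfl | ⟨e', he', rfl⟩
      · rw [sub_zero]
        exact isU_inv' hU
      · have hU' := T5_sub haV ha he'
        have hee : e' ≠ e := by
          rintro rfl
          exact hne rfl
        have h3 : (e - a)⁻¹ - (e' - a)⁻¹ = (e' - e) * ((e - a)⁻¹ * (e' - a)⁻¹) := by
          have h4 := hU.1
          have h5 := hU'.1
          field_simp
          ring
        rw [h3]
        exact Pool.Agent.Y748.PS.isU_mul (T5_diff h2 he' he hee)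
          (Pool.Agent.Y748.PS.isU_mul (isU_inv' hU) (isU_inv' hU'))

/-- differences with constants are units for the Gauss valuation -/
theorem gauss_sub {M : Type} [Field M] [Algebra κ M] {X : M} {O : ValuationSubring M}
    (hO : Gauss V X O) {c : κ} (hc : c ∈ V) : IsU O (X - algebraMap κ M c) := by
  have h1 : X - algebraMap κ M c = aeval X (Polynomial.X - C c : κ[X]) := by
    rw [map_sub, aeval_X, aeval_C]
  rw [h1]
  refine hO.2 _ (fun n => ?_) ⟨1, ?_⟩
  · rw [coeff_sub, coeff_X, coeff_C]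
    refine sub_mem ?_ ?_
    · split_ifs
      · exact one_mem _
      · exact zero_mem _
    · split_ifs
      · exact hc
      · exact zero_mem _
  · rw [coeff_sub, coeff_X_one, coeff_C, if_neg one_ne_zero, sub_zero]
    exact Pool.Agent.Y748.PS.isU_one

end

section

variable {K κ : Type} [Field K] [NumberField K] [Field κ] [Algebra K κ]

theorem two_unit {v : HeightOneSpectrum (𝓞 K)} {V : ValuationSubring κ} (hV : Above v V)
    (h2 : (2 : 𝓞 K) ∉ v.asIdeal) : IsU V ((2 : ℕ) : κ) := by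
  rw [← map_natCast (algebraMap K κ), hV.isU]
  have h3 : ((2 : ℕ) : K) = algebraMap (𝓞 K) K 2 := by
    rw [map_ofNat]
    rfl
  rw [h3, v.valuation_of_algebraMap, v.intValuation_eq_one_iff]
  exact h2

end

end Pool.Agent.K3h82.BT
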