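import Pool.Agent.Y158.GR.KumD
import Pool.Agent.K3h82.BT.Chain

/-!
# The fixed field of a section: Kummer theory and the Gauss valuations, exponent two
-/

set_option autoImplicit false
set_option linter.all false

open Polynomial FF Pool.Agent.Y157.PS IsDedekindDomain NumberField

namespace Pool.Agent.K3h82.BT

open Pool.Agent.Y158.GR

variable {K κ : Type} [Field K] [NumberField K] [Field κ] [Algebra K κ] [IsAlgClosure K κ]
  {R M : Type} [Field R] [Field M] [Algebra κ R] [Algebra R M] [Algebra κ M]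
  [IsScalarTower κ R M] {x : R} {B : Finset κ} {Y : M}
  {s : (κ ≃ₐ[K] κ) →* RingAut M} {L : Type} [Field L] [Algebra K L] {φ : L →+* M}

theorem mu2 (σ : κ ≃ₐ[K] κ) (c : κ) (hc : c ^ 2 = 1) : σ c = c := by
  have h1 : (c - 1) * (c + 1) = 0 := by linear_combination hc
  rcases mul_eq_zero.1 h1 with h | h
  · rw [sub_eq_zero.1 h, map_one]
  · rw [eq_neg_of_add_eq_zero_left h, map_neg, map_one]

/-- Kummer theory for the fixed field -/
theorem kum2 (hC : Cov 2 κ R M x B Y) (hs : Act K κ R M x s) (hφ : Fx (κ := κ) s φ) :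
    Pool.Agent.Y158.KL.Kum 2 K L := by
  intro w hw hloc
  have hμ : ∀ (σ : κ ≃ₐ[K] κ) (c : κ), c ^ 2 = 1 → σ c = c := mu2
  have : Algebra.IsAlgebraic K κ := IsAlgClosure.isAlgebraic
  have : IsAlgClosed κ := IsAlgClosure.isAlgClosed K
  have : Normal K κ := IsAlgClosure.normal K κ
  have : IsGalois K κ := IsGalois.mk
  have : CharZero κ := charZero_of_injective_algebraMap (algebraMap K κ).injective
  have hℓ0 : (2 : ℕ) ≠ 0 := two_ne_zero
  have hφw : φ w ≠ 0 := (map_ne_zero_iff _ φ.injective).2 hw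
  obtain ⟨h, hh⟩ := hC.root (φ w) hφw (fun W => by
    obtain ⟨t, ht, hwt⟩ := hloc (W.O.comap φ) (fun c => by
      rw [ValuationSubring.mem_comap, hφ.const, Place.mem_O]
      exact W.reg_const _)
    have h1 := ord_of_isU W (isU_of_val φ W.O ht hwt)
    have hφt : φ t ≠ 0 := (map_ne_zero_iff _ φ.injective).2 ht
    rw [map_div₀, map_pow, W.ord_div hφw (pow_ne_zero _ hφt), W.ord_pow] at h1
    exact ⟨W.ord (φ t), by linarith⟩)
  have hh0 : h ≠ 0 := by
    rintro rfl
    rw [zero_pow hℓ0] at hh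
    exact hφw hh.symm
  have h1 : ∀ σ : κ ≃ₐ[K] κ, ∃ c : κ, c ^ 2 = 1 ∧ s σ h = algebraMap κ M c * h := by
    intro σ
    have h2 : (s σ h / h) ^ 2 = 1 := by
      rw [div_pow, ← map_pow, hh, hφ.fix, div_self hφw]
    obtain ⟨c, hc, hc'⟩ := Pool.Agent.Y748.PS.rou_const (κ := κ) two_pos h2
    exact ⟨c, hc, by rw [hc', div_mul_cancel₀ _ hh0]⟩
  choose χ hχ1 hχ2 using h1
  obtain ⟨E, hE, hE'⟩ := hs.cont h
  obtain ⟨c, hc, hcχ⟩ := Pool.Agent.Y655.PS.resolvent (⊤ : Subgroup (κ ≃ₐ[K] κ)) χ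
    (fun σ _ h => by
      have := hχ1 σ
      rw [h, zero_pow hℓ0] at this
      exact zero_ne_one this)
    (fun σ _ σ' _ => by
      have e1 : s (σ * σ') h = s σ (s σ' h) := by rw [map_mul]; rfl
      rw [hχ2, hχ2 σ', map_mul, hs.const, hμ σ _ (hχ1 σ'), hχ2 σ, ← mul_assoc, ← map_mul] at e1
      rw [(algebraMap κ M).injective (mul_right_cancel₀ hh0 e1), mul_comm])
    (fun σ _ σ' _ => hμ σ _ (hχ1 σ')) E (fun σ hσ _ => by
      have h3 := hE' σ hσ
      rw [hχ2] at h3
      have h4 : algebraMap κ M (χ σ) * h = algebraMap κ M 1 * h := by rw [h3, map_one, one_mul]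
      exact (algebraMap κ M).injective (mul_right_cancel₀ hh0 h4))
  have hcM : algebraMap κ M c ≠ 0 := (map_ne_zero_iff _ (algebraMap κ M).injective).2 hc
  obtain ⟨g, hg⟩ := hφ.surj (h / algebraMap κ M c) (fun σ => by
    have hχ0 : algebraMap κ M (χ σ) ≠ 0 := by
      refine (map_ne_zero_iff _ (algebraMap κ M).injective).2 fun h3 => ?_
      have := hχ1 σ
      rw [h3, zero_pow hℓ0] at this
      exact zero_ne_one this
    rw [map_div₀, hs.const, hcχ σ trivial, hχ2, map_mul, mul_div_mul_left _ _ hχ0])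
  obtain ⟨a, ha⟩ : ∃ a : K, algebraMap K κ a = c ^ 2 := by
    have h1 : c ^ 2 ∈ (⊥ : IntermediateField K κ) := by
      rw [InfiniteGalois.mem_bot_iff_fixed]
      intro σ
      rw [map_pow, hcχ σ trivial, mul_pow, hχ1, one_mul]
    exact IntermediateField.mem_bot.1 h1
  refine ⟨a, ?_, g, ?_⟩
  · rintro rfl
    rw [map_zero] at ha
    exact pow_ne_zero 2 hc ha.symm
  · apply φ.injective
    rw [map_mul, map_pow, hφ.const, ha, hg, map_pow, ← mul_pow, mul_div_cancel₀ _ hcM, hh]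

/-- the square root of a number with even valuation is fixed by inertia -/
theorem sqrt_ine {v : HeightOneSpectrum (𝓞 K)} {V : ValuationSubring κ} (hV : Above v V)
    (h2 : (2 : 𝓞 K) ∉ v.asIdeal) {d : K} (hd : d ≠ 0)
    (hev : ∃ t : WithZero (Multiplicative ℤ), v.valuation K d = t ^ 2) {u δ : κ} (hu : IsU V u)
    (hδ : δ ^ 2 = algebraMap K κ d * u) {σ : κ ≃ₐ[K] κ} (hσ : Ine V σ) (hσu : σ u = u) :
    σ δ = δ := by
  have hch : CharZero κ := charZero_of_injective_algebraMap (algebraMap K κ).injective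
  -- an element of `K` with the right valuation
  obtain ⟨t, ht⟩ := hev
  have ht0 : t ≠ 0 := by
    rintro rfl
    rw [zero_pow two_ne_zero] at ht
    exact (Valuation.ne_zero_iff _).2 hd ht
  obtain ⟨c, hc⟩ : ∃ c : K, v.valuation K c = t := v.valuation_surjective K t
  have hc0 : c ≠ 0 := by
    rintro rfl
    rw [map_zero] at hc
    exact ht0 hc.symm
  have hcκ : algebraMap K κ c ≠ 0 := (_root_.map_ne_zero _).2 hc0
  have hdκ : algebraMap K κ d ≠ 0 := (_root_.map_ne_zero _).2 hd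
  have hδ0 : δ ≠ 0 := by
    rintro rfl
    rw [zero_pow two_ne_zero] at hδ
    exact mul_ne_zero hdκ hu.1 hδ.symm
  have hU1 : IsU V (algebraMap K κ (d / c ^ 2)) := by
    rw [hV.isU, map_div₀, map_pow, hc, ht, div_self (pow_ne_zero _ ht0)]
  have hU2 : IsU V (δ / algebraMap K κ c) := by
    refine Pool.Agent.Y748.PS.isU_of_pow two_pos ?_
    have : (δ / algebraMap K κ c) ^ 2 = algebraMap K κ (d / c ^ 2) * u := by
      rw [div_pow, hδ, map_div₀, map_pow]
      ring
    rw [this]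
    exact Pool.Agent.Y748.PS.isU_mul hU1 hu
  have hl : IsU V ((2 : ℕ) : κ) := by
    rw [← map_natCast (algebraMap K κ), hV.isU]
    have h3 : ((2 : ℕ) : K) = algebraMap (𝓞 K) K 2 := by
      rw [map_ofNat]
      rfl
    rw [h3, v.valuation_of_algebraMap, v.intValuation_eq_one_iff]
    exact h2
  have h3 := hσ.2 _ hU2.2.1
  have h4 : (σ δ / δ) ^ 2 = 1 := by
    rw [div_pow, ← map_pow, hδ, map_mul, hσu, σ.commutes, div_self (mul_ne_zero hdκ hu.1)]
  have h5 : σ (δ / algebraMap K κ c) - δ / algebraMap K κ c =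
      (δ / algebraMap K κ c) * (σ δ / δ - 1) := by
    rw [map_div₀, σ.commutes]
    field_simp
  rw [h5] at h3
  have h6 := Pool.Agent.Y748.PS.rou_eq_one hl h4 (non_of_isU_mul hU2 h3)
  exact (div_eq_one_iff_eq hδ0).1 h6

/-- the Gauss valuations -/
theorem go_of {v : HeightOneSpectrum (𝓞 K)} {V : ValuationSubring κ} (hV : Above v V)
    (h2 : (2 : 𝓞 K) ∉ v.asIdeal) (hC : Cov 2 κ R M x B Y) (hGood : Good V B) {δ : κ} (hδ0 : δ ≠ 0)
    (hδ : ∀ σ : κ ≃ₐ[K] κ, Ine V σ → σ δ = δ)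
    (hs : Sec K κ R M x Y δ s) (hφ : Fx (κ := κ) s φ) :
    ∃ O : ValuationSubring M, Gauss V (algebraMap R M x) O ∧ GO v (O.comap φ) := by
  haveI h2p : Fact (Nat.Prime 2) := ⟨Nat.prime_two⟩
  have : Algebra.IsAlgebraic K κ := IsAlgClosure.isAlgebraic
  have : IsAlgClosed κ := IsAlgClosure.isAlgClosed K
  have : CharZero κ := charZero_of_injective_algebraMap (algebraMap K κ).injective
  have hℓv : ((2 : ℕ) : 𝓞 K) ∉ v.asIdeal := by exact_mod_cast h2
  obtain ⟨hl, -, O, hO, hu, hI⟩ := hV.wgt hℓv hC hGood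
  have hI' := hI δ hδ0 hδ s hs
  refine ⟨O, hO, fun a ha => ?_, fun c g t hc hg ht hval => ?_⟩
  · rw [isU_comap, Pool.Agent.Y158.KL.oo_apply, hφ.const, hO.isU, hV.isU,
      v.valuation_of_algebraMap, ha]
  · obtain ⟨α, hα⟩ := IsAlgClosed.exists_pow_nat_eq (algebraMap K κ c) two_pos
    have hcκ : algebraMap K κ c ≠ 0 := (_root_.map_ne_zero _).2 hc
    have hα0 : α ≠ 0 := by
      rintro rfl
      rw [zero_pow two_ne_zero] at hα
      exact hcκ hα.symm
    have hαM : algebraMap κ M α ≠ 0 := (map_ne_zero_iff _ (algebraMap κ M).injective).2 hα0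
    have hU : IsU O (algebraMap κ M α * φ (g / t)) := by
      refine Pool.Agent.Y748.PS.isU_of_pow two_pos ?_
      have h1 := isU_of_val φ O ht hval
      have h2 : (algebraMap κ M α * φ (g / t)) ^ 2 = φ (algebraMap K L c * g ^ 2 / t ^ 2) := by
        rw [mul_pow, ← map_pow, hα, ← hφ.const, ← map_pow, ← map_mul, div_pow, mul_div_assoc]
      rw [h2]
      exact h1
    have hfix : ∀ σ : κ ≃ₐ[K] κ, Ine V σ → σ α = α := by
      intro σ hσ
      have h1 := hI' σ hσ _ hU.2.1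
      have h2 : s σ (algebraMap κ M α * φ (g / t)) - algebraMap κ M α * φ (g / t) =
          (algebraMap κ M α * φ (g / t)) * algebraMap κ M (σ α / α - 1) := by
        rw [map_mul, hs.const, hφ.fix, map_sub (algebraMap κ M), map_div₀ (algebraMap κ M), map_one]
        field_simp
      rw [h2] at h1
      have h3 := non_of_isU_mul hU h1
      rw [hO.nonunit] at h3
      have h4 : (σ α / α) ^ 2 = 1 := by
        rw [div_pow, ← map_pow, hα, σ.commutes, div_self hcκ]
      have h5 := Pool.Agent.Y748.PS.rou_eq_one hl h4 h3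
      exact (div_eq_one_iff_eq hα0).1 h5
    obtain ⟨t', ht'⟩ := hV.pow hℓv hα0 hfix hα.symm
    exact ⟨_, ht'⟩

end Pool.Agent.K3h82.BT
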