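import Pool.Agent.K3h82.BT.Res
import Pool.Agent.K3h82.BT.KumG
import Pool.Agent.K3h82.BT.Good
import Pool.Agent.Y158.FQ.Eqv3

/-!
# Sections for the curve `D w ^ 2 = x ^ 4 - 1`
-/

set_option autoImplicit false
set_option linter.all false

open Polynomial FF Pool.Agent.Y157.PS Pool.Agent.TH954 IsDedekindDomain NumberField

namespace Pool.Agent.K3h82.BT

open Pool.Agent.Y158.GR
open Pool.Agent.Y158.FQ (adjoin_pair_top)

section inv

variable {L : Type} [Field L] {O : ValuationSubring L} {j : L}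

/-- the Möbius transformation `i (x + 1) / (x - 1)` -/
theorem Inv.mob (hj : j ^ 2 = -1) (h2 : O.valuation 2 = 1) {x : L} (h : Inv O j x) :
    Inv O j (j * (x + 1) / (x - 1)) := by
  have hj1 := jval hj O
  have hx1 : x - 1 ≠ 0 := by
    intro h0
    have := h.b
    rw [h0, map_zero] at this
    exact zero_ne_one this
  obtain ⟨h3, h4⟩ := onej hj h2
  have h5 : O.valuation (j - 1) = 1 := by
    have : j - 1 = -(1 - j) := by ring
    rw [this, Valuation.map_neg, h4]
  have h6 : O.valuation (j + 1) = 1 := by rw [add_comm, h3]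
  refine ⟨vdiv (by rw [map_mul, hj1, h.c, one_mul]) h.b, ?_, ?_, ?_, ?_⟩
  · have : j * (x + 1) / (x - 1) - 1 = (j - 1) * (x - j) / (x - 1) := by
      rw [div_sub_one hx1]
      congr 1
      linear_combination hj
    rw [this]
    exact vdiv (by rw [map_mul, h5, h.d, one_mul]) h.b
  · have : j * (x + 1) / (x - 1) + 1 = (j + 1) * (x + j) / (x - 1) := by
      rw [div_add_one hx1]
      congr 1
      linear_combination -hj
    rw [this]
    exact vdiv (by rw [map_mul, h6, h.e, one_mul]) h.b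
  · have : j * (x + 1) / (x - 1) - j = 2 * j / (x - 1) := by
      rw [div_sub' hx1]
      congr 1
      ring
    rw [this]
    exact vdiv (by rw [map_mul, h2, hj1, one_mul]) h.b
  · have : j * (x + 1) / (x - 1) + j = 2 * j * x / (x - 1) := by
      rw [div_add' _ _ _ hx1]
      congr 1
      ring
    rw [this]
    exact vdiv (by rw [map_mul, map_mul, h2, hj1, h.a]; simp) h.b

theorem alg_mob (hj : j ^ 2 = -1) {D x w : L} (hx1 : x - 1 ≠ 0) (hw : D * w ^ 2 = x ^ 4 - 1) :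
    D * ((1 - j) * w / (x - 1) ^ 2) ^ 2 =
      (j * (x + 1) / (x - 1)) ^ 3 - j * (x + 1) / (x - 1) := by
  have h1 : (1 - j) ^ 2 = -2 * j := by linear_combination hj
  have h3 : (j * (x + 1) / (x - 1)) ^ 3 - j * (x + 1) / (x - 1) =
      -2 * j * (x ^ 4 - 1) / (x - 1) ^ 4 := by
    rw [div_pow, div_sub_div _ _ (pow_ne_zero _ hx1) hx1, div_eq_div_iff
      (mul_ne_zero (pow_ne_zero _ hx1) hx1) (pow_ne_zero _ hx1)]
    linear_combination (j * (x + 1) ^ 3 * (x - 1) ^ 5) * hj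
  rw [h3, ← hw, div_pow, mul_pow, h1, ← pow_mul]
  ring

end inv

section

variable {K : Type} [Field K] [NumberField K] {F Ω B : Type} [Field F] [Field Ω] [Field B]
  [Algebra K F] [Algebra F Ω] [Algebra K Ω] [Algebra K B] [IsScalarTower K F Ω] [IsAlgClosed Ω]
  [Algebra.IsAlgebraic F Ω] [IsAlgClosure K B]
  {C Lv : Type} [Field C] [Field Lv] [Algebra Lv C] [Algebra K C] [Algebra K Lv]
  [IsScalarTower K Lv C] [CharZero Lv] [IsAlgClosure Lv C]

/-- the fixed field of a section -/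
theorem fx_of {s : GalSection K F (geomPro 2 K F Ω) (algebraicClosure K Ω)} {M : Type} [Field M]
    [Algebra (algebraicClosure K Ω) M] (eqv : M ≃+* geomPro 2 K F Ω)
    (hc : ∀ c : algebraicClosure K Ω, ((eqv (algebraMap (algebraicClosure K Ω) M c) :
        geomPro 2 K F Ω) : Ω) = (c : Ω)) :
    Fx (κ := algebraicClosure K Ω) (conjSec eqv s.s)
      ((eqv.symm : geomPro 2 K F Ω →+* M).comp (algebraMap (fixL s) _)) := by
  have hs' : ∀ σ z, eqv (conjSec eqv s.s σ z) = s.s σ (eqv z) := fun σ z =>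
    conjSec_apply eqv s.s σ z
  have hφ : ∀ l : fixL s, eqv (((eqv.symm : geomPro 2 K F Ω →+* M).comp
    (algebraMap (fixL s) _)) l) = (l : geomPro 2 K F Ω) := fun l => eqv.apply_symm_apply _
  refine ⟨fun c => ?_, fun l σ => ?_, fun z hz => ?_⟩
  · apply eqv.injective
    apply Subtype.ext
    rw [hφ, hc]
    rfl
  · apply eqv.injective
    rw [hs', hφ]
    exact l.2 σ
  · refine ⟨⟨eqv z, fun σ => by rw [← hs', hz σ]⟩, ?_⟩
    apply eqv.injective
    rw [hφ]

variable {ι : K} {o : Lv → ℤ}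

/-- **the local point of a section of `D w ^ 2 = x ^ 4 - 1`**, for `D` without prime factors outside
two -/
theorem secE0 (hG : Gi K ι) (od : OD Lv (algebraMap K Lv ι) o) (x w : F) (hx : Transcendental K x)
    (hFx : Algebra.IsAlgebraic (IntermediateField.adjoin K {x}) F) {D : K} (hD : Fr ι D)
    (hw : algebraMap K F D * w ^ 2 = x ^ 4 - 1) (N : IntermediateField F Ω)
    (hN : ∀ z ∈ geomPro 2 K (IntermediateField.adjoin K {x, w}) Ω, z ∈ N)
    (s : GalSection K F N B) (p : Plc K N C) (hpv : s.GivenBy Lv p) :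
    p.val (algebraMap F N x)⁻¹ 0 ∨ ∃ c : C, c ^ 5 = c ∧ p.val (algebraMap F N x) c := by
  classical
  haveI h2p : Fact (Nat.Prime 2) := ⟨Nat.prime_two⟩
  have hD0 : D ≠ 0 := hD.ne hG
  obtain ⟨F₀, hF₀⟩ : ∃ F₀ : IntermediateField K F, F₀ = IntermediateField.adjoin K {x, w} :=
    ⟨_, rfl⟩
  have hxF : x ∈ F₀ := by rw [hF₀]; exact IntermediateField.subset_adjoin K _ (by simp)
  have hwF : w ∈ F₀ := by rw [hF₀]; exact IntermediateField.subset_adjoin K _ (by simp)
  rw [← hF₀] at hN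
  obtain ⟨eB, s₀, p₀, hj₀, hpv₀, -, hval, -, hFΩ⟩ := res_sec (ℓ := 2) hx hFx F₀ hxF N hN s p hpv
  have htop := adjoin_pair_top hF₀ hxF hwF
  have hx0 : Transcendental K (⟨x, hxF⟩ : F₀) := trans_sub hx hxF
  have hac : IsAlgClosure K (algebraicClosure K Ω) := inferInstance
  have hkb : IsAlgClosed (algebraicClosure K Ω) := hac.1
  have hch : CharZero (algebraicClosure K Ω) :=
    charZero_of_injective_algebraMap (algebraMap K (algebraicClosure K Ω)).injective
  have hkalg : Algebra.IsAlgebraic K (algebraicClosure K Ω) := inferInstance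
  have hnorm : Normal K (algebraicClosure K Ω) := IsAlgClosure.normal K _
  obtain ⟨δ, hδ⟩ := IsAlgClosed.exists_pow_nat_eq (algebraMap K (algebraicClosure K Ω) D) two_pos
  have hδ0 : δ ≠ 0 := by
    rintro rfl
    rw [zero_pow two_ne_zero] at hδ
    exact (_root_.map_ne_zero (algebraMap K (algebraicClosure K Ω))).2 hD0 hδ.symm
  have hw0 : algebraMap K F₀ D * (⟨w, hwF⟩ : F₀) ^ 2 = (⟨x, hxF⟩ : F₀) ^ 4 - 1 := Subtype.ext hw
  obtain ⟨R, M, i1, i2, i3, i4, i5, i6, x', Y, eqv, hC, hc, hx', hy'⟩ :=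
    glue (k := K) (F := F₀) (Ω := Ω) (ℓ := 2) (T4 (algebraicClosure K Ω)) (by rw [card_T4]; norm_num)
    (by rw [card_T4]; norm_num) δ hδ0 (⟨x, hxF⟩ : F₀) ⟨w, hwF⟩ hx0 htop (by
      have h1 := prod_T4 (κ := algebraicClosure K Ω) (algebraMap F₀ Ω ⟨x, hxF⟩)
      have h2 : (∏ e ∈ T4 (algebraicClosure K Ω), (algebraMap F₀ Ω ⟨x, hxF⟩ - (e : Ω))) =
          algebraMap F₀ Ω ⟨x, hxF⟩ ^ 4 - 1 := h1
      rw [h2, ← map_pow, ← map_one (algebraMap F₀ Ω), ← map_sub, ← hw0, map_mul, map_pow, mul_pow]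
      congr 1
      have h3 := congrArg (algebraMap (algebraicClosure K Ω) Ω) hδ
      rw [map_pow, ← IsScalarTower.algebraMap_apply] at h3
      rw [← IsScalarTower.algebraMap_apply]
      exact h3)
  have hcompat : ∀ σ (c : algebraicClosure K Ω) (z : geomPro 2 K F₀ Ω), (z : Ω) = (c : Ω) →
      (s₀.s σ z : Ω) = (σ c : Ω) := by
    intro σ c z hz
    have h1 : z = s₀.j c := Subtype.ext (hz.trans (hj₀ c).symm)
    rw [h1, s₀.sec, hj₀]
  have hSec := sec_of hδ0 hc hx' hy' s₀.s s₀.cont hcompat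
  have hFx := fx_of (s := s₀) eqv hc
  have hkum := kum2 hC (Act.of_sec hSec) hFx
  -- the elements of the fixed field
  obtain ⟨X, hX⟩ : ∃ X : fixL s₀, X = ⟨_, F_fixL s₀ ⟨x, hxF⟩⟩ := ⟨_, rfl⟩
  obtain ⟨W, hW⟩ : ∃ W : fixL s₀, W = ⟨_, F_fixL s₀ ⟨w, hwF⟩⟩ := ⟨_, rfl⟩
  obtain ⟨j, hj⟩ : ∃ j : fixL s₀, j = algebraMap K (fixL s₀) ι := ⟨_, rfl⟩
  have hj2 : j ^ 2 = -1 := by rw [hj, ← map_pow, hG.sq, map_neg, map_one]
  have hXW : algebraMap K (fixL s₀) D * W ^ 2 = X ^ 4 - 1 := by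
    apply Subtype.ext
    rw [hX, hW]
    change algebraMap K (geomPro 2 K F₀ Ω) D * (algebraMap F₀ (geomPro 2 K F₀ Ω) ⟨w, hwF⟩) ^ 2 =
      (algebraMap F₀ (geomPro 2 K F₀ Ω) ⟨x, hxF⟩) ^ 4 - 1
    rw [IsScalarTower.algebraMap_apply K F₀ (geomPro 2 K F₀ Ω), ← map_pow, ← map_mul, hw0, map_sub,
      map_pow, map_one]
  have hX1 : X - 1 ≠ 0 := by
    intro h0
    apply hx0
    have h1 : (⟨x, hxF⟩ : F₀) = 1 := by
      apply (algebraMap F₀ (geomPro 2 K F₀ Ω)).injective
      rw [map_one]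
      have h2 := congrArg Subtype.val (sub_eq_zero.1 h0)
      rw [hX] at h2
      exact h2
    rw [h1]
    exact isAlgebraic_one
  by_contra hcon
  push Not at hcon
  obtain ⟨hcon1, hcon2⟩ := hcon
  -- the place
  have hXN : (((X : geomPro 2 K F₀ Ω)) : Ω) = ((algebraMap F N x : N) : Ω) := by rw [hX]; rfl
  have hptX : Inv (plcL hpv₀).W j X := by
    have hXW : X ∈ (plcL hpv₀).W := by
      by_contra hno
      have h1 := plcL_val (Plc.val_inv_of_notMem hno)
      rw [map_zero] at h1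
      apply hcon1
      refine (hval (algebraMap F N x)⁻¹ ((X⁻¹ : fixL s₀) : geomPro 2 K F₀ Ω) 0 ?_).1 h1
      change ((X : geomPro 2 K F₀ Ω) : Ω)⁻¹ = ((algebraMap F N x : N) : Ω)⁻¹
      rw [hXN]
    obtain ⟨ξ, hξ⟩ := Plc.val_of_mem hXW
    have h1 := plcL_val hξ
    rw [hval (algebraMap F N x) _ _ hXN] at h1
    have h2 : ξ ^ 5 ≠ ξ := by
      intro h2
      exact hcon2 (algebraMap Lv C ξ) (by rw [← map_pow, h2]) h1
    have h3 : ξ * ((ξ - 1) * (ξ + 1) * ((ξ - algebraMap K Lv ι) * (ξ + algebraMap K Lv ι))) ≠ 0 := by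
      intro h3
      apply h2
      have hι' : (algebraMap K Lv ι) ^ 2 = -1 := by rw [← map_pow, hG.sq, map_neg, map_one]
      linear_combination h3 + (ξ ^ 3 - ξ) * hι'
    have h4 := right_ne_zero_of_mul h3
    have h5 := left_ne_zero_of_mul h4
    have h6 := right_ne_zero_of_mul h4
    refine ⟨val_unit_of_ne hξ (left_ne_zero_of_mul h3),
      val_unit_of_ne (hξ.sub Plc.val_one) (left_ne_zero_of_mul h5),
      val_unit_of_ne (hξ.add Plc.val_one) (right_ne_zero_of_mul h5),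
      val_unit_of_ne (by rw [hj]; exact hξ.sub (Plc.val_alg ι)) (left_ne_zero_of_mul h6),
      val_unit_of_ne (by rw [hj]; exact hξ.add (Plc.val_alg ι)) (right_ne_zero_of_mul h6)⟩
  -- the Gauss valuations
  have hgs : ∀ v : HeightOneSpectrum (𝓞 K), (2 : 𝓞 K) ∉ v.asIdeal →
      ∃ O : ValuationSubring (fixL s₀), GO v O ∧ Inv O j X := by
    intro v hv
    obtain ⟨V, hV⟩ := exists_above (K := K) (algebraicClosure K Ω) v
    have h2V := two_unit hV hv
    obtain ⟨Di, hDi, hDi2⟩ := hD.int hG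
    have hDv : v.valuation K D = 1 := by
      rw [← hDi, v.valuation_of_algebraMap, v.intValuation_eq_one_iff]
      intro h3
      exact hv (v.asIdeal.mem_of_dvd hDi2 h3)
    obtain ⟨O, hO, hGO⟩ := go_of hV hv hC (good4 h2V) hδ0 (fun σ hσ =>
      sqrt_ine hV hv hD0 ⟨1, by rw [hDv, one_pow]⟩ Pool.Agent.Y748.PS.isU_one
        (by rw [hδ, mul_one]) hσ (map_one σ)) hSec hFx
    refine ⟨_, hGO, ?_⟩
    -- units
    have hφX : ((eqv.symm : geomPro 2 K F₀ Ω →+* M).comp (algebraMap (fixL s₀) _)) X =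
        algebraMap R M x' := by
      apply eqv.injective
      apply Subtype.ext
      rw [hx']
      change ((eqv (eqv.symm (X : geomPro 2 K F₀ Ω)) : geomPro 2 K F₀ Ω) : Ω) = _
      rw [eqv.apply_symm_apply, hX]
      rfl
    have hφj : ((eqv.symm : geomPro 2 K F₀ Ω →+* M).comp (algebraMap (fixL s₀) _)) j =
        algebraMap (algebraicClosure K Ω) M (algebraMap K (algebraicClosure K Ω) ι) := by
      rw [hj]
      exact hFx.const ι
    have hιV : algebraMap K (algebraicClosure K Ω) ι ∈ V := by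
      refine (mu4_unit ?_).2.1
      rw [← map_pow]
      have : ι ^ 4 = 1 := by
        have h5 := hG.sq
        linear_combination (ι ^ 2 - 1) * h5
      rw [this, map_one]
    refine ⟨?_, ?_, ?_, ?_, ?_⟩
    · rw [isU_comap, hφX]
      have h5 := gauss_sub hO (zero_mem V)
      rwa [map_zero, sub_zero] at h5
    · rw [isU_comap, map_sub, hφX, map_one]
      have h5 := gauss_sub hO (one_mem V)
      rwa [map_one] at h5
    · rw [isU_comap, map_add, hφX, map_one]
      have h5 := gauss_sub hO (neg_mem (one_mem V))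
      rwa [map_neg, map_one, sub_neg_eq_add] at h5
    · rw [isU_comap, map_sub, hφX, hφj]
      exact gauss_sub hO hιV
    · rw [isU_comap, map_add, hφX, hφj]
      have h5 := gauss_sub hO (neg_mem hιV)
      rwa [map_neg, sub_neg_eq_add] at h5
  have h2p' : (plcL hpv₀).W.valuation 2 = 1 := by
    have h1 := Pool.Agent.Y158.KL.triv_val (K := K) (O := (plcL hpv₀).W)
      (fun c => (plcL hpv₀).alg_mem c) (c := 2) two_ne_zero
    rwa [map_ofNat] at h1
  rw [hj] at hptX
  have hj2' : (algebraMap K (fixL s₀) ι) ^ 2 = -1 := by rw [← hj]; exact hj2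
  refine desc hG hkum od hD (pl := plcL hpv₀)
    (X := algebraMap K (fixL s₀) ι * (X + 1) / (X - 1))
    (W := (1 - algebraMap K (fixL s₀) ι) * W / (X - 1) ^ 2) ⟨alg_mob hj2' hX1 hXW, fun v hv => ?_,
      hptX.mob hj2' h2p'⟩
  obtain ⟨O, hO, hI⟩ := hgs v hv
  rw [hj] at hI
  exact ⟨O, hO, hI.mob hj2' (hO.two hv)⟩

end

end Pool.Agent.K3h82.BT
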