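import Pool.Agent.K3h82.BT.RigM
import Pool.Agent.K3h82.BT.SecE

/-!
# The other quotients of genus one
-/

set_option autoImplicit false
set_option linter.all false

open Polynomial FF Pool.Agent.Y157.PS Pool.Agent.TH954 IsDedekindDomain NumberField

namespace Pool.Agent.K3h82.BT

open Pool.Agent.Y158.GR

section alg

variable {F : Type} [Field F] {e x y w d D : F}

theorem mob_y (he : e ^ 4 = 1) (hxe : x - e ≠ 0) (h : d * y ^ 2 = x ^ 5 - x) :
    2 * e * d * (2 * y / (x - e) ^ 3) ^ 2 = ((x + e) / (x - e)) ^ 5 - (x + e) / (x - e) := by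
  have h1 : ((x + e) / (x - e)) ^ 5 - (x + e) / (x - e) = 8 * e * (x ^ 5 - x) / (x - e) ^ 6 := by
    field_simp
    linear_combination (-8 * x * e * (x - e) ^ 0) * he
  rw [h1, ← h]
  field_simp
  ring

theorem mob_w (hxe : x - e ≠ 0) (h : D * w ^ 2 = x ^ 3 + e ^ 2 * x) :
    2 * e * D * (2 * w / (x - e) ^ 2) ^ 2 = ((x + e) / (x - e)) ^ 4 - 1 := by
  have h1 : ((x + e) / (x - e)) ^ 4 - 1 = 8 * e * (x ^ 3 + e ^ 2 * x) / (x - e) ^ 4 := by
    field_simp
    ring
  rw [h1, ← h]
  field_simp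
  ring

theorem mob_x (h2 : (2 : F) ≠ 0) (he0 : e ≠ 0) (hxe : x - e ≠ 0) :
    (x + e) / (x - e) - 1 ≠ 0 ∧ x = e * ((x + e) / (x - e) + 1) / ((x + e) / (x - e) - 1) := by
  have h1 : (x + e) / (x - e) - 1 = 2 * e / (x - e) := by
    field_simp
    ring
  have h3 : (x + e) / (x - e) - 1 ≠ 0 := by
    rw [h1]
    exact div_ne_zero (mul_ne_zero h2 he0) hxe
  refine ⟨h3, ?_⟩
  rw [h1]
  field_simp
  ring

theorem mob_c {c : F} (he : e ^ 4 = 1) (hc : c ^ 5 = c) (hc1 : c - 1 ≠ 0) :
    (e * (c + 1) / (c - 1)) ^ 5 = e * (c + 1) / (c - 1) := by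
  have h0 : c * (c + 1) * (c ^ 2 + 1) = 0 := by
    have h1 : (c - 1) * (c * (c + 1) * (c ^ 2 + 1)) = 0 := by linear_combination hc
    rcases mul_eq_zero.1 h1 with h | h
    · exact absurd h hc1
    · exact h
  field_simp
  linear_combination (e * (c + 1) ^ 5) * he + 8 * e * h0

end alg

section val

variable {K N C : Type} [Field K] [Field N] [Field C] [Algebra K N] [Algebra K C]

theorem mob_val {p : Plc K N C} {x u : N} {e : K} (he : e ^ 4 = 1) (hu0 : u ≠ 0) (hu1 : u - 1 ≠ 0)
    (h2 : (2 : C) ≠ 0) (hxu : x = algebraMap K N e * (u + 1) / (u - 1))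
    (h : p.val u⁻¹ 0 ∨ ∃ c : C, c ^ 5 = c ∧ p.val u c) :
    p.val x⁻¹ 0 ∨ ∃ c : C, c ^ 5 = c ∧ p.val x c := by
  have he0 : e ≠ 0 := by
    rintro rfl
    norm_num at he
  have heN : algebraMap K N e ≠ 0 := (_root_.map_ne_zero _).2 he0
  have heC : algebraMap K C e ≠ 0 := (_root_.map_ne_zero _).2 he0
  have heC4 : (algebraMap K C e) ^ 4 = 1 := by rw [← map_pow, he, map_one]
  rcases h with h | ⟨c, hc, h⟩
  · -- `u = ∞`
    right
    refine ⟨algebraMap K C e, by linear_combination (algebraMap K C e) * heC4, ?_⟩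
    have h1 := ((Plc.val_alg (pl := p) e).mul ((Plc.val_one (pl := p)).add h)).mul
      (((Plc.val_one (pl := p)).sub h).inv (by rw [sub_zero]; exact one_ne_zero))
    rw [add_zero, sub_zero, mul_one, inv_one, mul_one] at h1
    have h3 : x = algebraMap K N e * (1 + u⁻¹) * (1 - u⁻¹)⁻¹ := by
      rw [hxu]
      have h4 : 1 - u⁻¹ ≠ 0 := by
        intro h5
        apply hu1
        have : u⁻¹ = 1 := by linear_combination -h5
        rw [inv_eq_one] at this
        rw [this, sub_self]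
      field_simp
    rw [h3]
    exact h1
  · by_cases hc1 : c - 1 = 0
    · left
      have h1 := (h.sub (Plc.val_one (pl := p))).mul (((Plc.val_alg (pl := p) e).mul
        (h.add (Plc.val_one (pl := p)))).inv (by
          refine mul_ne_zero heC ?_
          have : c + 1 = 2 := by linear_combination hc1
          rw [this]
          exact h2))
      rw [hc1, zero_mul] at h1
      have h3 : x⁻¹ = (u - 1) * (algebraMap K N e * (u + 1))⁻¹ := by
        rw [hxu, inv_div, div_eq_mul_inv]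
      rw [h3]
      exact h1
    · right
      refine ⟨algebraMap K C e * (c + 1) / (c - 1), mob_c heC4 hc hc1, ?_⟩
      rw [hxu, div_eq_mul_inv, div_eq_mul_inv]
      exact ((Plc.val_alg (pl := p) e).mul (h.add (Plc.val_one (pl := p)))).mul
        ((h.sub (Plc.val_one (pl := p))).inv hc1)

end val

end Pool.Agent.K3h82.BT
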