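import Pool.Agent.K3h82.BT.KumG
import Pool.Agent.K3h82.BT.GSub
import Pool.Agent.K3h82.BT.KM

/-!
# Square roots along a section
-/

set_option autoImplicit false
set_option linter.all false

open Polynomial FF Pool.Agent.Y157.PS Pool.Agent.TH954 IsDedekindDomain NumberField

namespace Pool.Agent.K3h82.BT

section twist

variable {k F Ω B : Type} [Field k] [CharZero k] [Field F] [Field Ω] [Field B] [Algebra k F]
  [Algebra F Ω] [Algebra k Ω] [Algebra k B] [IsScalarTower k F Ω] [Algebra.IsAlgebraic F Ω]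
  [IsAlgClosure k B]

/-- a square root is, up to a constant, fixed by the section -/
theorem exists_twist {N : IntermediateField F Ω} (s : GalSection k F N B) {z : N} {f : F}
    (hf : f ≠ 0) (hz : z ^ 2 = algebraMap F N f) :
    ∃ (D : k) (w : N), D ≠ 0 ∧ (∀ g, s.s g w = w) ∧ algebraMap k N D * w ^ 2 = algebraMap F N f := by
  classical
  have halg : Algebra.IsAlgebraic k B := IsAlgClosure.isAlgebraic
  haveI : IsAlgClosed B := IsAlgClosure.isAlgClosed k
  haveI : CharZero B := charZero_of_injective_algebraMap (algebraMap k B).injective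
  haveI : Normal k B := IsAlgClosure.normal k B
  haveI : IsGalois k B := IsGalois.mk
  have hz0 : z ≠ 0 := by
    rintro rfl
    rw [zero_pow two_ne_zero] at hz
    exact hf ((map_eq_zero (algebraMap F N)).1 hz.symm)
  have h1 : ∀ σ : B ≃ₐ[k] B, ∃ c : B, (c = 1 ∨ c = -1) ∧ s.s σ z = s.j c * z := by
    intro σ
    have h2 : (s.s σ z - z) * (s.s σ z + z) = 0 := by
      have h3 : (s.s σ z) ^ 2 = z ^ 2 := by
        rw [← map_pow, hz, (s.s σ).commutes]
      linear_combination h3
    rcases mul_eq_zero.1 h2 with h | h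
    · exact ⟨1, Or.inl rfl, by rw [map_one, one_mul, sub_eq_zero.1 h]⟩
    · exact ⟨-1, Or.inr rfl, by rw [map_neg, map_one, neg_one_mul, eq_neg_of_add_eq_zero_left h]⟩
  choose χ hχ1 hχ2 using h1
  have hχsq : ∀ σ, χ σ ^ 2 = 1 := by
    intro σ
    rcases hχ1 σ with h | h
    · rw [h, one_pow]
    · rw [h, neg_one_sq]
  have hfix : ∀ σ σ' : B ≃ₐ[k] B, σ (χ σ') = χ σ' := by
    intro σ σ'
    rcases hχ1 σ' with h | h
    · rw [h, map_one]
    · rw [h, map_neg, map_one]
  have hinj : ∀ a b : B, s.j a * z = s.j b * z → a = b := fun a b h =>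
    s.j.injective (mul_right_cancel₀ hz0 h)
  obtain ⟨E, hE, hE'⟩ := cont_fix s.s s.cont z
  obtain ⟨c, hc, hcχ⟩ := Pool.Agent.Y655.PS.resolvent (⊤ : Subgroup (B ≃ₐ[k] B)) χ
    (fun σ _ h => by
      have := hχsq σ
      rw [h, zero_pow two_ne_zero] at this
      exact zero_ne_one this)
    (fun σ _ σ' _ => by
      apply hinj
      have e1 : s.s (σ * σ') z = s.s σ (s.s σ' z) := by rw [map_mul]; rfl
      rw [← hχ2, e1, hχ2 σ', map_mul, s.sec, hfix, hχ2 σ, map_mul]
      ring)
    (fun σ _ σ' _ => hfix σ σ') E (fun σ hσ _ => by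
      apply hinj
      rw [← hχ2, hE' σ hσ, map_one, one_mul])
  have hcN : s.j c ≠ 0 := (_root_.map_ne_zero s.j).2 hc
  obtain ⟨a, ha⟩ : ∃ a : k, algebraMap k B a = c ^ 2 := by
    have h1 : c ^ 2 ∈ (⊥ : IntermediateField k B) := by
      rw [InfiniteGalois.mem_bot_iff_fixed]
      intro σ
      rw [map_pow, hcχ σ trivial, mul_pow, hχsq, one_mul]
    exact IntermediateField.mem_bot.1 h1
  refine ⟨a, z / s.j c, ?_, fun σ => ?_, ?_⟩
  · rintro rfl
    rw [map_zero] at ha
    exact pow_ne_zero 2 hc ha.symm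
  · have hχ0 : s.j (χ σ) ≠ 0 := by
      refine (_root_.map_ne_zero s.j).2 fun h3 => ?_
      have := hχsq σ
      rw [h3, zero_pow two_ne_zero] at this
      exact zero_ne_one this
    rw [map_div₀, s.sec, hcχ σ trivial, hχ2, map_mul, mul_div_mul_left _ _ hχ0]
  · have h2 : algebraMap k N a = s.j c ^ 2 := by
      rw [← map_pow, ← ha, s.j.commutes]
    rw [h2, div_pow, hz, mul_div_cancel₀ _ (pow_ne_zero 2 hcN)]

/-- squares of fixed elements -/
theorem sq_of_fixed {N : IntermediateField F Ω} (s : GalSection k F N B) {q : N} {D : k}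
    (hq : ∀ g, s.s g q = q) (hqD : q ^ 2 = algebraMap k N D) : ∃ r : k, r ^ 2 = D := by
  have halg : Algebra.IsAlgebraic k B := IsAlgClosure.isAlgebraic
  haveI : IsAlgClosed B := IsAlgClosure.isAlgClosed k
  haveI : CharZero B := charZero_of_injective_algebraMap (algebraMap k B).injective
  haveI : Normal k B := IsAlgClosure.normal k B
  haveI : IsGalois k B := IsGalois.mk
  obtain ⟨b, hb⟩ := IsAlgClosed.exists_pow_nat_eq (algebraMap k B D) two_pos
  have h1 : ∃ b : B, b ^ 2 = algebraMap k B D ∧ s.j b = q := by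
    have h2 : (s.j b - q) * (s.j b + q) = 0 := by
      have h3 : s.j b ^ 2 = q ^ 2 := by
        rw [← map_pow, hb, s.j.commutes, hqD]
      linear_combination h3
    rcases mul_eq_zero.1 h2 with h | h
    · exact ⟨b, hb, sub_eq_zero.1 h⟩
    · exact ⟨-b, by rw [neg_sq, hb], by rw [map_neg, eq_neg_of_add_eq_zero_left h, neg_neg]⟩
  obtain ⟨b, hb, hbq⟩ := h1
  have h2 : b ∈ (⊥ : IntermediateField k B) := by
    rw [InfiniteGalois.mem_bot_iff_fixed]
    intro σ
    have h3 : s.j (σ b) = s.j b := by rw [← s.sec, hbq, hq]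
    exact s.j.injective h3
  obtain ⟨r, hr⟩ := IntermediateField.mem_bot.1 h2
  refine ⟨r, (algebraMap k B).injective ?_⟩
  rw [map_pow, hr, hb]

end twist

section mp

variable {κ Ω : Type} [Field κ] [Field Ω] [Algebra κ Ω] {X Y W : Ω}
variable [IsAlgClosed κ] [CharZero κ] [IsAlgClosed Ω]

/-- square roots of the products of four branch points -/
theorem mp_self (hX : Transcendental κ X)
    (halg : Algebra.IsAlgebraic (IntermediateField.adjoin κ {X}) Ω) {d : κ} (hd : d ≠ 0)
    (hY : algebraMap κ Ω d * Y ^ 2 = X ^ 5 - X)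
    (hW : W ^ 2 = X ^ 4 - 1) : MP κ X Y W :=
  mp_sub hX halg hd one_ne_zero hY (by rw [map_one, one_mul, hW]) MP.self

theorem adj_mobX {e : κ} (he0 : e ≠ 0) (hxe : X - algebraMap κ Ω e ≠ 0) :
    IntermediateField.adjoin κ {(X + algebraMap κ Ω e) / (X - algebraMap κ Ω e)} =
      IntermediateField.adjoin κ {X} := by
  haveI : CharZero Ω := charZero_of_injective_algebraMap (algebraMap κ Ω).injective
  have heF : algebraMap κ Ω e ≠ 0 := (_root_.map_ne_zero _).2 he0
  obtain ⟨hu1, hxu⟩ := mob_x (two_ne_zero) heF hxe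
  apply le_antisymm
  · have hx : X ∈ IntermediateField.adjoin κ {X} := IntermediateField.mem_adjoin_simple_self κ X
    have heA : algebraMap κ Ω e ∈ IntermediateField.adjoin κ {X} :=
      IntermediateField.algebraMap_mem _ e
    rw [IntermediateField.adjoin_le_iff, Set.singleton_subset_iff]
    exact div_mem (add_mem hx heA) (sub_mem hx heA)
  · obtain ⟨u, hu⟩ : ∃ u, u = (X + algebraMap κ Ω e) / (X - algebraMap κ Ω e) := ⟨_, rfl⟩
    rw [← hu] at hu1 hxu ⊢
    have huA : u ∈ IntermediateField.adjoin κ {u} := IntermediateField.mem_adjoin_simple_self κ u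
    have heA : algebraMap κ Ω e ∈ IntermediateField.adjoin κ {u} :=
      IntermediateField.algebraMap_mem _ e
    rw [IntermediateField.adjoin_le_iff, Set.singleton_subset_iff]
    have h3 := div_mem (mul_mem heA (add_mem huA (one_mem _))) (sub_mem huA (one_mem _))
    rw [← hxu] at h3
    exact h3

theorem mp_mob (hX : Transcendental κ X)
    (halg : Algebra.IsAlgebraic (IntermediateField.adjoin κ {X}) Ω) {d e : κ} (hd : d ≠ 0)
    (he : e ^ 4 = 1) (hY : algebraMap κ Ω d * Y ^ 2 = X ^ 5 - X)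
    (hW : W ^ 2 = X ^ 3 + (algebraMap κ Ω e) ^ 2 * X) : MP κ X Y W := by
  haveI : CharZero Ω := charZero_of_injective_algebraMap (algebraMap κ Ω).injective
  have he0 : e ≠ 0 := by
    rintro rfl
    norm_num at he
  have heF : algebraMap κ Ω e ≠ 0 := (_root_.map_ne_zero _).2 he0
  have heF4 : (algebraMap κ Ω e) ^ 4 = 1 := by rw [← map_pow, he, map_one]
  have hxe : X - algebraMap κ Ω e ≠ 0 := by
    intro h0
    apply hX
    rw [sub_eq_zero.1 h0]
    exact isAlgebraic_algebraMap _
  obtain ⟨hu1, hxu⟩ := mob_x two_ne_zero heF hxe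
  have hadj := adj_mobX he0 hxe
  have hy' := mob_y heF4 hxe hY
  have hw' := mob_w (D := 1) (w := W) hxe (by rw [one_mul, hW])
  have hut : Transcendental κ ((X + algebraMap κ Ω e) / (X - algebraMap κ Ω e)) := by
    intro h
    apply hX
    rw [hxu, div_eq_mul_inv]
    have h1 : IsAlgebraic κ (1 : Ω) := isAlgebraic_one
    exact ((isAlgebraic_algebraMap e).mul (h.add h1)).mul ((h.sub h1).inv)
  have hxA : X ∈ IntermediateField.adjoin κ {X} := IntermediateField.mem_adjoin_simple_self κ X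
  have heA : algebraMap κ Ω e ∈ IntermediateField.adjoin κ {X} :=
    IntermediateField.algebraMap_mem _ e
  have h2A : (2 : Ω) ∈ IntermediateField.adjoin κ {X} := by
    have h := IntermediateField.algebraMap_mem (IntermediateField.adjoin κ {X}) (2 : κ)
    rwa [map_ofNat] at h
  have h1 : MP κ ((X + algebraMap κ Ω e) / (X - algebraMap κ Ω e))
      (2 * Y / (X - algebraMap κ Ω e) ^ 3) (2 * W / (X - algebraMap κ Ω e) ^ 2) := by
    refine mp_sub hut (by rw [hadj]; exact halg) (d := 2 * e * d) (D := 2 * e)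
      (mul_ne_zero (mul_ne_zero two_ne_zero he0) hd) (mul_ne_zero two_ne_zero he0)
      (by rw [← hy', map_mul, map_mul, map_ofNat]) (by
        rw [← hw', map_mul, map_ofNat, mul_one]) MP.self
  have h3 : MP κ X Y (2 * W / (X - algebraMap κ Ω e) ^ 2) := by
    refine (mp_eq (r := 2 / (X - algebraMap κ Ω e) ^ 3) hadj
      (div_mem h2A (pow_mem (sub_mem hxA heA) 3))
      (div_ne_zero two_ne_zero (pow_ne_zero _ hxe)) ?_).1 h1
    ring
  have h4 : W = (2 * W / (X - algebraMap κ Ω e) ^ 2) * ((X - algebraMap κ Ω e) ^ 2 / 2) := by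
    field_simp
  rw [h4]
  exact h3.mul (MP.base (div_mem (pow_mem (sub_mem hxA heA) 2) h2A))

end mp

end Pool.Agent.K3h82.BT
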