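import Pool.Agent.K3h82.BT.BK
import Pool.Agent.K3h82.BT.Arith
import Pool.Agent.K3h82.BT.Twist

/-!
# Sections over `ℚ` for the curves `d y ^ 2 = x ^ 5 - x`
-/

set_option autoImplicit false
set_option linter.all false

open Polynomial FF Pool.Agent.Y157.PS Pool.Agent.TH954 IsDedekindDomain NumberField

namespace Pool.Agent.K3h82.BT

open Pool.Agent.Y158.GR (DecL exists_decL given_mem fixL fixL_val F_fixL)
open Pool.Agent.Y158.FQ (given_up)

section q2i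

variable {C : Type} [Field C] [Algebra ℚ_[2] C]

/-- the field `ℚ_2(I)` -/
noncomputable def gaussF (I : C) (hI : I ^ 2 = -1) : IntermediateField ℚ_[2] C where
  carrier := {z | ∃ a b : ℚ_[2], z = algebraMap ℚ_[2] C a + algebraMap ℚ_[2] C b * I}
  mul_mem' := by
    rintro _ _ ⟨a, b, rfl⟩ ⟨c, d, rfl⟩
    refine ⟨a * c - b * d, a * d + b * c, ?_⟩
    simp only [map_add, map_sub, map_mul]
    linear_combination (algebraMap ℚ_[2] C b * algebraMap ℚ_[2] C d) * hI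
  one_mem' := ⟨1, 0, by rw [map_one, map_zero]; ring⟩
  add_mem' := by
    rintro _ _ ⟨a, b, rfl⟩ ⟨c, d, rfl⟩
    exact ⟨a + c, b + d, by simp only [map_add]; ring⟩
  zero_mem' := ⟨0, 0, by rw [map_zero]; ring⟩
  algebraMap_mem' := fun a => ⟨a, 0, by rw [map_zero]; ring⟩
  inv_mem' := by
    rintro _ ⟨a, b, rfl⟩
    by_cases h0 : a ^ 2 + b ^ 2 = 0
    · obtain ⟨ha, hb⟩ := nrm_zero h0
      rw [ha, hb]
      exact ⟨0, 0, by rw [map_zero]; ring⟩
    · refine ⟨a / (a ^ 2 + b ^ 2), -b / (a ^ 2 + b ^ 2), ?_⟩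
      have h1 : algebraMap ℚ_[2] C (a ^ 2 + b ^ 2) ≠ 0 := (_root_.map_ne_zero _).2 h0
      apply inv_eq_of_mul_eq_one_right
      rw [map_div₀, map_div₀, map_neg, div_mul_eq_mul_div, ← add_div, mul_div_assoc',
        div_eq_one_iff_eq h1, map_add, map_pow, map_pow]
      linear_combination (-(algebraMap ℚ_[2] C b) ^ 2) * hI

theorem gaussF_q2i {I : C} (hI : I ^ 2 = -1) (hm : I ∈ gaussF I hI) :
    Q2i (gaussF I hI) ⟨I, hm⟩ := by
  refine ⟨Subtype.ext hI, ?_⟩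
  rintro ⟨z, a, b, hz⟩
  exact ⟨a, b, Subtype.ext hz⟩

theorem gaussF_mem {I : C} (hI : I ^ 2 = -1) : I ∈ gaussF I hI :=
  ⟨0, 1, by rw [map_zero, map_one]; ring⟩

/-- the automorphism of `ℚ_2(I)` -/
theorem exists_conj [IsAlgClosure ℚ_[2] C] {I : C} (hI : I ^ 2 = -1) :
    ∃ τ : C ≃ₐ[ℚ_[2]] C, τ I = -I := by
  have : Algebra.IsAlgebraic ℚ_[2] C := IsAlgClosure.isAlgebraic
  have : IsAlgClosed C := IsAlgClosure.isAlgClosed ℚ_[2]
  have : Normal ℚ_[2] C := IsAlgClosure.normal ℚ_[2] C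
  have : IsGalois ℚ_[2] C := ⟨⟩
  by_contra hcon
  push Not at hcon
  have h1 : I ∈ (⊥ : IntermediateField ℚ_[2] C) := by
    rw [InfiniteGalois.mem_bot_iff_fixed]
    intro τ
    have h2 : (τ I - I) * (τ I + I) = 0 := by
      have h3 : (τ I) ^ 2 = -1 := by rw [← map_pow, hI, map_neg, map_one]
      linear_combination h3 - hI
    rcases mul_eq_zero.1 h2 with h | h
    · exact sub_eq_zero.1 h
    · exact absurd (eq_neg_of_add_eq_zero_left h) (hcon τ)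
  obtain ⟨r, hr⟩ := IntermediateField.mem_bot.1 h1
  apply sq_ne (r := r)
  apply (algebraMap ℚ_[2] C).injective
  rw [map_pow, hr, hI, map_neg, map_one]

end q2i

section roots

attribute [-instance] DivisionRing.toRatAlgebra
attribute [local instance 1] DivisionRing.toRatAlgebra

variable {F Ω B : Type} [Field F] [Field Ω] [Field B] [Algebra ℚ F] [Algebra F Ω]
  [Algebra ℚ Ω] [Algebra ℚ B] [IsScalarTower ℚ F Ω] [IsAlgClosed Ω] [Algebra.IsAlgebraic F Ω]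
  [IsAlgClosure ℚ B]

/-- the square roots which are in the covering field -/
theorem exists_roots (x : F) (hx : Transcendental ℚ x)
    (hF : Algebra.IsAlgebraic (IntermediateField.adjoin ℚ {x}) F) {Y : Ω} {d : ℚ} (hd : d ≠ 0)
    (hxy : algebraMap ℚ Ω d * Y ^ 2 = algebraMap F Ω x ^ 5 - algebraMap F Ω x) :
    ∀ c : ℚ, (c = 1 ∨ c = -1) →
      (∃ W ∈ geomPro 2 ℚ (IntermediateField.adjoin ℚ {algebraMap F Ω x, Y}) Ω,
        W ^ 2 = algebraMap F Ω x ^ 4 - 1) ∧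
      ∃ W ∈ geomPro 2 ℚ (IntermediateField.adjoin ℚ {algebraMap F Ω x, Y}) Ω,
        W ^ 2 = algebraMap F Ω x ^ 3 + algebraMap ℚ Ω c * algebraMap F Ω x := by
  intro c hc
  have hac : IsAlgClosure ℚ (algebraicClosure ℚ Ω) := inferInstance
  have hkb : IsAlgClosed (algebraicClosure ℚ Ω) := hac.1
  have hch : CharZero (algebraicClosure ℚ Ω) :=
    charZero_of_injective_algebraMap (algebraMap ℚ (algebraicClosure ℚ Ω)).injective
  have hXt : Transcendental ℚ (algebraMap F Ω x) :=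
    (transcendental_algebraMap_iff (R := ℚ) (algebraMap F Ω).injective (a := x)).2 hx
  have halg := halg_acl (K := ℚ) (Ω := Ω) hF
  have hdκ : algebraMap ℚ (algebraicClosure ℚ Ω) d ≠ 0 := (_root_.map_ne_zero _).2 hd
  have hYΩ : algebraMap (algebraicClosure ℚ Ω) Ω (algebraMap ℚ (algebraicClosure ℚ Ω) d) *
      Y ^ 2 = (algebraMap F Ω x) ^ 5 - algebraMap F Ω x := by
    rw [← IsScalarTower.algebraMap_apply, hxy]
  obtain ⟨X, hX⟩ : ∃ X, X = algebraMap F Ω x := ⟨_, rfl⟩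
  rw [← hX] at hXt hYΩ halg ⊢
  have hgp : ∀ z, MP (algebraicClosure ℚ Ω) X Y z →
      z ∈ geomPro 2 ℚ (IntermediateField.adjoin ℚ {X, Y}) Ω := fun z hz =>
    (gp_iff (k := ℚ) (F := Ω) (Ω := Ω) (x := X) (y := Y)).2 hz
  constructor
  · obtain ⟨W, hW⟩ := IsAlgClosed.exists_pow_nat_eq (X ^ 4 - 1) two_pos
    exact ⟨W, hgp _ (mp_self (trans_up hXt) halg hdκ hYΩ hW), hW⟩
  · obtain ⟨W, hW⟩ := IsAlgClosed.exists_pow_nat_eq (X ^ 3 + algebraMap ℚ Ω c * X) two_pos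
    obtain ⟨e, he⟩ := IsAlgClosed.exists_pow_nat_eq (algebraMap ℚ (algebraicClosure ℚ Ω) c) two_pos
    refine ⟨W, hgp _ (mp_mob (e := e) (trans_up hXt) halg hdκ ?_ hYΩ ?_), hW⟩
    · have h1 : e ^ 4 = (e ^ 2) ^ 2 := by ring
      rw [h1, he]
      rcases hc with h | h
      · rw [h, map_one, one_pow]
      · rw [h, map_neg, map_one, neg_one_sq]
    · rw [← map_pow, he, ← IsScalarTower.algebraMap_apply, hW]

/-- **the twists of the genus one quotients** -/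
theorem exists_par (x : F) (hx : Transcendental ℚ x)
    (hF : Algebra.IsAlgebraic (IntermediateField.adjoin ℚ {x}) F)
    (N : IntermediateField F Ω) (s : GalSection ℚ F N B) (y : N) {d : ℚ} (hd : d ≠ 0)
    (hxy : algebraMap ℚ N d * y ^ 2 = algebraMap F N (x ^ 5 - x))
    (hN : ∀ z ∈ geomPro 2 ℚ (IntermediateField.adjoin ℚ {algebraMap F Ω x, (y : Ω)}) Ω, z ∈ N)
    (p : ℕ) [hp : Fact p.Prime] :
    ∃ (D : ℚ) (w : N), D ≠ 0 ∧ (∀ g, s.s g w = w) ∧ Even (padicValRat p D) ∧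
      (algebraMap ℚ N D * w ^ 2 = algebraMap F N (x ^ 4 - 1) ∨
      algebraMap ℚ N D * w ^ 2 = algebraMap F N (x ^ 3 - x) ∨
      algebraMap ℚ N D * w ^ 2 = algebraMap F N (x ^ 3 + x)) := by
  have hxyΩ : algebraMap ℚ Ω d * (y : Ω) ^ 2 = algebraMap F Ω x ^ 5 - algebraMap F Ω x := by
    have h1 := congrArg (algebraMap N Ω) hxy
    rw [map_mul, map_pow] at h1
    have h2 : algebraMap N Ω (algebraMap F N (x ^ 5 - x)) =
      algebraMap F Ω x ^ 5 - algebraMap F Ω x := by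
      change algebraMap F Ω (x ^ 5 - x) = _
      rw [map_sub, map_pow]
    rw [h2] at h1
    exact h1
  obtain ⟨⟨W₂, hW₂m, hW₂⟩, W₃, hW₃m, hW₃⟩ := exists_roots x hx hF hd hxyΩ 1 (Or.inl rfl)
  obtain ⟨-, W₁, hW₁m, hW₁⟩ := exists_roots x hx hF hd hxyΩ (-1) (Or.inr rfl)
  have hne : ∀ q : ℚ[X], q ≠ 0 → aeval x q ≠ 0 := by
    intro q hq h0
    exact hx ⟨q, hq, h0⟩
  have hf2 : x ^ 4 - 1 ≠ 0 := by
    have h1 := hne (X ^ 4 - C 1) (X_pow_sub_C_ne_zero (by norm_num) 1)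
    simpa using h1
  have hx0 : x ≠ 0 := by
    rintro rfl
    exact hx isAlgebraic_zero
  have hf1 : x ^ 3 - x ≠ 0 := by
    intro h0
    apply hf2
    have h1 : x * (x ^ 2 - 1) = 0 := by linear_combination h0
    have h2 := (mul_eq_zero.1 h1).resolve_left hx0
    linear_combination (x ^ 2 + 1) * h2
  have hf3 : x ^ 3 + x ≠ 0 := by
    intro h0
    apply hf2
    have h1 : x * (x ^ 2 + 1) = 0 := by linear_combination h0
    have h2 := (mul_eq_zero.1 h1).resolve_left hx0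
    linear_combination (x ^ 2 - 1) * h2
  obtain ⟨D₂, w₂, hD₂, hw₂, he₂⟩ := exists_twist s (z := ⟨W₂, hN _ hW₂m⟩) hf2 (by
    apply Subtype.ext
    change W₂ ^ 2 = algebraMap F Ω (x ^ 4 - 1)
    rw [hW₂, map_sub, map_pow, map_one])
  obtain ⟨D₁, w₁, hD₁, hw₁, he₁⟩ := exists_twist s (z := ⟨W₁, hN _ hW₁m⟩) hf1 (by
    apply Subtype.ext
    change W₁ ^ 2 = algebraMap F Ω (x ^ 3 - x)
    rw [hW₁, map_sub, map_pow, map_neg, map_one]
    ring)
  obtain ⟨D₃, w₃, hD₃, hw₃, he₃⟩ := exists_twist s (z := ⟨W₃, hN _ hW₃m⟩) hf3 (by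
    apply Subtype.ext
    change W₃ ^ 2 = algebraMap F Ω (x ^ 3 + x)
    rw [hW₃, map_add, map_pow, map_one, one_mul])
  have hXN : ∀ f : F, f ≠ 0 → algebraMap F N f ≠ 0 := fun f hf => (_root_.map_ne_zero _).2 hf
  have hw0 : ∀ (D : ℚ) (w : N) (f : F), f ≠ 0 → algebraMap ℚ N D * w ^ 2 = algebraMap F N f →
      w ≠ 0 := by
    rintro D w f hf h rfl
    rw [zero_pow two_ne_zero, mul_zero] at h
    exact hXN f hf h.symm
  have h1 := hw0 _ _ _ hf1 he₁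
  have h2 := hw0 _ _ _ hf2 he₂
  have h3 := hw0 _ _ _ hf3 he₃
  obtain ⟨r, hr⟩ := sq_of_fixed s (q := algebraMap F N (x * (x ^ 4 - 1)) / (w₁ * w₂ * w₃))
    (D := D₁ * D₂ * D₃) (fun g => by
      rw [map_div₀, (s.s g).commutes, map_mul (s.s g), map_mul (s.s g), hw₁, hw₂, hw₃]) (by
      have h4 : (w₁ * w₂ * w₃) ^ 2 ≠ 0 := pow_ne_zero 2 (mul_ne_zero (mul_ne_zero h1 h2) h3)
      rw [div_pow, div_eq_iff h4]
      have h5 : algebraMap ℚ N (D₁ * D₂ * D₃) * (w₁ * w₂ * w₃) ^ 2 =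
          (algebraMap ℚ N D₁ * w₁ ^ 2) * (algebraMap ℚ N D₂ * w₂ ^ 2) *
            (algebraMap ℚ N D₃ * w₃ ^ 2) := by
        rw [map_mul, map_mul]
        ring
      rw [h5, he₁, he₂, he₃, ← map_mul, ← map_mul, ← map_pow]
      congr 1
      ring)
  rcases even_one (p := p) hD₁ hD₂ hD₃ hr with h | h | h
  · exact ⟨D₁, w₁, hD₁, hw₁, h, Or.inr (Or.inl he₁)⟩
  · exact ⟨D₂, w₂, hD₂, hw₂, h, Or.inl he₂⟩
  · exact ⟨D₃, w₃, hD₃, hw₃, h, Or.inr (Or.inr he₃)⟩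

end roots

end Pool.Agent.K3h82.BT
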