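import Pool.Agent.K3h82.BT.Fin

/-!
# Sections over `ℚ` for the curves `d y ^ 2 = x ^ 5 - x`: the theorem
-/

set_option autoImplicit false
set_option linter.all false

open Polynomial FF Pool.Agent.Y157.PS Pool.Agent.TH954 IsDedekindDomain NumberField

namespace Pool.Agent.K3h82.BT

/-- the field `ℚ(i)` -/
theorem exists_Qi : ∃ (K : Type) (_ : Field K) (_ : NumberField K) (ι : K), Gi K ι := by
  obtain ⟨ι, h⟩ := @exists_gi (CyclotomicField 4 ℚ) _ _ _
    (CyclotomicField.isCyclotomicExtension 4 ℚ)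
  exact ⟨CyclotomicField 4 ℚ, inferInstance, inferInstance, ι, h⟩

attribute [-instance] SubfieldClass.instSMulRat

open Pool.Agent.Y158.GR (DecL exists_decL given_mem fixL fixL_val F_fixL)
open Pool.Agent.Y158.FQ (given_up)

section

variable {F Ω B : Type} [Field F] [Field Ω] [Field B] [Algebra ℚ F] [Algebra F Ω]
  [Algebra ℚ Ω] [Algebra ℚ B] [IsScalarTower ℚ F Ω] [IsAlgClosed Ω] [Algebra.IsAlgebraic F Ω]
  [IsAlgClosure ℚ B]
  {C : Type} [Field C] [Algebra ℚ_[2] C] [Algebra ℚ C] [IsAlgClosure ℚ_[2] C]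

/-- the theorem -/
theorem btQ {p : ℕ} (hp : p.Prime) {d : ℤ} (hd : d ∣ 2 * p) (x : F) (hx : Transcendental ℚ x)
    (hF : Algebra.IsAlgebraic (IntermediateField.adjoin ℚ {x}) F)
    (N : IntermediateField F Ω) (s : GalSection ℚ F N B) (y : N)
    (hxy : (d : N) * y ^ 2 = algebraMap F N (x ^ 5 - x)) (hys : ∀ g : B ≃ₐ[ℚ] B, s.s g y = y)
    (hN : ∀ z ∈ geomPro 2 ℚ (IntermediateField.adjoin ℚ {algebraMap F Ω x, (y : Ω)}) Ω, z ∈ N)
    (pl : Plc ℚ N C) (hpv : s.GivenBy ℚ_[2] pl) :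
    (pl.val (algebraMap F N x) 0 ∨ pl.val (algebraMap F N x) 1 ∨ pl.val (algebraMap F N x) (-1) ∨
        pl.val (algebraMap F N x)⁻¹ 0) ∧
      (p % 8 = 3 ∨ p % 8 = 5 → ∀ (g : B ≃ₐ[ℚ] B) (z : N),
        (z : Ω) ∈ geomPro 2 ℚ (IntermediateField.adjoin ℚ {algebraMap F Ω x, (y : Ω)}) Ω →
        (s.s g z ∈ pl.W ↔ z ∈ pl.W)) := by
  haveI : Algebra.IsAlgebraic ℚ B := IsAlgClosure.isAlgebraic
  haveI : Normal ℚ B := IsAlgClosure.normal ℚ B
  haveI hCac : IsAlgClosed C := IsAlgClosure.isAlgClosed ℚ_[2]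
  haveI hCalg : Algebra.IsAlgebraic ℚ_[2] C := IsAlgClosure.isAlgebraic
  haveI : Fact p.Prime := ⟨hp⟩
  have hd0 : d ≠ 0 := by
    rintro rfl
    have h1 := zero_dvd_iff.1 hd
    have : (p : ℤ) ≠ 0 := by exact_mod_cast hp.ne_zero
    omega
  have hdQ : (d : ℚ) ≠ 0 := by exact_mod_cast hd0
  have hxy' : algebraMap ℚ N (d : ℚ) * y ^ 2 = algebraMap F N (x ^ 5 - x) := by
    rw [← hxy, map_intCast]
  obtain ⟨D, w, hD, hws, hDp, hw⟩ := exists_par x hx hF N s y hdQ hxy' hN p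
  -- the field `ℚ(i)`
  obtain ⟨K, iK, iKn, ι, hG⟩ := exists_Qi
  haveI : Algebra.IsAlgebraic ℚ K := Algebra.IsAlgebraic.of_finite ℚ K
  obtain ⟨φ, -⟩ : ∃ φ : K →+* C, True :=
    ⟨(IsAlgClosed.lift : K →ₐ[ℚ] C).toRingHom, trivial⟩
  have hI : (φ ι) ^ 2 = -1 := by rw [← map_pow, hG.sq, map_neg, map_one]
  have hφm : ∀ c, φ c ∈ gaussF (φ ι) hI := by
    intro c
    obtain ⟨a, b, hab⟩ := hG.span c
    refine ⟨(a : ℚ_[2]), (b : ℚ_[2]), ?_⟩
    rw [hab, map_add, map_mul, map_ratCast, map_ratCast, map_ratCast, map_ratCast]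
  letI iKL : Algebra K (gaussF (φ ι) hI) :=
    (φ.codRestrict (gaussF (φ ι) hI) hφm).toAlgebra
  have hKL : ∀ c, ((algebraMap K (gaussF (φ ι) hI) c : gaussF (φ ι) hI) : C) =
      φ c := fun c => rfl
  have hQ : Q2i (gaussF (φ ι) hI) (algebraMap K (gaussF (φ ι) hI) ι) :=
    gaussF_q2i hI (hφm ι)
  obtain ⟨o, od⟩ := hQ.exists_od
  haveI : IsAlgClosure (gaussF (φ ι) hI) C := ⟨hCac, Algebra.IsAlgebraic.tower_top (K := ℚ_[2]) _⟩
  haveI : CharZero (gaussF (φ ι) hI) :=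
    charZero_of_injective_algebraMap (algebraMap ℚ_[2] (gaussF (φ ι) hI)).injective
  have hpK : s.GivenBy (gaussF (φ ι) hI) pl := given_up (L := ℚ_[2]) hpv
  obtain ⟨f, hf, h1, h2⟩ := btK hG od x hx hF N s y w hys hws hdQ hD hxy' hw (by
    intro v hv
    by_cases hpv' : (p : 𝓞 K) ∈ v.asIdeal
    · exact Or.inr (val_even hpv' hD hDp)
    · left
      refine ⟨1, ?_⟩
      rw [one_pow, Rat.cast_intCast]
      exact val_dvd hv hpv' hd) hN pl hpK
  haveI : IsScalarTower ℚ ℚ_[2] C := IsScalarTower.of_algebraMap_eq' (Subsingleton.elim _ _)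
  constructor
  · rcases h1 with h1 | ⟨c, hc, h1⟩
    · exact Or.inr (Or.inr (Or.inr h1))
    · obtain ⟨r, hr⟩ := fixL_val (Lv := ℚ_[2]) hpv (algebraMap F N x) (F_fixL s x) h1.mem
      have hrc : algebraMap ℚ_[2] C r = c := by
        obtain ⟨hm, h3⟩ := h1
        rw [← h3]
        exact hr
      have hr5 : r ^ 5 = r := by
        apply (algebraMap ℚ_[2] C).injective
        rw [map_pow, hrc, hc]
      have h4 : r * ((r - 1) * ((r + 1) * (r ^ 2 + 1))) = 0 := by linear_combination hr5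
      rcases mul_eq_zero.1 h4 with h | h
      · left
        rw [← hrc, h, map_zero] at h1
        exact h1
      rcases mul_eq_zero.1 h with h | h
      · right; left
        rw [← hrc, sub_eq_zero.1 h, map_one] at h1
        exact h1
      rcases mul_eq_zero.1 h with h | h
      · right; right; left
        rw [← hrc, eq_neg_of_add_eq_zero_left h, map_neg, map_one] at h1
        exact h1
      · exact absurd (eq_neg_of_add_eq_zero_left h) sq_ne
  · intro hp8 g z hz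
    have h3 := h2 (fun a ha hv hloc => inj_of hG hQ hp hp8 a ha (fun v hv2 hvp => hv v hv2 ⟨1, by
      rw [one_pow, Rat.cast_intCast]
      exact val_dvd hv2 hvp hd⟩) hloc)
    have hfι : (f ι) ^ 2 = -1 := by rw [← map_pow, hG.sq, map_neg, map_one]
    have h4 : (g (f ι) - f ι) * (g (f ι) + f ι) = 0 := by
      have h5 : (g (f ι)) ^ 2 = -1 := by rw [← map_pow, hfι, map_neg, map_one]
      linear_combination h5 - hfι
    rcases mul_eq_zero.1 h4 with h5 | h5
    · exact h3 g (sub_eq_zero.1 h5) z hz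
    · have hg : g (f ι) = -f ι := eq_neg_of_add_eq_zero_left h5
      obtain ⟨τ, hτ⟩ := exists_conj (C := C) hI
      obtain ⟨h, hh⟩ := exists_decL (L := ℚ_[2]) (pl.iot s.j) τ
      have hhι : h (f ι) = -f ι := by
        apply (pl.iot s.j).injective
        change pl.iot s.j (h (f ι)) = pl.iot s.j (-f ι)
        rw [hh, map_neg, hf]
        exact hτ
      have h6 : (h⁻¹ * g) (f ι) = f ι := by
        change h.symm (g (f ι)) = f ι
        rw [hg, ← hhι, h.symm_apply_apply]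
      have h7 := h3 (h⁻¹ * g) h6 z hz
      have h8 := given_mem hpv (σ := h) ⟨τ, hh⟩ (s.s (h⁻¹ * g) z)
      have h9 : s.s h (s.s (h⁻¹ * g) z) = s.s g z := by
        change (s.s h * s.s (h⁻¹ * g)) z = _
        rw [← map_mul, mul_inv_cancel_left]
      rw [h9] at h8
      exact h8.trans h7

end

end Pool.Agent.K3h82.BT
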