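import Mathlib

/-!
# The field `ℚ(i)`: integers, class number, units
-/

set_option autoImplicit false
set_option linter.all false

open NumberField IsDedekindDomain

namespace Pool.Agent.K3h82.BT

/-- `K = ℚ(ι)` with `ι ^ 2 = -1` -/
structure Gi (K : Type) [Field K] (ι : K) : Prop where
  sq : ι ^ 2 = -1
  span : ∀ z : K, ∃ a b : ℚ, z = (a : K) + (b : K) * ι

/-- the cyclotomic field -/
theorem exists_gi (K : Type) [Field K] [CharZero K] [Algebra ℚ K] [IsCyclotomicExtension {4} ℚ K] :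
    ∃ ι : K, Gi K ι := by
  have hζ := IsCyclotomicExtension.zeta_spec 4 ℚ K
  set ι := IsCyclotomicExtension.zeta 4 ℚ K with hι
  have h4 : ι ^ 4 = 1 := hζ.pow_eq_one
  have h2 : ι ^ 2 ≠ 1 := hζ.pow_ne_one_of_pos_of_lt (by norm_num) (by norm_num)
  have hsq : ι ^ 2 = -1 := by
    have h : (ι ^ 2 - 1) * (ι ^ 2 + 1) = 0 := by linear_combination h4
    rcases mul_eq_zero.1 h with h | h
    · exact absurd (by linear_combination h) h2
    · linear_combination h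
  refine ⟨ι, hsq, fun z => ?_⟩
  have hz : z ∈ Algebra.adjoin ℚ ({ι} : Set K) := by
    have h := IsCyclotomicExtension.adjoin_primitive_root_eq_top (n := 4) (A := ℚ) (B := K) hζ
    rw [h]; trivial
  induction hz using Algebra.adjoin_induction with
  | mem y hy =>
    rw [Set.mem_singleton_iff] at hy
    exact ⟨0, 1, by rw [hy]; push_cast; ring⟩
  | algebraMap r => exact ⟨r, 0, by rw [eq_ratCast (algebraMap ℚ K) r]; push_cast; ring⟩
  | add x y _ _ hx hy =>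
    obtain ⟨a, b, h1⟩ := hx
    obtain ⟨c, d, h3⟩ := hy
    exact ⟨a + c, b + d, by rw [h1, h3]; push_cast; ring⟩
  | mul x y _ _ hx hy =>
    obtain ⟨a, b, h1⟩ := hx
    obtain ⟨c, d, h3⟩ := hy
    refine ⟨a * c - b * d, a * d + b * c, ?_⟩
    rw [h1, h3]
    push_cast
    linear_combination ((b : K) * d) * hsq

section ints

variable {K : Type} [Field K] [NumberField K] {ι : K} (hG : Gi K ι)

include hG

theorem rat_int {q : ℚ} (h : IsIntegral ℤ ((q : ℚ) : ℂ)) : ∃ m : ℤ, q = m := by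
  have h1 : IsIntegral ℤ q := by
    have h2 : ((q : ℚ) : ℂ) = algebraMap ℚ ℂ q := rfl
    rw [h2] at h
    exact (isIntegral_algebraMap_iff (algebraMap ℚ ℂ).injective).1 h
  obtain ⟨m, hm⟩ := IsIntegrallyClosed.isIntegral_iff.1 h1
  exact ⟨m, by rw [← hm]; rfl⟩

/-- the integers of `K` -/
theorem int_form (z : 𝓞 K) : ∃ m n : ℤ, (z : K) = m + n * ι := by
  obtain ⟨a, b, hab⟩ := hG.span z
  let φ : K →+* ℂ := (IsAlgClosed.lift : K →ₐ[ℚ] ℂ).toRingHom
  have hφι : φ ι ^ 2 = -1 := by rw [← map_pow, hG.sq, map_neg, map_one]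
  have hconj : (starRingEnd ℂ) (φ ι) = -φ ι := by
    have h : (φ ι - Complex.I) * (φ ι + Complex.I) = 0 := by
      linear_combination hφι - Complex.I_sq
    rcases mul_eq_zero.1 h with h | h
    · rw [sub_eq_zero.1 h, Complex.conj_I]
    · rw [eq_neg_of_add_eq_zero_left h, map_neg, Complex.conj_I]
  have hz : IsIntegral ℤ (φ z) := by
    have h1 : IsIntegral ℤ (z : K) := RingOfIntegers.isIntegral_coe z
    exact h1.map (φ : K →+* ℂ).toIntAlgHom
  have hz' : IsIntegral ℤ ((starRingEnd ℂ) (φ z)) :=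
    hz.map ((starRingEnd ℂ) : ℂ →+* ℂ).toIntAlgHom
  have e1 : φ z = (a : ℂ) + (b : ℂ) * φ ι := by
    rw [hab, map_add, map_mul, map_ratCast, map_ratCast]
  have e2 : (starRingEnd ℂ) (φ z) = (a : ℂ) - (b : ℂ) * φ ι := by
    rw [e1, map_add, map_mul, hconj, map_ratCast, map_ratCast]
    ring
  obtain ⟨m, hm⟩ := rat_int hG (q := 2 * a) (by
    have h := hz.add hz'
    rw [e2, e1] at h
    have e3 : ((2 * a : ℚ) : ℂ) = (a : ℂ) + (b : ℂ) * φ ι + ((a : ℂ) - (b : ℂ) * φ ι) := by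
      push_cast; ring
    rw [e3]
    exact h)
  obtain ⟨n, hn⟩ := rat_int hG (q := a ^ 2 + b ^ 2) (by
    have h := hz.mul hz'
    rw [e2, e1] at h
    have e3 : ((a ^ 2 + b ^ 2 : ℚ) : ℂ) =
        ((a : ℂ) + (b : ℂ) * φ ι) * ((a : ℂ) - (b : ℂ) * φ ι) := by
      push_cast
      linear_combination ((b : ℂ) ^ 2) * hφι
    rw [e3]
    exact h)
  obtain ⟨l, hl⟩ : ∃ l : ℤ, 2 * b = l := by
    have h1 : (2 * b) ^ 2 = ((4 * n - m ^ 2 : ℤ) : ℚ) := by
      push_cast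
      rw [← hn, ← hm]; ring
    have h2 : IsIntegral ℤ (2 * b) := by
      refine IsIntegral.of_pow (n := 2) (by norm_num) ?_
      rw [h1]
      exact isIntegral_algebraMap (R := ℤ) (A := ℚ) (x := 4 * n - m ^ 2)
    obtain ⟨l, hl⟩ := IsIntegrallyClosed.isIntegral_iff.1 h2
    exact ⟨l, by rw [← hl]; rfl⟩
  have h4 : m ^ 2 + l ^ 2 = 4 * n := by
    have : ((m ^ 2 + l ^ 2 : ℤ) : ℚ) = ((4 * n : ℤ) : ℚ) := by
      push_cast
      rw [← hn, ← hm, ← hl]; ring
    exact_mod_cast this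
  have hm2 : (2 : ℤ) ∣ m ∧ (2 : ℤ) ∣ l := by
    have key : ∀ x y : ZMod 4, x ^ 2 + y ^ 2 = 0 → (x = 0 ∨ x = 2) ∧ (y = 0 ∨ y = 2) := by decide
    have h5 : ((m : ZMod 4)) ^ 2 + ((l : ZMod 4)) ^ 2 = 0 := by
      have := congrArg (fun t : ℤ => (t : ZMod 4)) h4
      push_cast at this
      rw [this]
      have h44 : (4 : ZMod 4) = 0 := by decide
      rw [h44, zero_mul]
    have hdvd : ∀ x : ℤ, ((x : ZMod 4) = 0 ∨ (x : ZMod 4) = 2) → (2 : ℤ) ∣ x := by
      intro x hx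
      rcases hx with hx | hx
      · have := (ZMod.intCast_zmod_eq_zero_iff_dvd x 4).1 hx
        exact dvd_trans (by norm_num) this
      · have h6 : ((x - 2 : ℤ) : ZMod 4) = 0 := by push_cast; rw [hx]; decide
        have h7 := (ZMod.intCast_zmod_eq_zero_iff_dvd (x - 2) 4).1 h6
        have h8 : (2 : ℤ) ∣ x - 2 := dvd_trans (by norm_num) h7
        omega
    obtain ⟨h6, h7⟩ := key _ _ h5
    exact ⟨hdvd m h6, hdvd l h7⟩
  obtain ⟨⟨m', hm'⟩, ⟨l', hl'⟩⟩ := hm2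
  refine ⟨m', l', ?_⟩
  have ha : a = m' := by
    have : (2 : ℚ) * a = 2 * m' := by rw [hm, hm']; push_cast; ring
    linarith
  have hb : b = l' := by
    have : (2 : ℚ) * b = 2 * l' := by rw [hl, hl']; push_cast; ring
    linarith
  rw [hab, ha, hb]
  push_cast
  rfl

theorem iota_int : IsIntegral ℤ ι := by
  refine IsIntegral.of_pow (n := 4) (by norm_num) ?_
  have : ι ^ 4 = 1 := by
    have := hG.sq
    linear_combination (ι ^ 2 - 1) * this
  rw [this]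
  exact isIntegral_one

theorem pid : IsPrincipalIdealRing (𝓞 K) := by
  let j : 𝓞 K := ⟨ι, iota_int hG⟩
  have hj : j * j = ((-1 : ℤ) : 𝓞 K) := by
    apply RingOfIntegers.ext
    have : ((j * j : 𝓞 K) : K) = ι * ι := rfl
    rw [this]
    have h2 := hG.sq
    push_cast
    linear_combination h2
  let f : GaussianInt →+* 𝓞 K := Zsqrtd.lift ⟨j, hj⟩
  refine IsPrincipalIdealRing.of_surjective f ?_
  intro z
  obtain ⟨m, n, hmn⟩ := int_form hG z
  refine ⟨⟨m, n⟩, ?_⟩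
  apply RingOfIntegers.ext
  rw [hmn]
  change (((m : 𝓞 K) + (n : 𝓞 K) * j : 𝓞 K) : K) = _
  push_cast
  rfl

theorem cls_cop : (classNumber K).Coprime 2 := by
  have h := (classNumber_eq_one_iff (K := K)).2 (pid hG)
  rw [h]
  exact Nat.coprime_one_left 2

/-- the units of `K` -/
theorem unit_form (u : (𝓞 K)ˣ) : ((u : 𝓞 K) : K) = 1 ∨ ((u : 𝓞 K) : K) = -1 ∨
    ((u : 𝓞 K) : K) = ι ∨ ((u : 𝓞 K) : K) = -ι := by
  obtain ⟨m, n, h1⟩ := int_form hG (u : 𝓞 K)
  obtain ⟨m', n', h2⟩ := int_form hG ((u⁻¹ : (𝓞 K)ˣ) : 𝓞 K)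
  have h3 : ((u : 𝓞 K) : K) * (((u⁻¹ : (𝓞 K)ˣ) : 𝓞 K) : K) = 1 := by
    rw [← map_mul, Units.mul_inv, map_one]
  let φ : K →+* ℂ := (IsAlgClosed.lift : K →ₐ[ℚ] ℂ).toRingHom
  have hφι : φ ι ^ 2 = -1 := by rw [← map_pow, hG.sq, map_neg, map_one]
  have hn : ∀ (a b : ℤ), Complex.normSq (φ ((a : K) + b * ι)) = a ^ 2 + b ^ 2 := by
    intro a b
    have h : (φ ι - Complex.I) * (φ ι + Complex.I) = 0 := by
      linear_combination hφι - Complex.I_sq
    rw [map_add, map_mul, map_intCast, map_intCast]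
    rcases mul_eq_zero.1 h with h | h
    · rw [sub_eq_zero.1 h, Complex.normSq_apply]
      simp
      ring
    · rw [eq_neg_of_add_eq_zero_left h, Complex.normSq_apply]
      simp
      ring
  have h4 : ((m ^ 2 + n ^ 2 : ℤ) : ℝ) * ((m' ^ 2 + n' ^ 2 : ℤ) : ℝ) = 1 := by
    rw [h1, h2] at h3
    have h5 := congrArg (fun t => Complex.normSq (φ t)) h3
    simp only [map_mul] at h5
    rw [hn, hn, map_one, map_one] at h5
    push_cast
    exact h5
  have h5 : (m ^ 2 + n ^ 2) * (m' ^ 2 + n' ^ 2) = 1 := by exact_mod_cast h4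
  have h6 : m ^ 2 + n ^ 2 = 1 := by
    rcases Int.eq_one_or_neg_one_of_mul_eq_one h5 with h | h
    · exact h
    · nlinarith [sq_nonneg m, sq_nonneg n]
  have hmb : -1 ≤ m ∧ m ≤ 1 := ⟨by nlinarith [sq_nonneg n], by nlinarith [sq_nonneg n]⟩
  have hnb : -1 ≤ n ∧ n ≤ 1 := ⟨by nlinarith [sq_nonneg m], by nlinarith [sq_nonneg m]⟩
  obtain ⟨hm1, hm2⟩ := hmb
  obtain ⟨hn1, hn2⟩ := hnb
  interval_cases m <;> interval_cases n <;> simp_all

end ints

end Pool.Agent.K3h82.BT
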