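import Pool.Agent.Y157.PS.All
import Pool.Agent.Y948.PS.COV
import Pool.Agent.Y809.PS.K0

/-!
# Inclusions between the covering fields of two hyperelliptic curves
-/

set_option autoImplicit false
set_option linter.all false

open Polynomial FF Pool.Agent.Y157.PS Pool.Agent.Y948.PS

namespace Pool.Agent.K3h82.BT

section

variable {κ R Ω : Type} [Field κ] [IsAlgClosed κ] [CharZero κ] [Field R]
  [Field Ω] [Algebra κ R] [Algebra R Ω] [Algebra κ Ω] [IsScalarTower κ R Ω] [IsAlgClosure R Ω]
  {ℓ : ℕ} [hp : Fact ℓ.Prime]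

omit [CharZero κ] [IsAlgClosure R Ω] [IsAlgClosed κ] in
theorem prod_R {x : R} {B : Finset κ} {Y : Ω}
    (hY : Y ^ ℓ = ∏ e ∈ B, (algebraMap R Ω x - algebraMap κ Ω e)) :
    Y ^ ℓ = algebraMap R Ω (∏ e ∈ B, (x - algebraMap κ R e)) := by
  rw [hY, map_prod]
  refine Finset.prod_congr rfl fun e _ => ?_
  rw [map_sub, ← IsScalarTower.algebraMap_apply]

/-- uniformisers -/
theorem hu_of {x : R} (hx : RatF κ x) {B : Finset κ} (hdvd : ℓ ∣ B.card) (hne : B.Nonempty) {Y : Ω}
    (hY : Y ^ ℓ = ∏ e ∈ B, (algebraMap R Ω x - algebraMap κ Ω e)) :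
    HU κ (IntermediateField.adjoin R {Y}) := by
  haveI : Algebra.IsAlgebraic R Ω := IsAlgClosure.isAlgebraic
  intro W hκ hW
  obtain ⟨π, h1, h2, h3, h4⟩ := Pool.Agent.Y809.PS.k0 ℓ κ R Ω x hx B hdvd hne Y hY W hκ (by
    by_contra hc
    push Not at hc
    exact hW (top_of_R W hc))
  refine ⟨π, ⟨?_, h2, ?_, ?_⟩⟩
  · rcases h3 with ⟨e, he, rfl, _⟩ | ⟨a, ha, rfl⟩ | rfl
    · exact IntermediateField.mem_adjoin_simple_self R _
    · refine sub_mem (algebraMap_mem _ _) ?_
      rw [IsScalarTower.algebraMap_apply κ R Ω]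
      exact algebraMap_mem _ _
    · exact inv_mem (algebraMap_mem _ _)
  · exact (ValuationSubring.mem_nonunits_iff _).1 h1
  · intro z hz hz0
    obtain ⟨n, hn⟩ := h4 z hz hz0
    refine ⟨n, ?_⟩
    have h5 := (isU_iff W).1 hn
    rw [map_div₀, map_zpow₀] at h5
    rwa [div_eq_one_iff_eq] at h5
    exact zpow_ne_zero _ ((Valuation.pos_iff _).2 h2).ne'

/-- **the covering field of a curve with less branch points is contained in the other one** -/
theorem sub_maxPro {x : R} (hx : RatF κ x) {A B : Finset κ} (hAB : A ⊆ B) (hA : ℓ ∣ A.card)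
    (hAne : A.Nonempty) (hB : ℓ ∣ B.card) (hB3 : 3 ≤ B.card) {Z Y : Ω}
    (hZ : Z ^ ℓ = ∏ e ∈ A, (algebraMap R Ω x - algebraMap κ Ω e))
    (hY : Y ^ ℓ = ∏ e ∈ B, (algebraMap R Ω x - algebraMap κ Ω e)) {z : Ω}
    (hz : z ∈ maxPro ℓ κ (IntermediateField.adjoin R {Z}) Ω) :
    z ∈ maxPro ℓ κ (IntermediateField.adjoin R {Y}) Ω := by
  haveI : CharZero R := charZero_of_injective_algebraMap (algebraMap κ R).injective
  haveI : Algebra.IsAlgebraic R Ω := IsAlgClosure.isAlgebraic
  haveI : IsAlgClosed Ω := IsAlgClosure.isAlgClosed R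
  haveI : Normal R Ω := IsAlgClosure.normal R Ω
  have hℓ0 : ℓ ≠ 0 := hp.out.ne_zero
  have hBne : B.Nonempty := hAne.mono hAB
  have hUZ := hu_of hx hA hAne hZ
  have hUY := hu_of hx hB hBne hY
  -- the covering field of `Y`
  obtain ⟨M, hM⟩ : ∃ M : IntermediateField R Ω,
      ∀ z, z ∈ M ↔ z ∈ maxPro ℓ κ (IntermediateField.adjoin R {Y}) Ω :=
    ⟨(maxPro ℓ κ (IntermediateField.adjoin R {Y}) Ω).restrictScalars _, fun z => Iff.rfl⟩
  have hYM : Y ∈ M := by
    rw [hM]
    exact (maxPro ℓ κ (IntermediateField.adjoin R {Y}) Ω).algebraMap_mem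
      ⟨Y, IntermediateField.mem_adjoin_simple_self _ _⟩
  have hC : Cov ℓ κ R M x B ⟨Y, hYM⟩ := a_cov ℓ κ R Ω x hx B hB hB3 Y hY M hM ⟨Y, hYM⟩ rfl
  have hxt : Transcendental κ (algebraMap R M x) :=
    (transcendental_algebraMap_iff (algebraMap R M).injective).2 hC.rat.trans
  have hne : ∀ e : κ, algebraMap R M x - algebraMap κ M e ≠ 0 := by
    intro e h0
    apply hxt
    rw [sub_eq_zero.1 h0]
    exact isAlgebraic_algebraMap _
  -- `Z` is in the covering field
  have hZM : Z ∈ M := by
    obtain ⟨g, hg⟩ : ∃ g : M, g = ∏ e ∈ A, (algebraMap R M x - algebraMap κ M e) := ⟨_, rfl⟩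
    have hg0 : g ≠ 0 := by
      rw [hg]
      exact Finset.prod_ne_zero_iff.2 fun e _ => hne e
    obtain ⟨h, hh⟩ := hC.root g hg0 (fun W => by
      have hord : ∀ T : Finset κ, W.ord (∏ e ∈ T, (algebraMap R M x - algebraMap κ M e)) =
          ∑ e ∈ T, W.ord (algebraMap R M x - algebraMap κ M e) := by
        classical
        intro T
        induction T using Finset.induction_on with
        | empty => rw [Finset.prod_empty, Finset.sum_empty, W.ord_one]
        | insert e T he ih =>
          rw [Finset.prod_insert he, Finset.sum_insert he, W.ord_mul (hne e)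
            (Finset.prod_ne_zero_iff.2 fun e _ => hne e), ih]
      rw [hg, hord]
      rcases hC.loc' W with ⟨e', he', h3, h4⟩ | ⟨a, ha, h3⟩ | h3
      · refine Finset.dvd_sum fun e he => ?_
        by_cases hee : e' = e
        · rw [← hee, h3]
        · have h5 : 0 < W.ord (algebraMap R M x - algebraMap κ M e') := by
            rw [h3]; exact_mod_cast hp.out.pos
          rw [ord_sub_const h5 hee]
          exact dvd_zero _
      · refine Finset.dvd_sum fun e he => ?_
        have hae : a ≠ e := fun h => ha (h ▸ hAB he)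
        rw [ord_sub_const (by rw [h3]; exact one_pos) hae]
        exact dvd_zero _
      · have h5 : ∀ e ∈ A, W.ord (algebraMap R M x - algebraMap κ M e) = -1 := by
          intro e _
          by_cases he0 : e = 0
          · rw [he0, map_zero, sub_zero, h3]
          · have hx0 : algebraMap R M x ≠ 0 := by
              intro h0; rw [h0, W.ord_zero] at h3; omega
            have he : algebraMap κ M e ≠ 0 := (_root_.map_ne_zero _).2 he0
            have h6 := W.ord_sub hx0 he (hne e)
            rw [h3, W.ord_const he0] at h6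
            have h7 : algebraMap R M x = (algebraMap R M x - algebraMap κ M e) +
              algebraMap κ M e := by ring
            have h8 := W.ord_add (hne e) he (by rw [← h7]; exact hx0)
            rw [← h7, h3, W.ord_const he0] at h8
            have h9 : min (-1 : ℤ) 0 = -1 := by norm_num
            rw [h9] at h6
            rcases min_le_iff.1 h8 with h10 | h10
            · omega
            · omega
        rw [Finset.sum_congr rfl h5, Finset.sum_const, nsmul_eq_mul, mul_neg, mul_one]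
        rw [dvd_neg]
        exact_mod_cast hA)
    have h1 : (Z / (h : Ω)) ^ ℓ = 1 := by
      have h2 : (h : Ω) ^ ℓ = Z ^ ℓ := by
        rw [hZ]
        have h3 := congrArg (algebraMap M Ω) (hh.trans hg)
        rw [map_pow, map_prod] at h3
        exact h3
      rw [div_pow, h2, div_self]
      rw [← h2]
      refine pow_ne_zero _ fun h3 => hg0 ?_
      have h4 : h = 0 := Subtype.ext h3
      rw [← hh, h4, zero_pow hℓ0]
    obtain ⟨c, hc⟩ := muR (κ := κ) (R := R) hℓ0 _ h1
    have hh0 : (h : Ω) ≠ 0 := by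
      intro h3
      rw [h3, div_zero, zero_pow hℓ0] at h1
      exact zero_ne_one h1
    have h4 : Z = algebraMap R Ω c * h := by rw [hc, div_mul_cancel₀ _ hh0]
    rw [h4]
    exact mul_mem (M.algebraMap_mem c) h.2
  have hMemZ := maxPro_le hx (prod_R hY) hUY ((hM Z).1 hZM)
  have hMemz := maxPro_le hx (prod_R hZ) hUZ hz
  refine le_maxPro (prod_R hY) hUY ⟨hMemz.1, fun W hκ hW => ?_⟩
  obtain ⟨π, hπ⟩ := hUY W hκ hW
  -- elements of `R(Z)` can be approximated
  have hAp : ∀ t ∈ IntermediateField.adjoin R {Z}, Apx (IntermediateField.adjoin R {Y}) W t := by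
    intro t ht
    induction ht using IntermediateField.adjoin_induction with
    | mem y hy => rw [Set.mem_singleton_iff.1 hy]; exact hMemZ.2 W hκ hW
    | algebraMap r => exact Apx.of_mem (algebraMap_mem _ r)
    | add y w _ _ hy hw => exact hy.add hw
    | inv y _ hy => exact hy.inv
    | mul y w _ _ hy hw => exact hy.mul hw
  obtain ⟨r, hr⟩ : ∃ r : R, algebraMap R Ω r ∉ W := by
    by_contra hc
    push Not at hc
    exact hW (top_of_R W hc)
  have hr0 : r ≠ 0 := by
    rintro rfl
    apply hr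
    rw [map_zero]
    exact zero_mem _
  have hr1 : algebraMap R Ω r⁻¹ ≠ 0 := (_root_.map_ne_zero _).2 (inv_ne_zero hr0)
  have hrv : W.valuation (algebraMap R Ω r⁻¹) < 1 := by
    rw [map_inv₀, map_inv₀]
    rw [← ValuationSubring.valuation_le_one_iff, not_le] at hr
    exact inv_lt_one_of_one_lt₀ hr
  intro s hs hs0
  obtain ⟨n, hn⟩ := hπ.val s hs hs0
  obtain ⟨m, hm⟩ := hπ.val _ (algebraMap_mem _ r⁻¹) hr1
  have hm1 := hπ.le_of_lt hm hrv
  obtain ⟨s', hs'⟩ : ∃ s', s' = (algebraMap R Ω r⁻¹) ^ n.natAbs := ⟨_, rfl⟩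
  have hs'v : W.valuation s' ≤ W.valuation s := by
    rw [hs', map_pow, hm, hn, ← zpow_natCast, ← zpow_mul]
    apply hπ.anti
    have h1 : n ≤ (n.natAbs : ℤ) := Int.le_natAbs
    nlinarith [Int.natCast_nonneg n.natAbs]
  obtain ⟨t, ht, h1⟩ := hMemz.2 W hκ hW s' (by
    rw [hs']
    exact pow_mem (algebraMap_mem _ _) _) (by
    rw [hs']
    exact pow_ne_zero _ hr1)
  obtain ⟨t', ht', h2⟩ := hAp t ht s hs hs0
  refine ⟨t', ht', ?_⟩
  have h3 : z - t' = (z - t) + (t - t') := by ring
  rw [h3]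
  exact (Valuation.map_add _ _ _).trans (max_le (h1.trans hs'v) h2)

end

end Pool.Agent.K3h82.BT
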