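import Pool.Agent.K3h82.BT.Mob
import Pool.Agent.K3h82.BT.Sub
import Pool.Agent.Y158.FQ.Eqv3

/-!
# The covering field of `d y ^ 2 = x ^ 5 - x`
-/

set_option autoImplicit false
set_option linter.all false

open Polynomial FF Pool.Agent.Y157.PS

namespace Pool.Agent.K3h82.BT

open Pool.Agent.Y158.FQ (adjoin_pair_top alg_over)

theorem adjoin_mul {R Ω : Type} [Field R] [Field Ω] [Algebra R Ω] {Y : Ω} {c : R} (hc : c ≠ 0) :
    IntermediateField.adjoin R {algebraMap R Ω c * Y} = IntermediateField.adjoin R {Y} := by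
  have hc' : algebraMap R Ω c ≠ 0 := (_root_.map_ne_zero _).2 hc
  apply le_antisymm
  · rw [IntermediateField.adjoin_le_iff, Set.singleton_subset_iff]
    exact mul_mem (IntermediateField.algebraMap_mem _ c)
      (IntermediateField.mem_adjoin_simple_self R Y)
  · rw [IntermediateField.adjoin_le_iff, Set.singleton_subset_iff]
    have h1 : algebraMap R Ω c⁻¹ * (algebraMap R Ω c * Y) = Y := by
      rw [map_inv₀, inv_mul_cancel_left₀ hc']
    have h2 := mul_mem (IntermediateField.algebraMap_mem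
      (IntermediateField.adjoin R {algebraMap R Ω c * Y}) c⁻¹)
      (IntermediateField.mem_adjoin_simple_self R (algebraMap R Ω c * Y))
    rwa [h1] at h2

section

variable {k F Ω : Type} [Field k] [CharZero k]
    [Field F] [Field Ω] [Algebra k F] [Algebra F Ω] [Algebra k Ω] [IsScalarTower k F Ω]
    [IsAlgClosed Ω] [Algebra.IsAlgebraic F Ω]

/-- the covering field, in all coordinates -/
theorem glue5 (x y : F) (hx : Transcendental k x)
    (hF : IntermediateField.adjoin k {x, y} = (⊤ : IntermediateField k F)) {d : k} (hd : d ≠ 0)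
    (hxy : algebraMap k F d * y ^ 2 = x ^ 5 - x) :
    ∃ (R M : Type) (_ : Field R) (_ : Field M) (_ : Algebra (algebraicClosure k Ω) R)
      (_ : Algebra R M) (_ : Algebra (algebraicClosure k Ω) M)
      (_ : IsScalarTower (algebraicClosure k Ω) R M) (x' : R) (y' : M)
      (eqv : M ≃+* geomPro 2 k F Ω), RatF (algebraicClosure k Ω) x' ∧
      (∀ a δ : algebraicClosure k Ω, a ^ 5 - a ≠ 0 →
        δ ^ 2 * (a ^ 5 - a) = algebraMap k (algebraicClosure k Ω) d →
        Cov 2 (algebraicClosure k Ω) R M (x' - algebraMap (algebraicClosure k Ω) R a)⁻¹ (B5 a)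
          (algebraMap (algebraicClosure k Ω) M δ * y' *
            algebraMap R M (x' - algebraMap (algebraicClosure k Ω) R a)⁻¹ ^ 3)) ∧
      (∀ c : algebraicClosure k Ω, ((eqv (algebraMap (algebraicClosure k Ω) M c) :
        geomPro 2 k F Ω) : Ω) = (c : Ω)) ∧
      ((eqv (algebraMap R M x') : geomPro 2 k F Ω) : Ω) = algebraMap F Ω x ∧
      ((eqv y' : geomPro 2 k F Ω) : Ω) = algebraMap F Ω y := by
  classical
  haveI h2p : Fact (Nat.Prime 2) := ⟨Nat.prime_two⟩
  have hac : IsAlgClosure k (algebraicClosure k Ω) := inferInstance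
  have hkb : IsAlgClosed (algebraicClosure k Ω) := hac.1
  have hch : CharZero (algebraicClosure k Ω) :=
    charZero_of_injective_algebraMap (algebraMap k (algebraicClosure k Ω)).injective
  have hX0 : Transcendental k (algebraMap F Ω x) :=
    (transcendental_algebraMap_iff (R := k) (algebraMap F Ω).injective (a := x)).2 hx
  have hrat := ratF_adj (trans_up hX0)
  have hdκ : algebraMap k (algebraicClosure k Ω) d ≠ 0 := (_root_.map_ne_zero _).2 hd
  obtain ⟨Y0, hY0⟩ : ∃ Y0 : Ω, Y0 = algebraMap F Ω y := ⟨_, rfl⟩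
  have h1Y : ((1 : algebraicClosure k Ω) : Ω) * algebraMap F Ω y = Y0 := by
    rw [hY0]
    change 1 * algebraMap F Ω y = _
    rw [one_mul]
  have hdY : algebraMap k Ω d * Y0 ^ 2 = algebraMap F Ω x ^ 5 - algebraMap F Ω x := by
    rw [hY0]
    have := congrArg (algebraMap F Ω) hxy
    rw [map_mul, map_pow, map_sub, map_pow, ← IsScalarTower.algebraMap_apply] at this
    exact this
  have hdΩ : algebraMap k Ω d ≠ 0 := (_root_.map_ne_zero _).2 hd
  have hYR : Y0 ^ 2 ∈ IntermediateField.adjoin (algebraicClosure k Ω) {algebraMap F Ω x} := by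
    have h1 : Y0 ^ 2 = algebraMap (algebraicClosure k Ω) Ω
        (algebraMap k (algebraicClosure k Ω) d)⁻¹ *
          (algebraMap F Ω x ^ 5 - algebraMap F Ω x) := by
      rw [← hdY, map_inv₀, ← IsScalarTower.algebraMap_apply, inv_mul_cancel_left₀ hdΩ]
    rw [h1]
    exact mul_mem (IntermediateField.algebraMap_mem _ _) (sub_mem (pow_mem
      (IntermediateField.mem_adjoin_simple_self _ _) _)
      (IntermediateField.mem_adjoin_simple_self _ _))
  have hclR := closure_R hF (1 : algebraicClosure k Ω) one_ne_zero two_pos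
    (by rw [h1Y]; exact hYR)
  obtain ⟨M, hM⟩ : ∃ M : IntermediateField
      (IntermediateField.adjoin (algebraicClosure k Ω) {algebraMap F Ω x}) Ω,
      ∀ z, z ∈ M ↔ z ∈ maxPro 2 (algebraicClosure k Ω) (IntermediateField.adjoin
        (IntermediateField.adjoin (algebraicClosure k Ω) {algebraMap F Ω x}) {Y0}) Ω :=
    ⟨(maxPro 2 (algebraicClosure k Ω) (IntermediateField.adjoin
        (IntermediateField.adjoin (algebraicClosure k Ω) {algebraMap F Ω x}) {Y0})
        Ω).restrictScalars _, fun z => Iff.rfl⟩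
  have hYM : Y0 ∈ M := by
    rw [hM]
    exact (maxPro 2 (algebraicClosure k Ω) (IntermediateField.adjoin
      (IntermediateField.adjoin (algebraicClosure k Ω) {algebraMap F Ω x}) {Y0})
      Ω).algebraMap_mem ⟨Y0, IntermediateField.mem_adjoin_simple_self _ _⟩
  have hMN : ∀ z, z ∈ M ↔ z ∈ geomPro 2 k F Ω := fun z => (hM z).trans (by
    have h1 := maxPro_geom 2 k hF (1 : algebraicClosure k Ω) one_ne_zero z
    rw [h1Y] at h1
    exact h1)
  let eqv : M ≃+* geomPro 2 k F Ω :=
    { toFun := fun w => ⟨w.1, (hMN _).1 w.2⟩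
      invFun := fun w => ⟨w.1, (hMN _).2 w.2⟩
      left_inv := fun w => rfl
      right_inv := fun w => rfl
      map_mul' := fun w w' => rfl
      map_add' := fun w w' => rfl }
  refine ⟨_, M, inferInstance, inferInstance, inferInstance, inferInstance, inferInstance,
    inferInstance, _, ⟨Y0, hYM⟩, eqv, hrat, fun a δ ha hδ => ?_, fun c => rfl, rfl, hY0⟩
  obtain ⟨x', hx'⟩ : ∃ x' : IntermediateField.adjoin (algebraicClosure k Ω) {algebraMap F Ω x},
    x' = ⟨algebraMap F Ω x, IntermediateField.mem_adjoin_simple_self _ _⟩ := ⟨_, rfl⟩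
  rw [← hx'] at hrat ⊢
  have hxa : x' - algebraMap (algebraicClosure k Ω) _ a ≠ 0 := by
    intro h0
    apply hrat.trans
    rw [sub_eq_zero.1 h0]
    exact isAlgebraic_algebraMap a
  have hδ0 : δ ≠ 0 := by
    rintro rfl
    rw [zero_pow two_ne_zero, zero_mul] at hδ
    exact hdκ hδ.symm
  have hx'Ω : algebraMap (IntermediateField.adjoin (algebraicClosure k Ω) {algebraMap F Ω x}) Ω
      x' = algebraMap F Ω x := by rw [hx']; rfl
  have hxaΩ : algebraMap F Ω x - algebraMap (algebraicClosure k Ω) Ω a ≠ 0 := by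
    have h1 := (_root_.map_ne_zero (algebraMap (IntermediateField.adjoin (algebraicClosure k Ω)
      {algebraMap F Ω x}) Ω)).2 hxa
    rwa [map_sub, hx'Ω, ← IsScalarTower.algebraMap_apply] at h1
  have htΩ : algebraMap (IntermediateField.adjoin (algebraicClosure k Ω) {algebraMap F Ω x}) Ω
      (x' - algebraMap (algebraicClosure k Ω) _ a)⁻¹ =
      (algebraMap F Ω x - algebraMap (algebraicClosure k Ω) Ω a)⁻¹ := by
    rw [map_inv₀, map_sub, hx'Ω, ← IsScalarTower.algebraMap_apply]
  obtain ⟨c, hc⟩ : ∃ c : IntermediateField.adjoin (algebraicClosure k Ω) {algebraMap F Ω x},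
      c = algebraMap (algebraicClosure k Ω) _ δ *
        (x' - algebraMap (algebraicClosure k Ω) _ a)⁻¹ ^ 3 := ⟨_, rfl⟩
  have hc0 : c ≠ 0 := by
    rw [hc]
    exact mul_ne_zero ((_root_.map_ne_zero _).2 hδ0) (pow_ne_zero _ (inv_ne_zero hxa))
  have hadj := adjoin_mul (Ω := Ω) (Y := Y0) hc0
  have hYt : (algebraMap _ Ω c * Y0) ^ 2 = ∏ e ∈ B5 a, (algebraMap
      (IntermediateField.adjoin (algebraicClosure k Ω) {algebraMap F Ω x}) Ω
      (x' - algebraMap (algebraicClosure k Ω) _ a)⁻¹ - algebraMap (algebraicClosure k Ω) Ω e) := by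
    rw [htΩ, prod_B5 (notMem_T5 ha) hxaΩ, ← hdY, hc, map_mul, map_pow, htΩ,
      ← IsScalarTower.algebraMap_apply]
    have h1 : algebraMap k Ω d = algebraMap (algebraicClosure k Ω) Ω δ ^ 2 *
        algebraMap (algebraicClosure k Ω) Ω (a ^ 5 - a) := by
      rw [IsScalarTower.algebraMap_apply k (algebraicClosure k Ω) Ω, ← hδ, map_mul, map_pow]
    have h2 : algebraMap (algebraicClosure k Ω) Ω (a ^ 5 - a) ≠ 0 := (_root_.map_ne_zero _).2 ha
    rw [h1]
    generalize algebraMap (algebraicClosure k Ω) Ω (a ^ 5 - a) = A at h2 ⊢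
    field_simp
  have hYtM : algebraMap _ Ω c * Y0 ∈ M := mul_mem (M.algebraMap_mem c) hYM
  have hcov := a_cov 2 (algebraicClosure k Ω) _ Ω _ (ratF_inv hrat a) (B5 a)
    (by rw [card_B5 (notMem_T5 ha)]; norm_num) (by rw [card_B5 (notMem_T5 ha)]; norm_num)
    (algebraMap _ Ω c * Y0) hYt M (by
      rw [hadj]
      exact hM) ⟨_, hYtM⟩ rfl
  have e : (⟨_, hYtM⟩ : M) = algebraMap (algebraicClosure k Ω) M δ * ⟨Y0, hYM⟩ *
      algebraMap _ M (x' - algebraMap (algebraicClosure k Ω) _ a)⁻¹ ^ 3 := by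
    apply Subtype.ext
    change algebraMap _ Ω c * Y0 =
      (δ : Ω) * Y0 * (algebraMap _ Ω (x' - algebraMap (algebraicClosure k Ω) _ a)⁻¹) ^ 3
    rw [hc, map_mul, map_pow, ← IsScalarTower.algebraMap_apply]
    change (δ : Ω) * _ * Y0 = (δ : Ω) * Y0 * _
    ring
  rw [e] at hcov
  exact hcov

end

end Pool.Agent.K3h82.BT
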