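import Pool.Agent.K3h82.BT.Good
import Pool.Agent.K3h82.BT.KumG
import Pool.Agent.Y158.FQ.Ine
import Pool.Agent.Y158.GR.Prb

/-!
# The inertia groups at the places of potentially good reduction
-/

set_option autoImplicit false
set_option linter.all false

open Polynomial FF Pool.Agent.Y157.PS IsDedekindDomain NumberField

namespace Pool.Agent.K3h82.BT

open Pool.Agent.Y158.GR
open Pool.Agent.Y158.FQ (exists_below wgt_of)

variable {K κ : Type} [Field K] [NumberField K] [Field κ] [Algebra K κ] [IsAlgClosure K κ]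
  {R M : Type} [Field R] [Field M] [Algebra κ R] [Algebra R M] [Algebra κ M]
  [IsScalarTower κ R M] {x' : R} {y' : M}

/-- the covering fields in all coordinates -/
def AllCov (κ R M : Type) [Field κ] [Field R] [Field M] [Algebra κ R] [Algebra R M] [Algebra κ M]
    [IsScalarTower κ R M] (x' : R) (y' : M) (d : κ) : Prop :=
  ∀ a δ : κ, a ^ 5 - a ≠ 0 → δ ^ 2 * (a ^ 5 - a) = d →
    Cov 2 κ R M (x' - algebraMap κ R a)⁻¹ (B5 a)
      (algebraMap κ M δ * y' * algebraMap R M (x' - algebraMap κ R a)⁻¹ ^ 3)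

/-- inertia elements fix the roots of unity of order prime to the residue characteristic -/
theorem ine_root8 {V : ValuationSubring κ} (h2 : IsU V ((2 : ℕ) : κ)) {a : κ} (ha : a ^ 8 = 1)
    {σ : κ ≃ₐ[K] κ} (hσ : Ine V σ) : σ a = a := by
  have hU : IsU V a := Pool.Agent.Y748.PS.isU_of_pow (m := 8) (by norm_num)
    (by rw [ha]; exact Pool.Agent.Y748.PS.isU_one)
  have h8 : IsU V ((8 : ℕ) : κ) := by
    have h5 : ((8 : ℕ) : κ) = ((2 : ℕ) : κ) * (((2 : ℕ) : κ) * ((2 : ℕ) : κ)) := by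
      push_cast; norm_num
    rw [h5]
    exact Pool.Agent.Y748.PS.isU_mul h2 (Pool.Agent.Y748.PS.isU_mul h2 h2)
  have h1 := hσ.2 a hU.2.1
  have ha0 := hU.1
  have h3 : σ a / a - 1 = a⁻¹ * (σ a - a) := by field_simp
  have h4 := Pool.Agent.Y748.PS.rou_eq_one h8 (z := σ a / a)
    (by rw [div_pow, ← map_pow, ha, map_one, div_one])
    (by rw [h3]; exact Pool.Agent.Y748.PS.nu_mul hU.2.2 h1)
  exact (div_eq_one_iff_eq ha0).1 h4

/-- **the inertia group at a place which does not divide `2` where `d` has even valuation** -/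
theorem ine5 (hrat : RatF κ x') {d : K} (hd : d ≠ 0) (hC : AllCov κ R M x' y' (algebraMap K κ d))
    {s : (κ ≃ₐ[K] κ) →* RingAut M} (hs : Sec K κ R M x' y' (1 : κ) s)
    {v : HeightOneSpectrum (𝓞 K)} {V : ValuationSubring κ} (hV : Above v V)
    (h2 : (2 : 𝓞 K) ∉ v.asIdeal)
    (hev : ∃ t : WithZero (Multiplicative ℤ), v.valuation K d = t ^ 2) :
    ∃ (a : κ) (O : ValuationSubring M), a ^ 4 = -1 ∧ (∀ σ : κ ≃ₐ[K] κ, Ine V σ → σ a = a) ∧
      Gauss V (algebraMap R M (x' - algebraMap κ R a)⁻¹) O ∧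
      (∀ σ : κ ≃ₐ[K] κ, Ine V σ → ∀ z ∈ O, s σ z - z ∈ O.nonunits) ∧
      ∀ σ : κ ≃ₐ[K] κ, Ine V σ → ∀ c : M ≃ₐ[R] M, s σ = cjA c s σ := by
  haveI h2p : Fact (Nat.Prime 2) := ⟨Nat.prime_two⟩
  have halg : Algebra.IsAlgebraic K κ := IsAlgClosure.isAlgebraic
  haveI : IsAlgClosed κ := IsAlgClosure.isAlgClosed K
  haveI : CharZero κ := charZero_of_injective_algebraMap (algebraMap K κ).injective
  haveI : Normal K κ := IsAlgClosure.normal K κ
  have h2V := two_unit hV h2
  obtain ⟨a, ha⟩ := IsAlgClosed.exists_pow_nat_eq (-1 : κ) (n := 4) (by norm_num)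
  have haU : IsU V a := Pool.Agent.Y748.PS.isU_of_pow (m := 4) (by norm_num)
    (by rw [ha]; exact isU_neg Pool.Agent.Y748.PS.isU_one)
  have ha5 : a ^ 5 - a = -(((2 : ℕ) : κ) * a) := by
    push_cast
    linear_combination a * ha
  have ha5U : IsU V (a ^ 5 - a) := by
    rw [ha5]
    exact isU_neg (Pool.Agent.Y748.PS.isU_mul h2V haU)
  have ha50 : a ^ 5 - a ≠ 0 := ha5U.1
  have ha8 : a ^ 8 = 1 := by
    have : a ^ 8 = (a ^ 4) ^ 2 := by ring
    rw [this, ha]
    norm_num
  have hσa : ∀ σ : κ ≃ₐ[K] κ, Ine V σ → σ a = a := fun σ hσ => ine_root8 h2V ha8 hσ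
  have hdκ : algebraMap K κ d ≠ 0 := (_root_.map_ne_zero _).2 hd
  obtain ⟨δ, hδ'⟩ := IsAlgClosed.exists_pow_nat_eq (algebraMap K κ d / (a ^ 5 - a)) two_pos
  have hδ : δ ^ 2 * (a ^ 5 - a) = algebraMap K κ d := by rw [hδ', div_mul_cancel₀ _ ha50]
  have hδ0 : δ ≠ 0 := by
    rintro rfl
    rw [zero_pow two_ne_zero, zero_mul] at hδ
    exact hdκ hδ.symm
  have hCov := hC a δ ha50 hδ
  -- the field `E`
  let E : IntermediateField K κ := IntermediateField.adjoin K {a}
  have haE : a ∈ E := IntermediateField.mem_adjoin_simple_self K a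
  haveI hEfin : FiniteDimensional K E :=
    IntermediateField.adjoin.finiteDimensional (halg.isAlgebraic a).isIntegral
  haveI : NumberField E := NumberField.of_module_finite K E
  haveI : IsAlgClosure E κ := ⟨inferInstance, Algebra.IsAlgebraic.tower_top (K := K) E⟩
  obtain ⟨q, hqv, hq0⟩ : ∃ q : 𝓞 K, q ∈ v.asIdeal ∧ q ≠ 0 := by
    obtain ⟨q, hq, hq0⟩ := Submodule.exists_mem_ne_zero_of_ne_bot v.ne_bot
    exact ⟨q, hq, hq0⟩
  obtain ⟨v', hv'⟩ := exists_below (E := E) V (algebraMap (𝓞 K) (𝓞 E) q) (by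
    intro h
    apply hq0
    have h1 : algebraMap (𝓞 E) E (algebraMap (𝓞 K) (𝓞 E) q) = 0 := by rw [h, map_zero]
    rw [← IsScalarTower.algebraMap_apply (𝓞 K) (𝓞 E) E,
      IsScalarTower.algebraMap_apply (𝓞 K) K E] at h1
    have h2 := (map_eq_zero _).1 h1
    exact (map_eq_zero_iff _ (FaithfulSMul.algebraMap_injective (𝓞 K) K)).1 h2) (by
    rw [← IsScalarTower.algebraMap_apply (𝓞 K) (𝓞 E) E,
      IsScalarTower.algebraMap_apply (𝓞 K) K E, ← IsScalarTower.algebraMap_apply K E κ]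
    exact hV.ideal q hqv)
  have hℓv : ((2 : ℕ) : 𝓞 E) ∉ v'.asIdeal := by
    rw [hv', map_natCast, map_natCast]
    exact fun h => h2V.not_nonunit h
  obtain ⟨O, hO, hu, hI⟩ := wgt_of (fun b hb => (hv' b).1 hb) hℓv hCov
    (good5 h2V haU.2.1 ha5U)
  -- the restricted action
  let res : (κ ≃ₐ[E] κ) →* (κ ≃ₐ[K] κ) := AlgEquiv.restrictScalarsHom K
  have hres : ∀ τ z, res τ z = τ z := fun τ z => rfl
  have hfixa : ∀ τ : κ ≃ₐ[E] κ, τ a = a := fun τ => τ.commutes ⟨a, haE⟩
  have hsx : ∀ σ : κ ≃ₐ[K] κ, σ a = a → s σ (algebraMap R M (x' - algebraMap κ R a)⁻¹) =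
      algebraMap R M (x' - algebraMap κ R a)⁻¹ := by
    intro σ hσ
    rw [map_inv₀, map_inv₀, map_sub, map_sub, hs.fixx, ← IsScalarTower.algebraMap_apply, hs.const,
      hσ]
  have hsy : ∀ σ : κ ≃ₐ[K] κ, s σ y' = y' := by
    intro σ
    rw [hs.fixy, map_one σ, div_one, map_one, one_mul]
  have hsec : Sec E κ R M (x' - algebraMap κ R a)⁻¹
      (algebraMap κ M δ * y' * algebraMap R M (x' - algebraMap κ R a)⁻¹ ^ 3) δ (s.comp res) := by
    refine ⟨fun τ b => hs.const _ b, fun τ => hsx _ (hfixa τ), fun τ => ?_, fun z => ?_⟩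
    · change s (res τ) _ = _
      rw [map_mul, map_mul, map_pow, hs.const, hsy, hsx _ (hfixa τ), hres, map_div₀]
      have hδM : algebraMap κ M δ ≠ 0 := (_root_.map_ne_zero _).2 hδ0
      field_simp
    · obtain ⟨E1, hE1, hE1'⟩ := hs.cont z
      let b := Module.finBasis K E1
      let T : Set κ := Set.range fun i => ((b i : E1) : κ)
      haveI : Finite T := Set.finite_range _
      refine ⟨IntermediateField.adjoin E T, ?_, fun τ hτ => ?_⟩
      · exact IntermediateField.finiteDimensional_adjoin (S := T)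
          (fun z _ => (halg.isAlgebraic z).isIntegral.tower_top)
      · change s (res τ) z = z
        refine hE1' _ ?_
        rw [IntermediateField.mem_fixingSubgroup_iff] at hτ ⊢
        intro y hy
        rw [hres]
        have h1 : y = ∑ i, (b.repr ⟨y, hy⟩ i) • ((b i : E1) : κ) := by
          have h2 := b.sum_repr ⟨y, hy⟩
          have h3 := congrArg (fun w : E1 => (w : κ)) h2
          simp only [AddSubmonoidClass.coe_finset_sum] at h3
          exact h3.symm
        rw [h1, map_sum]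
        refine Finset.sum_congr rfl fun i _ => ?_
        rw [Algebra.smul_def, map_mul, hτ _ (IntermediateField.subset_adjoin E T ⟨i, rfl⟩)]
        congr 1
        rw [IsScalarTower.algebraMap_apply K E κ]
        exact τ.commutes _
  have hI' := hI δ hδ0 (fun τ hτ => by
    refine sqrt_ine hV h2 hd hev (u := (a ^ 5 - a)⁻¹) (isU_inv' ha5U) (σ := res τ)
      (by rw [hδ', div_eq_mul_inv]) hτ ?_
    rw [map_inv₀, map_sub, map_pow, hres, hfixa]) (s.comp res) hsec
  -- the lift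
  have lift : ∀ σ : κ ≃ₐ[K] κ, Ine V σ → ∃ τ : κ ≃ₐ[E] κ, res τ = σ ∧ Ine V τ := by
    intro σ hσ
    have hσE : ∀ z ∈ E, σ z = z := by
      intro z hz
      have h1 : E ≤ IntermediateField.fixedField (Subgroup.zpowers σ) := by
        rw [IntermediateField.adjoin_le_iff, Set.singleton_subset_iff]
        rw [SetLike.mem_coe, IntermediateField.mem_fixedField_iff]
        intro f hf
        obtain ⟨n, rfl⟩ := Subgroup.mem_zpowers_iff.1 hf
        have h5 : σ ∈ MulAction.stabilizer (κ ≃ₐ[K] κ) a := hσa σ hσ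
        exact (MulAction.stabilizer (κ ≃ₐ[K] κ) a).zpow_mem h5 n
      have h2 := h1 hz
      rw [IntermediateField.mem_fixedField_iff] at h2
      exact h2 _ (Subgroup.mem_zpowers _)
    refine ⟨AlgEquiv.ofRingEquiv (f := (σ : κ ≃+* κ)) (fun z => hσE z z.2), ?_, ?_⟩
    · ext z
      rfl
    · exact hσ
  refine ⟨a, O, ha, hσa, hO, fun σ hσ z hz => ?_, fun σ hσ c => ?_⟩
  · obtain ⟨τ, rfl, hτ⟩ := lift σ hσ
    exact hI' τ hτ z hz
  · obtain ⟨τ, rfl, hτ⟩ := lift σ hσ
    have h3 := comm_of_ine hCov h2V hO hu (Act.of_sec hsec) c (σ := τ) (hI' τ hτ)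
    exact h3

/-- **the parity of the twist of the genus one quotient** -/
theorem par5 (hrat : RatF κ x') {d : K} (hd : d ≠ 0) (hC : AllCov κ R M x' y' (algebraMap K κ d))
    {s : (κ ≃ₐ[K] κ) →* RingAut M} (hs : Sec K κ R M x' y' (1 : κ) s)
    {v : HeightOneSpectrum (𝓞 K)}
    (h2 : (2 : 𝓞 K) ∉ v.asIdeal)
    (hev : ∃ t : WithZero (Multiplicative ℤ), v.valuation K d = t ^ 2) {D : K} (hD : D ≠ 0) {w : M}
    (hw : algebraMap κ M (algebraMap K κ D) * w ^ 2 = algebraMap R M x' ^ 4 - 1)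
    (hsw : ∀ σ, s σ w = w) :
    ∃ t : WithZero (Multiplicative ℤ), v.valuation K D = t ^ 2 := by
  have halg : Algebra.IsAlgebraic K κ := IsAlgClosure.isAlgebraic
  haveI : IsAlgClosed κ := IsAlgClosure.isAlgClosed K
  haveI : CharZero κ := charZero_of_injective_algebraMap (algebraMap K κ).injective
  obtain ⟨V, hV⟩ := exists_above (K := K) κ v
  have h2V := two_unit hV h2
  obtain ⟨a, O, ha, hσa, hO, hI, -⟩ := ine5 hrat hd hC hs hV h2 hev
  have haU : IsU V a := Pool.Agent.Y748.PS.isU_of_pow (m := 4) (by norm_num)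
    (by rw [ha]; exact isU_neg Pool.Agent.Y748.PS.isU_one)
  obtain ⟨η, hη⟩ := IsAlgClosed.exists_pow_nat_eq (algebraMap K κ D) two_pos
  have hDκ : algebraMap K κ D ≠ 0 := (_root_.map_ne_zero _).2 hD
  have hη0 : η ≠ 0 := by
    rintro rfl
    rw [zero_pow two_ne_zero] at hη
    exact hDκ hη.symm
  have hηM : algebraMap κ M η ≠ 0 := (_root_.map_ne_zero _).2 hη0
  obtain ⟨t, ht⟩ : ∃ t : M, t = algebraMap R M (x' - algebraMap κ R a)⁻¹ := ⟨_, rfl⟩
  have hxa : x' - algebraMap κ R a ≠ 0 := by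
    intro h0
    apply hrat.trans
    rw [sub_eq_zero.1 h0]
    exact isAlgebraic_algebraMap a
  have hxaM : algebraMap R M x' - algebraMap κ M a ≠ 0 := by
    have h1 := (_root_.map_ne_zero (algebraMap R M)).2 hxa
    rwa [map_sub, ← IsScalarTower.algebraMap_apply] at h1
  have ht' : t = (algebraMap R M x' - algebraMap κ M a)⁻¹ := by
    rw [ht, map_inv₀, map_sub, ← IsScalarTower.algebraMap_apply]
  have ht0 : t ≠ 0 := by rw [ht']; exact inv_ne_zero hxaM
  have hxt : algebraMap R M x' = algebraMap κ M a + t⁻¹ := by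
    rw [ht', inv_inv]
    ring
  rw [← ht] at hO
  -- the unit
  obtain ⟨U, hU⟩ : ∃ U : M, U = algebraMap κ M η * w * t ^ 2 := ⟨_, rfl⟩
  have hU2 : U ^ 2 = aeval t ((1 + C a * X) ^ 4 - X ^ 4 : κ[X]) := by
    have h1 : algebraMap κ M η ^ 2 * w ^ 2 = algebraMap R M x' ^ 4 - 1 := by
      rw [← map_pow, hη, hw]
    have h3 : U ^ 2 = (algebraMap κ M η ^ 2 * w ^ 2) * t ^ 4 := by rw [hU]; ring
    rw [h3, h1, hxt, map_sub, map_pow, map_pow, map_add, map_mul, aeval_X, aeval_C, map_one]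
    field_simp
    ring
  have hUU : IsU O U := by
    refine Pool.Agent.Y748.PS.isU_of_pow two_pos ?_
    rw [hU2]
    have hmem : ∀ (P Q : κ[X]), (∀ n, P.coeff n ∈ V) → (∀ n, Q.coeff n ∈ V) →
        ∀ n, (P * Q).coeff n ∈ V := by
      intro P Q hP hQ n
      rw [coeff_mul]
      exact sum_mem fun ij _ => mul_mem (hP _) (hQ _)
    have hpow : ∀ (P : κ[X]), (∀ n, P.coeff n ∈ V) → ∀ m n, (P ^ m).coeff n ∈ V := by
      intro P hP m
      induction m with
      | zero =>
        intro n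
        rw [pow_zero, coeff_one]
        split_ifs
        · exact one_mem _
        · exact zero_mem _
      | succ m ih =>
        rw [pow_succ]
        exact hmem _ _ ih hP
    have h1 : ∀ n, (1 + C a * X : κ[X]).coeff n ∈ V := by
      intro n
      rw [coeff_add, coeff_one, coeff_C_mul, coeff_X]
      refine add_mem ?_ (mul_mem haU.2.1 ?_)
      · split_ifs
        · exact one_mem _
        · exact zero_mem _
      · split_ifs
        · exact one_mem _
        · exact zero_mem _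
    have h3 : ∀ n, (X : κ[X]).coeff n ∈ V := by
      intro n
      rw [coeff_X]
      split_ifs
      · exact one_mem _
      · exact zero_mem _
    refine hO.2 _ (fun n => ?_) ⟨0, ?_⟩
    · rw [coeff_sub]
      exact sub_mem (hpow _ h1 4 n) (hpow _ h3 4 n)
    · rw [coeff_sub, coeff_zero_eq_eval_zero, coeff_zero_eq_eval_zero]
      simp only [eval_pow, eval_add, eval_one, eval_mul, eval_C, eval_X, mul_zero, add_zero,
        one_pow]
      rw [zero_pow (by norm_num), sub_zero]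
      exact Pool.Agent.Y748.PS.isU_one
  have hfix : ∀ σ : κ ≃ₐ[K] κ, Ine V σ → σ η = η := by
    intro σ hσ
    have hst : s σ t = t := by
      rw [ht', map_inv₀, map_sub, hs.fixx, hs.const, hσa σ hσ]
    have h1 := hI σ hσ U hUU.2.1
    have h3 : s σ U - U = U * algebraMap κ M (σ η / η - 1) := by
      rw [hU, map_mul, map_mul, map_pow, hs.const, hsw, hst, map_sub (algebraMap κ M),
        map_div₀ (algebraMap κ M), map_one]
      field_simp
    rw [h3] at h1
    have h4 := non_of_isU_mul hUU h1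
    rw [hO.nonunit] at h4
    have h5 : (σ η / η) ^ 2 = 1 := by
      rw [div_pow, ← map_pow, hη, σ.commutes, div_self hDκ]
    have h6 := Pool.Agent.Y748.PS.rou_eq_one h2V h5 h4
    exact (div_eq_one_iff_eq hη0).1 h6
  obtain ⟨t', ht'⟩ := hV.pow (ℓ := 2) (by exact_mod_cast h2) hη0 hfix hη.symm
  exact ⟨_, ht'⟩

end Pool.Agent.K3h82.BT
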