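import Pool.Agent.K3h82.BT.Loc

/-!
# Units of a valuation ring and the formulas on the curve `D W ^ 2 = X ^ 3 - X`
-/

set_option autoImplicit false
set_option linter.all false

namespace Pool.Agent.K3h82.BT

variable {L : Type} [Field L]

section

variable {O : ValuationSubring L}

theorem unit_of_mul {a b : L} (ha : O.valuation a ≤ 1) (hb : O.valuation b ≤ 1)
    (hab : O.valuation (a * b) = 1) : O.valuation a = 1 ∧ O.valuation b = 1 := by
  rw [map_mul] at hab
  have h1 : O.valuation a = 1 := by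
    refine le_antisymm ha ?_
    rw [← hab]
    exact mul_le_of_le_one_right' hb
  refine ⟨h1, ?_⟩
  rwa [h1, one_mul] at hab

theorem vadd {a b : L} (ha : O.valuation a ≤ 1) (hb : O.valuation b ≤ 1) :
    O.valuation (a + b) ≤ 1 := Valuation.map_add_le _ ha hb

theorem vsub {a b : L} (ha : O.valuation a ≤ 1) (hb : O.valuation b ≤ 1) :
    O.valuation (a - b) ≤ 1 := Valuation.map_sub_le _ ha hb

theorem vmul {a b : L} (ha : O.valuation a ≤ 1) (hb : O.valuation b ≤ 1) :
    O.valuation (a * b) ≤ 1 := by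
  rw [map_mul]
  exact mul_le_one' ha hb

theorem vpow {a : L} {n : ℕ} (hn : n ≠ 0) (ha : O.valuation (a ^ n) = 1) : O.valuation a = 1 := by
  rw [map_pow] at ha
  exact (pow_eq_one_iff_of_nonneg zero_le hn).1 ha

theorem vpow_le {a : L} {n : ℕ} (hn : n ≠ 0) (ha : O.valuation (a ^ n) ≤ 1) :
    O.valuation a ≤ 1 := by
  rw [map_pow] at ha
  exact (pow_le_one_iff hn).1 ha

theorem vdiv {a b : L} (ha : O.valuation a = 1) (hb : O.valuation b = 1) :
    O.valuation (a / b) = 1 := by
  rw [map_div₀, ha, hb, div_one]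

end

/-- the numbers `X`, `X - 1`, `X + 1`, `X - j`, `X + j` are units -/
structure Inv (O : ValuationSubring L) (j X : L) : Prop where
  a : O.valuation X = 1
  b : O.valuation (X - 1) = 1
  c : O.valuation (X + 1) = 1
  d : O.valuation (X - j) = 1
  e : O.valuation (X + j) = 1

variable {j : L} (hj : j ^ 2 = -1)

include hj

theorem jval (O : ValuationSubring L) : O.valuation j = 1 := by
  apply vpow two_ne_zero
  rw [hj, Valuation.map_neg, map_one]

theorem onej {O : ValuationSubring L} (h2 : O.valuation 2 = 1) :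
    O.valuation (1 + j) = 1 ∧ O.valuation (1 - j) = 1 := by
  have hj1 := jval hj O
  refine unit_of_mul (vadd (map_one _).le hj1.le) (vsub (map_one _).le hj1.le) ?_
  have : (1 + j) * (1 - j) = 2 := by linear_combination -hj
  rw [this, h2]

/-- case 1: `D X` is a square -/
theorem Inv.case1 {O : ValuationSubring L} (h2 : O.valuation 2 = 1) {X X' : L} (h : Inv O j X)
    (hX' : X' ^ 2 - 1 = 2 * j * X * X') : Inv O j X' := by
  have hj1 := jval hj O
  have h2j : O.valuation (2 * j * X) = 1 := by rw [map_mul, map_mul, h2, hj1, h.a]; simp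
  have key : ∀ {Z : L}, O.valuation (Z ^ 2 - 1) ≤ O.valuation Z → O.valuation Z ≤ 1 := by
    intro Z hZ
    by_contra hc
    push Not at hc
    have h3 : O.valuation (Z ^ 2) ≤ max (O.valuation (Z ^ 2 - 1)) (O.valuation 1) := by
      have := Valuation.map_add O.valuation (Z ^ 2 - 1) 1
      rwa [sub_add_cancel] at this
    rw [map_one, map_pow] at h3
    have h4 : O.valuation Z ^ 2 ≤ O.valuation Z := h3.trans (max_le hZ hc.le)
    have h5 : O.valuation Z < O.valuation Z ^ 2 := by
      have h0 : (0 : O.ValueGroup) < O.valuation Z := lt_trans zero_lt_one hc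
      rw [sq]
      exact (lt_mul_iff_one_lt_left h0).2 hc
    exact absurd h4 (not_le.2 h5)
  have hX1 : O.valuation X' ≤ 1 := by
    apply key
    rw [hX', map_mul, h2j, one_mul]
  have hX0 : X' * (X' - 2 * j * X) = 1 := by linear_combination hX'
  obtain ⟨h3, -⟩ := unit_of_mul hX1 (vsub hX1 h2j.le) (by rw [hX0, map_one])
  have h4 : O.valuation ((X' - 1) * (X' + 1)) = 1 := by
    have : (X' - 1) * (X' + 1) = 2 * j * X * X' := by linear_combination hX'
    rw [this, map_mul, h2j, h3, one_mul]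
  obtain ⟨h5, h6⟩ := unit_of_mul (vsub h3.le (map_one _).le) (vadd h3.le (map_one _).le) h4
  refine ⟨h3, h5, h6, ?_, ?_⟩
  · apply vpow two_ne_zero
    have : (X' - j) ^ 2 = 2 * j * X' * (X - 1) := by linear_combination hX' + hj
    rw [this, map_mul, map_mul, map_mul, h2, hj1, h3, h.b]
    simp
  · apply vpow two_ne_zero
    have : (X' + j) ^ 2 = 2 * j * X' * (X + 1) := by linear_combination hX' + hj
    rw [this, map_mul, map_mul, map_mul, h2, hj1, h3, h.c]
    simp

/-- translation by `(1, 0)` -/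
theorem Inv.caseZ {O : ValuationSubring L} (h2 : O.valuation 2 = 1) {X : L} (h : Inv O j X) :
    Inv O j ((X + 1) / (X - 1)) := by
  have hj1 := jval hj O
  have hX1 : X - 1 ≠ 0 := by
    intro h0
    have := h.b
    rw [h0, map_zero] at this
    exact zero_ne_one this
  obtain ⟨h3, h4⟩ := onej hj h2
  refine ⟨vdiv h.c h.b, ?_, ?_, ?_, ?_⟩
  · have : (X + 1) / (X - 1) - 1 = 2 / (X - 1) := by field_simp; ring
    rw [this]
    exact vdiv h2 h.b
  · have : (X + 1) / (X - 1) + 1 = 2 * X / (X - 1) := by field_simp; ring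
    rw [this]
    exact vdiv (by rw [map_mul, h2, h.a, one_mul]) h.b
  · have : (X + 1) / (X - 1) - j = (1 - j) * (X + j) / (X - 1) := by
      field_simp
      linear_combination hj
    rw [this]
    exact vdiv (by rw [map_mul, h4, h.e, one_mul]) h.b
  · have : (X + 1) / (X - 1) + j = (1 + j) * (X - j) / (X - 1) := by
      field_simp
      linear_combination hj
    rw [this]
    exact vdiv (by rw [map_mul, h3, h.d, one_mul]) h.b

/-- translation by the point `(j, 1 - j)` of `W ^ 2 = X ^ 3 - X` -/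
theorem Inv.caseT {O : ValuationSubring L} (h2 : O.valuation 2 = 1) {X W : L} (h : Inv O j X)
    (hW : W ^ 2 = X ^ 3 - X) :
    Inv O j ((j * W + (1 - j) * X) ^ 2 / (j * X * (X - j) ^ 2)) := by
  have hj1 := jval hj O
  obtain ⟨h3, h4⟩ := onej hj h2
  have h20 : (2 : L) ≠ 0 := by
    intro h0
    rw [h0, map_zero] at h2
    exact zero_ne_one h2
  have hj0 : j ≠ 0 := by
    intro h0
    rw [h0, map_zero] at hj1
    exact zero_ne_one hj1
  have hX0 : X ≠ 0 := by
    intro h0
    have := h.a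
    rw [h0, map_zero] at this
    exact zero_ne_one this
  have hXj : X - j ≠ 0 := by
    intro h0
    have := h.d
    rw [h0, map_zero] at this
    exact zero_ne_one this
  have hW1 : O.valuation W ≤ 1 := by
    apply vpow_le two_ne_zero
    rw [hW]
    exact vsub (by rw [map_pow, h.a, one_pow]) h.a.le
  have hden : O.valuation (j * (X - j) ^ 2) = 1 := by rw [map_mul, map_pow, hj1, h.d]; simp
  have hq : O.valuation (X ^ 2 + 1) = 1 := by
    have : X ^ 2 + 1 = (X - j) * (X + j) := by linear_combination hj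
    rw [this, map_mul, h.d, h.e, one_mul]
  have hc1 : O.valuation (1 : L) ≤ 1 := (map_one _).le
  have hX2 : O.valuation (X ^ 2) ≤ 1 := by rw [map_pow, h.a, one_pow]
  have h2X : O.valuation (2 * X) ≤ 1 := vmul h2.le h.a.le
  have hden0 : j * (X - j) ^ 2 ≠ 0 := mul_ne_zero hj0 (pow_ne_zero _ hXj)
  have hden1 : j * X * (X - j) ^ 2 ≠ 0 := mul_ne_zero (mul_ne_zero hj0 hX0) (pow_ne_zero _ hXj)
  have e0 : (j * W + (1 - j) * X) ^ 2 / (j * X * (X - j) ^ 2) =
      (1 - X ^ 2 - 2 * j * X + 2 * (1 + j) * W) / (j * (X - j) ^ 2) := by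
    rw [div_eq_div_iff hden1 hden0]
    linear_combination (j * (X - j) ^ 2) * ((W ^ 2 - 2 * W * X + X ^ 2) * hj - hW)
  refine ⟨?_, ?_, ?_, ?_, ?_⟩
  · obtain ⟨h5, -⟩ := unit_of_mul (a := j * W + (1 - j) * X) (b := j * W - (1 - j) * X)
      (O := O) (vadd (vmul hj1.le hW1) (vmul h4.le h.a.le))
      (vsub (vmul hj1.le hW1) (vmul h4.le h.a.le)) (by
        have : (j * W + (1 - j) * X) * (j * W - (1 - j) * X) = -(X * (X - j) ^ 2) := by
          linear_combination (W ^ 2 - X ^ 2 + X) * hj - hW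
        rw [this, Valuation.map_neg, map_mul, map_pow, h.a, h.d]
        simp)
    refine vdiv (by rw [map_pow, h5, one_pow]) ?_
    rw [map_mul, map_mul, map_pow, h.a, h.d, hj1]
    simp
  · obtain ⟨h5, -⟩ := unit_of_mul (a := 1 - 2 * X - X ^ 2 + 2 * W) (b := 1 - 2 * X - X ^ 2 - 2 * W)
      (O := O) (vadd (vsub (vsub hc1 h2X) hX2) (vmul h2.le hW1))
      (vsub (vsub (vsub hc1 h2X) hX2) (vmul h2.le hW1)) (by
        have : (1 - 2 * X - X ^ 2 + 2 * W) * (1 - 2 * X - X ^ 2 - 2 * W) = (X ^ 2 + 1) ^ 2 := by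
          linear_combination (-4) * hW
        rw [this, map_pow, hq, one_pow])
    have : (j * W + (1 - j) * X) ^ 2 / (j * X * (X - j) ^ 2) - 1 =
        (1 + j) * (1 - 2 * X - X ^ 2 + 2 * W) / (j * (X - j) ^ 2) := by
      rw [e0, div_sub_one hden0]
      congr 1
      linear_combination (2 * X - j) * hj
    rw [this]
    exact vdiv (by rw [map_mul, h3, h5, one_mul]) hden
  · obtain ⟨h5, -⟩ := unit_of_mul (a := 1 + 2 * X - X ^ 2 + 2 * j * W)
      (b := 1 + 2 * X - X ^ 2 - 2 * j * W)
      (O := O) (vadd (vsub (vadd hc1 h2X) hX2) (vmul (vmul h2.le hj1.le) hW1))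
      (vsub (vsub (vadd hc1 h2X) hX2) (vmul (vmul h2.le hj1.le) hW1)) (by
        have : (1 + 2 * X - X ^ 2 + 2 * j * W) * (1 + 2 * X - X ^ 2 - 2 * j * W) =
            (X ^ 2 + 1) ^ 2 := by
          linear_combination 4 * hW - 4 * W ^ 2 * hj
        rw [this, map_pow, hq, one_pow])
    have : (j * W + (1 - j) * X) ^ 2 / (j * X * (X - j) ^ 2) + 1 =
        (1 - j) * (1 + 2 * X - X ^ 2 + 2 * j * W) / (j * (X - j) ^ 2) := by
      rw [e0, div_add_one hden0]
      congr 1
      linear_combination (2 * W - 2 * X + j) * hj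
    rw [this]
    exact vdiv (by rw [map_mul, h4, h5, one_mul]) hden
  · obtain ⟨h5, -⟩ := unit_of_mul (a := W - (1 + j) * X) (b := W + (1 + j) * X)
      (O := O) (vsub hW1 (vmul h3.le h.a.le)) (vadd hW1 (vmul h3.le h.a.le)) (by
        have : (W - (1 + j) * X) * (W + (1 + j) * X) = X * (X - j) ^ 2 := by
          linear_combination hW - (X ^ 2 + X) * hj
        rw [this, map_mul, map_pow, h.a, h.d]
        simp)
    have : (j * W + (1 - j) * X) ^ 2 / (j * X * (X - j) ^ 2) - j =
        2 * (1 + j) * (W - (1 + j) * X) / (j * (X - j) ^ 2) := by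
      rw [e0, div_sub' hden0]
      congr 1
      linear_combination (1 - j ^ 2 - X ^ 2 + 2 * j * X + 2 * X) * hj
    rw [this]
    exact vdiv (by rw [map_mul, map_mul, h2, h3, h5]; simp) hden
  · obtain ⟨h5, -⟩ := unit_of_mul (a := 1 - X ^ 2 + (1 + j) * W) (b := 1 - X ^ 2 - (1 + j) * W)
      (O := O) (vadd (vsub hc1 hX2) (vmul h3.le hW1)) (vsub (vsub hc1 hX2) (vmul h3.le hW1)) (by
        have : (1 - X ^ 2 + (1 + j) * W) * (1 - X ^ 2 - (1 + j) * W) =
            (X - 1) * (X + 1) * (X - j) ^ 2 := by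
          linear_combination (-2 * j) * hW - (W ^ 2 + X ^ 2 - 1) * hj
        rw [this, map_mul, map_mul, map_pow, h.b, h.c, h.d]
        simp)
    have : (j * W + (1 - j) * X) ^ 2 / (j * X * (X - j) ^ 2) + j =
        2 * (1 - X ^ 2 + (1 + j) * W) / (j * (X - j) ^ 2) := by
      rw [e0, div_add' _ _ _ hden0]
      congr 1
      linear_combination (j ^ 2 - 1 + X ^ 2 - 2 * j * X) * hj
    rw [this]
    exact vdiv (by rw [map_mul, h2, h5]; simp) hden

end Pool.Agent.K3h82.BT
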