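import Pool.Agent.K3h82.BT.Rig5
import Pool.Agent.K3h82.BT.Glue5
import Pool.Agent.K3h82.BT.Gi
import Pool.Agent.Y158.GR.Fer

/-!
# Rigidity of sections of `d y ^ 2 = x ^ 5 - x` which are locally given by a branch point
-/

set_option autoImplicit false
set_option linter.all false

open Polynomial FF Pool.Agent.Y157.PS Pool.Agent.TH954 IsDedekindDomain NumberField

namespace Pool.Agent.K3h82.BT

open Pool.Agent.Y158.GR

theorem cases5 {L : Type} [Field L] {j c : L} (hj : j ^ 2 = -1) (hc : c ^ 5 = c) :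
    c = 0 ∨ c = 1 ∨ c = -1 ∨ c = j ∨ c = -j := by
  have h1 : c * ((c - 1) * ((c + 1) * ((c - j) * (c + j)))) = 0 := by
    linear_combination hc - (c ^ 3 - c) * hj
  rcases mul_eq_zero.1 h1 with h | h
  · exact Or.inl h
  rcases mul_eq_zero.1 h with h | h
  · exact Or.inr (Or.inl (sub_eq_zero.1 h))
  rcases mul_eq_zero.1 h with h | h
  · exact Or.inr (Or.inr (Or.inl (eq_neg_of_add_eq_zero_left h)))
  rcases mul_eq_zero.1 h with h | h
  · exact Or.inr (Or.inr (Or.inr (Or.inl (sub_eq_zero.1 h))))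
  · exact Or.inr (Or.inr (Or.inr (Or.inr (eq_neg_of_add_eq_zero_left h))))

/-- fifth roots are rational over a field with a fourth root of unity -/
theorem rat5 {K L : Type} [Field K] [Field L] [Algebra K L] {ι : K} (hι : ι ^ 2 = -1) {c : L}
    (hc : c ^ 5 = c) : ∃ k : K, k ^ 5 = k ∧ algebraMap K L k = c := by
  have hj : (algebraMap K L ι) ^ 2 = -1 := by rw [← map_pow, hι, map_neg, map_one]
  have h4 : ι ^ 5 = ι := by linear_combination (ι ^ 3 - ι) * hι
  rcases cases5 hj hc with h | h | h | h | h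
  · exact ⟨0, by ring, by rw [h, map_zero]⟩
  · exact ⟨1, by ring, by rw [h, map_one]⟩
  · exact ⟨-1, by ring, by rw [h, map_neg, map_one]⟩
  · exact ⟨ι, h4, h.symm⟩
  · exact ⟨-ι, by rw [Odd.neg_pow (by decide), h4], by rw [h, map_neg]⟩

theorem mem_B5 {κ : Type} [Field κ] {a b : κ} :
    b ∈ B5 a ↔ b = 0 ∨ ∃ e : κ, e ^ 5 = e ∧ b = (e - a)⁻¹ := by
  classical
  unfold B5 shf
  rw [Finset.mem_insert, Finset.mem_image]
  constructor
  · rintro (h | ⟨e, he, h⟩)
    · exact Or.inl h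
    · exact Or.inr ⟨e, mem_T5.1 he, h.symm⟩
  · rintro (h | ⟨e, he, h⟩)
    · exact Or.inl h
    · exact Or.inr ⟨e, mem_T5.2 he, h.symm⟩

section main

variable {K : Type} [Field K] [NumberField K] {F Ω : Type} [Field F] [Field Ω]
  [Algebra K F] [Algebra F Ω] [Algebra K Ω] [IsScalarTower K F Ω] [IsAlgClosed Ω]
  [Algebra.IsAlgebraic F Ω]
  {C Lv : Type} [Field C] [Field Lv] [Algebra Lv C] [Algebra K C] [Algebra K Lv]
  [IsScalarTower K Lv C] [CharZero Lv] [IsAlgClosure Lv C] {ι : K}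

/-- **rigidity** -/
theorem rig5 (hι : ι ^ 2 = -1) {d : K} (hd : d ≠ 0)
    (hinj : ∀ a : K, a ≠ 0 → (∀ v : HeightOneSpectrum (𝓞 K), (2 : 𝓞 K) ∉ v.asIdeal →
      (∃ t : WithZero (Multiplicative ℤ), v.valuation K d = t ^ 2) →
      ∃ t : WithZero (Multiplicative ℤ), v.valuation K a = t ^ 2) →
      (∃ z : Lv, algebraMap K Lv a = z ^ 2) → ∃ b : K, a = b ^ 2)
    (x y : F) (hx : Transcendental K x)
    (hF : IntermediateField.adjoin K {x, y} = (⊤ : IntermediateField K F))
    (hxy : algebraMap K F d * y ^ 2 = x ^ 5 - x)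
    (s : GalSection K F (geomPro 2 K F Ω) (algebraicClosure K Ω))
    (hj : ∀ z, ((s.j z : geomPro 2 K F Ω) : Ω) = (z : Ω)) (p : Plc K (geomPro 2 K F Ω) C)
    (hpv : s.GivenBy Lv p)
    (hpt : p.val (algebraMap F (geomPro 2 K F Ω) x)⁻¹ 0 ∨
      ∃ c : C, c ^ 5 = c ∧ p.val (algebraMap F (geomPro 2 K F Ω) x) c) :
    ∀ σ z, s.s σ z ∈ p.W ↔ z ∈ p.W := by
  classical
  haveI h2p : Fact (Nat.Prime 2) := ⟨Nat.prime_two⟩
  have hac : IsAlgClosure K (algebraicClosure K Ω) := inferInstance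
  have hkb : IsAlgClosed (algebraicClosure K Ω) := hac.1
  have hch : CharZero (algebraicClosure K Ω) :=
    charZero_of_injective_algebraMap (algebraMap K (algebraicClosure K Ω)).injective
  have hkalg : Algebra.IsAlgebraic K (algebraicClosure K Ω) := inferInstance
  have hnorm : Normal K (algebraicClosure K Ω) := IsAlgClosure.normal K _
  have hcC : CharZero C := charZero_of_injective_algebraMap (algebraMap K C).injective
  obtain ⟨R, M, i1, i2, i3, i4, i5, i6, x', y', eqv, hrat, hCall, hc, hx', hy'⟩ :=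
    glue5 (Ω := Ω) x y hx hF hd hxy
  have hcompat := compat_of s hj
  have hSec := sec_of (δ := (1 : algebraicClosure K Ω)) one_ne_zero hc hx' (by
    rw [hy']
    change _ = 1 * algebraMap F Ω y
    rw [one_mul]) s.s s.cont hcompat
  obtain ⟨sA, hsA⟩ : ∃ sA, sA = conjSec eqv s.s := ⟨_, rfl⟩
  rw [← hsA] at hSec
  have hs' : ∀ σ z, eqv (sA σ z) = s.s σ (eqv z) := fun σ z => by
    rw [hsA]; exact conjSec_apply eqv s.s σ z
  have hcj : ∀ c : algebraicClosure K Ω, eqv (algebraMap (algebraicClosure K Ω) M c) = s.j c :=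
    fun c => Subtype.ext ((hc c).trans (hj c).symm)
  have hx0 : eqv (algebraMap R M x') = algebraMap F (geomPro 2 K F Ω) x := Subtype.ext hx'
  have hsy : ∀ σ, sA σ y' = y' := by
    intro σ
    rw [hSec.fixy, map_one σ, div_one, map_one, one_mul]
  -- the coordinate `1 / (x - 2)`
  have h30 : (2 : algebraicClosure K Ω) ^ 5 - 2 ≠ 0 := by norm_num
  have hdκ : algebraMap K (algebraicClosure K Ω) d ≠ 0 := (_root_.map_ne_zero _).2 hd
  obtain ⟨δ, hδ'⟩ := IsAlgClosed.exists_pow_nat_eq (algebraMap K (algebraicClosure K Ω) d /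
    ((2 : algebraicClosure K Ω) ^ 5 - 2)) two_pos
  have hδ : δ ^ 2 * ((2 : algebraicClosure K Ω) ^ 5 - 2) =
    algebraMap K (algebraicClosure K Ω) d := by rw [hδ', div_mul_cancel₀ _ h30]
  have hδ0 : δ ≠ 0 := by
    rintro rfl
    rw [zero_pow two_ne_zero, zero_mul] at hδ
    exact hdκ hδ.symm
  have hC := hCall 2 δ h30 hδ
  obtain ⟨t, ht⟩ : ∃ t : R, t = (x' - algebraMap (algebraicClosure K Ω) R 2)⁻¹ := ⟨_, rfl⟩
  obtain ⟨Y, hY⟩ : ∃ Y : M, Y = algebraMap (algebraicClosure K Ω) M δ * y' *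
    algebraMap R M t ^ 3 := ⟨_, rfl⟩
  rw [← ht, ← hY] at hC
  have hxa : x' - algebraMap (algebraicClosure K Ω) R 2 ≠ 0 := by
    intro h0
    apply hrat.trans
    rw [sub_eq_zero.1 h0]
    exact isAlgebraic_algebraMap _
  have hxaM : algebraMap R M x' - algebraMap (algebraicClosure K Ω) M 2 ≠ 0 := by
    have h1 := (_root_.map_ne_zero (algebraMap R M)).2 hxa
    rwa [map_sub, ← IsScalarTower.algebraMap_apply] at h1
  have htM : algebraMap R M t =
      (algebraMap R M x' - algebraMap (algebraicClosure K Ω) M 2)⁻¹ := by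
    rw [ht, map_inv₀, map_sub, ← IsScalarTower.algebraMap_apply]
  have hst : ∀ σ, sA σ (algebraMap R M t) = algebraMap R M t := by
    intro σ
    rw [htM, map_inv₀, map_sub, hSec.fixx, hSec.const, map_ofNat σ]
  have hAct : Act K (algebraicClosure K Ω) R M t sA := ⟨hSec.const, hst, hSec.cont⟩
  have hsY : ∀ σ, sA σ Y = algebraMap (algebraicClosure K Ω) M (σ δ / δ) * Y := by
    intro σ
    have hδM : algebraMap (algebraicClosure K Ω) M δ ≠ 0 := (_root_.map_ne_zero _).2 hδ0
    rw [hY, map_mul, map_mul, map_pow, hSec.const, hsy, hst, map_div₀]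
    field_simp
  -- the coordinate in the other field
  have hte : eqv (algebraMap R M t) = (algebraMap F (geomPro 2 K F Ω) x - 2)⁻¹ := by
    rw [htM, map_inv₀, map_sub, hx0, map_ofNat (algebraMap (algebraicClosure K Ω) M),
      map_ofNat eqv]
  -- the valuation ring
  have hmem : ∀ z : M, z ∈ p.W.comap (eqv : M →+* geomPro 2 K F Ω) ↔ eqv z ∈ p.W :=
    fun z => Iff.rfl
  have hnon : ∀ z : M, z ∈ (p.W.comap (eqv : M →+* geomPro 2 K F Ω)).nonunits ↔
      eqv z ∈ p.W.nonunits := fun z => comap_non eqv p.W z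
  have hval0 : ∀ z : geomPro 2 K F Ω, p.val z 0 → z ∈ p.W.nonunits := by
    intro z hz
    rw [nonunits_iff]
    refine ⟨hz.mem, ?_⟩
    by_cases h0 : z = 0
    · exact Or.inl h0
    · right
      intro h1
      obtain ⟨c, hc1⟩ := Plc.val_of_mem h1
      have h2 := hz.mul hc1
      rw [mul_inv_cancel₀ h0, zero_mul] at h2
      exact zero_ne_one (h2.unique Plc.val_one)
  have hxN : algebraMap F (geomPro 2 K F Ω) x ≠ 0 := by
    intro h0
    apply hx
    have h1 : x = 0 := (map_eq_zero _).1 h0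
    rw [h1]
    exact isAlgebraic_zero
  have hval2 : p.val (2 : geomPro 2 K F Ω) (2 : C) := by
    have h1 := Plc.val_natCast (pl := p) 2
    push_cast at h1
    exact h1
  -- the value of `t`
  obtain ⟨e, he, hte0⟩ : ∃ e ∈ B5 (2 : algebraicClosure K Ω),
      p.val (eqv (algebraMap R M t - algebraMap (algebraicClosure K Ω) M e)) 0 := by
    rcases hpt with h1 | ⟨c, hc5, h1⟩
    · refine ⟨0, mem_B5.2 (Or.inl rfl), ?_⟩
      · rw [map_zero, sub_zero, hte]
        have h3 := h1.mul (((Plc.val_one (pl := p)).sub (hval2.mul h1)).inv (by norm_num))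
        rw [zero_mul] at h3
        have h4 : (algebraMap F (geomPro 2 K F Ω) x)⁻¹ *
            (1 - 2 * (algebraMap F (geomPro 2 K F Ω) x)⁻¹)⁻¹ =
            (algebraMap F (geomPro 2 K F Ω) x - 2)⁻¹ := by
          rw [← mul_inv]
          congr 1
          rw [mul_sub, mul_one, mul_left_comm, mul_inv_cancel₀ hxN, mul_one]
        rwa [h4] at h3
    · obtain ⟨k, hk5, hk⟩ := rat5 (K := K) hι hc5
      have hc2 : c - 2 ≠ 0 := by
        intro h0
        have h3 : c = 2 := by linear_combination h0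
        rw [h3] at hc5
        norm_num at hc5
      refine ⟨(algebraMap K (algebraicClosure K Ω) k - 2)⁻¹,
        mem_B5.2 (Or.inr ⟨_, by rw [← map_pow, hk5], rfl⟩), ?_⟩
      · rw [map_sub eqv, hte, hcj, map_inv₀ s.j]
        have h3 := ((h1.sub hval2).inv hc2).sub (((Plc.val_alg (pl := p) k).sub hval2).inv
          (by rw [hk]; exact hc2))
        rw [hk, sub_self] at h3
        have h4 : s.j (algebraMap K (algebraicClosure K Ω) k - 2) =
            algebraMap K (geomPro 2 K F Ω) k - 2 := by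
          rw [map_sub, s.j.commutes, map_ofNat s.j]
        rw [h4]
        exact h3
  have hneT : ∀ e : algebraicClosure K Ω,
      algebraMap R M t - algebraMap (algebraicClosure K Ω) M e ≠ 0 := by
    intro e h0
    have h2 : Transcendental (algebraicClosure K Ω) (algebraMap R M t) :=
      (transcendental_algebraMap_iff (algebraMap R M).injective).2 hC.rat.trans
    apply h2
    rw [sub_eq_zero.1 h0]
    exact isAlgebraic_algebraMap _
  obtain ⟨W, hWO, -⟩ := hC.loc (p.W.comap (eqv : M →+* geomPro 2 K F Ω)) (fun c => by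
    rw [hmem, hcj]
    exact (iot_val s p c).mem) (by
    intro htop
    have h1 := hval0 _ hte0
    rw [← hnon, htop, nonunits_iff] at h1
    rcases h1.2 with h3 | h3
    · exact hneT _ h3
    · exact h3 trivial)
  have hWe : 0 < W.ord (algebraMap R M t - algebraMap (algebraicClosure K Ω) M e) := by
    rw [← O_non_iff W (hneT e), hWO, hnon]
    exact hval0 _ hte0
  -- the inertia generator
  obtain ⟨v₁, hv₁⟩ := exists_seven K
  obtain ⟨V₁, hV₁⟩ := exists_above (K := K) (algebraicClosure K Ω) v₁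
  have hv2 : (2 : 𝓞 K) ∉ v₁.asIdeal := by
    intro h2
    apply v₁.isPrime.ne_top
    rw [Ideal.eq_top_iff_one]
    have h3 : (1 : 𝓞 K) = 7 - 3 * 2 := by norm_num
    rw [h3]
    exact sub_mem hv₁ (Ideal.mul_mem_left _ _ h2)
  have hv30 : (30 : 𝓞 K) ∉ v₁.asIdeal := by
    intro h2
    apply v₁.isPrime.ne_top
    rw [Ideal.eq_top_iff_one]
    have h3 : (1 : 𝓞 K) = 13 * 7 - 3 * 30 := by norm_num
    rw [h3]
    exact sub_mem (Ideal.mul_mem_left _ _ hv₁) (Ideal.mul_mem_left _ _ h2)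
  have h2V := two_unit hV₁ hv2
  have h2V' : IsU V₁ (2 : algebraicClosure K Ω) := by
    have h3 : ((2 : ℕ) : algebraicClosure K Ω) = 2 := by push_cast; rfl
    rwa [h3] at h2V
  have h30V : IsU V₁ ((2 : algebraicClosure K Ω) ^ 5 - 2) := by
    have h3 : (2 : algebraicClosure K Ω) ^ 5 - 2 = algebraMap K (algebraicClosure K Ω)
        (algebraMap (𝓞 K) K 30) := by
      rw [map_ofNat (algebraMap (𝓞 K) K), map_ofNat (algebraMap K (algebraicClosure K Ω))]
      norm_num
    rw [h3, hV₁.isU, v₁.valuation_of_algebraMap, v₁.intValuation_eq_one_iff]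
    exact hv30
  obtain ⟨-, hrot, -⟩ := hV₁.wgt (by exact_mod_cast hv2) hC (good5 h2V h2V'.2.1 h30V)
  obtain ⟨c, hcW, hcY⟩ := exists_rot' hC hrot W he hWe
  have hμ : ∀ (σ : algebraicClosure K Ω ≃ₐ[K] algebraicClosure K Ω) (c : algebraicClosure K Ω),
    c ^ 2 = 1 → σ c = c := mu2
  have hB : ∀ (σ : algebraicClosure K Ω ≃ₐ[K] algebraicClosure K Ω),
      ∀ e ∈ B5 (2 : algebraicClosure K Ω), σ e = e := by
    intro σ e he
    rcases mem_B5.1 he with rfl | ⟨e₀, he₀, rfl⟩
    · exact map_zero σ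
    · obtain ⟨k, -, hk⟩ := rat5 (K := K) hι he₀
      rw [map_inv₀, map_sub, map_ofNat σ, ← hk, σ.commutes]
  have hstc : sA = cjA c sA := by
    refine rigid hkalg hC hB hμ hAct (cjA_act c hAct) fun χ hχ1 hχ2 hχ3 hχ4 => ?_
    refine glb2 hinj (p.iot s.j) χ hχ1 hχ2 hχ3 (fun v hv hev => ?_) fun σ hσ => ?_
    · obtain ⟨V, hV⟩ := exists_above (K := K) (algebraicClosure K Ω) v
      obtain ⟨-, -, -, -, -, -, hcomm⟩ := ine5 hrat hd hCall hSec hV hv hev
      exact ⟨V, hV, fun σ hσ => hχ4 σ (hcomm σ hσ c)⟩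
    · refine hχ4 σ (comm_of_fixes' hC hAct hμ W he hWe hcW
        (div_ne_zero ((_root_.map_ne_zero _).2 hδ0) hδ0) (hsY σ) ?_)
      refine fixes_of_O W (sA σ) (σ : _ ≃+* _) (fun b => hAct.const σ b) fun z => ?_
      rw [hWO, hmem, hmem, hs']
      exact given_mem hpv hσ _
  intro σ z
  have h1 : sA σ = cjA c sA σ := by rw [← hstc]
  have h2 := fixes_of_comm hC hAct W he hWe hcW hcY h1
  have h3 := O_of_fixes W (sA σ) h2 (eqv.symm z)
  rw [hWO, hmem, hmem, hs', eqv.apply_symm_apply] at h3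
  exact h3

end main

end Pool.Agent.K3h82.BT
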