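import Pool.Agent.K3h82.BT.SecE
import Pool.Agent.K3h82.BT.RigM
import Pool.Agent.K3h82.BT.GSub

/-!
# The local points of the sections over `ℚ(i)`
-/

set_option autoImplicit false
set_option linter.all false

open Polynomial FF Pool.Agent.Y157.PS Pool.Agent.TH954 IsDedekindDomain NumberField

namespace Pool.Agent.K3h82.BT

open Pool.Agent.Y158.GR
open Pool.Agent.Y158.FQ (adjoin_pair_top)

section

variable {K : Type} [Field K] [NumberField K] {F Ω B : Type} [Field F] [Field Ω] [Field B]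
  [Algebra K F] [Algebra F Ω] [Algebra K Ω] [Algebra K B] [IsScalarTower K F Ω] [IsAlgClosed Ω]
  [Algebra.IsAlgebraic F Ω] [IsAlgClosure K B]
  {C Lv : Type} [Field C] [Field Lv] [Algebra Lv C] [Algebra K C] [Algebra K Lv]
  [IsScalarTower K Lv C] [CharZero Lv] [IsAlgClosure Lv C]

variable {ι : K} {o : Lv → ℤ}

theorem adj_smul {k : K} (hk : k ≠ 0) (x w : F) :
    IntermediateField.adjoin K {x, algebraMap K F k * w} = IntermediateField.adjoin K {x, w} := by
  have hk' : algebraMap K F k ≠ 0 := (_root_.map_ne_zero _).2 hk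
  apply le_antisymm
  · rw [IntermediateField.adjoin_le_iff]
    rintro t (rfl | ht)
    · exact IntermediateField.subset_adjoin K _ (by simp)
    · rw [Set.mem_singleton_iff] at ht
      rw [ht]
      exact mul_mem (IntermediateField.algebraMap_mem _ k)
        (IntermediateField.subset_adjoin K _ (by simp))
  · rw [IntermediateField.adjoin_le_iff]
    rintro t (rfl | ht)
    · exact IntermediateField.subset_adjoin K _ (by simp)
    · rw [Set.mem_singleton_iff] at ht
      have h1 : algebraMap K F k⁻¹ * (algebraMap K F k * w) = w := by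
        rw [map_inv₀, inv_mul_cancel_left₀ hk']
      have h2 := mul_mem (IntermediateField.algebraMap_mem
        (IntermediateField.adjoin K {x, algebraMap K F k * w}) k⁻¹)
        (IntermediateField.subset_adjoin K {x, algebraMap K F k * w}
          (show algebraMap K F k * w ∈ _ by simp))
      rw [h1] at h2
      rw [ht]
      exact h2

/-- **the local point of a section of `D w ^ 2 = x ^ 4 - 1`** -/
theorem secE (hG : Gi K ι) (od : OD Lv (algebraMap K Lv ι) o) (x w : F) (hx : Transcendental K x)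
    (hFx : Algebra.IsAlgebraic (IntermediateField.adjoin K {x}) F) {D : K} (hD : D ≠ 0)
    (hDv : ∀ v : HeightOneSpectrum (𝓞 K), (2 : 𝓞 K) ∉ v.asIdeal → ∃ t, v.valuation K D = t ^ 2)
    (hw : algebraMap K F D * w ^ 2 = x ^ 4 - 1) (N : IntermediateField F Ω)
    (hN : ∀ z ∈ geomPro 2 K (IntermediateField.adjoin K {x, w}) Ω, z ∈ N)
    (s : GalSection K F N B) (p : Plc K N C) (hpv : s.GivenBy Lv p) :
    p.val (algebraMap F N x)⁻¹ 0 ∨ ∃ c : C, c ^ 5 = c ∧ p.val (algebraMap F N x) c := by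
  obtain ⟨k, hk, hc⟩ := cls4 hG D hD hDv
  obtain ⟨D₀, hD₀, hDk⟩ : ∃ D₀, Fr ι D₀ ∧ D = D₀ * k ^ 2 := by
    rcases hc with h | h | h | h
    · exact ⟨1, Or.inl rfl, by rw [h, one_mul]⟩
    · exact ⟨_, Or.inr (Or.inl rfl), h⟩
    · exact ⟨_, Or.inr (Or.inr (Or.inl rfl)), h⟩
    · exact ⟨_, Or.inr (Or.inr (Or.inr rfl)), h⟩
  refine secE0 hG od x (algebraMap K F k * w) hx hFx hD₀ ?_ N ?_ s p hpv
  · rw [← hw, hDk, map_mul, map_pow]
    ring
  · rw [adj_smul hk]
    exact hN

theorem halg_acl {x : F} (hFx : Algebra.IsAlgebraic (IntermediateField.adjoin K {x}) F) :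
    Algebra.IsAlgebraic (IntermediateField.adjoin (algebraicClosure K Ω)
      {algebraMap F Ω x}) Ω := by
  have hm : algebraMap F Ω x ∈ IntermediateField.adjoin (algebraicClosure K Ω)
      {algebraMap F Ω x} := IntermediateField.mem_adjoin_simple_self (algebraicClosure K Ω)
        (algebraMap F Ω x)
  obtain ⟨E, hE⟩ : ∃ E : IntermediateField K Ω, ∀ z, z ∈ E ↔ z ∈ IntermediateField.adjoin
    (algebraicClosure K Ω) {algebraMap F Ω x} :=
    ⟨(IntermediateField.adjoin (algebraicClosure K Ω) {algebraMap F Ω x}).restrictScalars K,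
      fun z => Iff.rfl⟩
  have h1 : Algebra.IsAlgebraic E Ω :=
    Pool.Agent.Y158.FQ.alg_over (k := K) (F := F) (Ω := Ω) (x := x) hFx E ((hE _).2 hm)
  let i : E →+* IntermediateField.adjoin (algebraicClosure K Ω) {algebraMap F Ω x} :=
    { toFun := fun z => ⟨(z : Ω), (hE _).1 z.2⟩
      map_one' := rfl
      map_mul' := fun _ _ => rfl
      map_zero' := rfl
      map_add' := fun _ _ => rfl }
  refine ⟨fun z => ?_⟩
  obtain ⟨q, hq, hqz⟩ := h1.isAlgebraic z
  refine ⟨q.map i, (Polynomial.map_ne_zero_iff i.injective).2 hq, ?_⟩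
  rw [aeval_def, eval₂_map, ← hqz, aeval_def]
  congr 1

/-- **the local point of a section of `d y ^ 2 = x ^ 5 - x`** -/
theorem secK (hG : Gi K ι) (od : OD Lv (algebraMap K Lv ι) o) (x y w : F) (hx : Transcendental K x)
    (hFx : Algebra.IsAlgebraic (IntermediateField.adjoin K {x}) F) {d D : K} (hd : d ≠ 0)
    (hD : D ≠ 0)
    (hodd : ∀ v : HeightOneSpectrum (𝓞 K), (2 : 𝓞 K) ∉ v.asIdeal →
      (∃ t, v.valuation K d = t ^ 2) ∨ ∃ t, v.valuation K D = t ^ 2)
    (hxy : algebraMap K F d * y ^ 2 = x ^ 5 - x)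
    (hw : algebraMap K F D * w ^ 2 = x ^ 4 - 1) (N : IntermediateField F Ω)
    (hN : ∀ z ∈ geomPro 2 K (IntermediateField.adjoin K {x, y}) Ω, z ∈ N)
    (s : GalSection K F N B) (p : Plc K N C) (hpv : s.GivenBy Lv p) :
    p.val (algebraMap F N x)⁻¹ 0 ∨ ∃ c : C, c ^ 5 = c ∧ p.val (algebraMap F N x) c := by
  classical
  haveI h2p : Fact (Nat.Prime 2) := ⟨Nat.prime_two⟩
  have hac : IsAlgClosure K (algebraicClosure K Ω) := inferInstance
  have hkb : IsAlgClosed (algebraicClosure K Ω) := hac.1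
  have hch : CharZero (algebraicClosure K Ω) :=
    charZero_of_injective_algebraMap (algebraMap K (algebraicClosure K Ω)).injective
  have hXt : Transcendental K (algebraMap F Ω x) :=
    (transcendental_algebraMap_iff (R := K) (algebraMap F Ω).injective (a := x)).2 hx
  -- the inclusion of the covering fields
  have halg : Algebra.IsAlgebraic (IntermediateField.adjoin (algebraicClosure K Ω)
      {algebraMap F Ω x}) Ω := halg_acl hFx
  have hdκ : algebraMap K (algebraicClosure K Ω) d ≠ 0 := (_root_.map_ne_zero _).2 hd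
  have hDκ : algebraMap K (algebraicClosure K Ω) D ≠ 0 := (_root_.map_ne_zero _).2 hD
  have hYΩ : algebraMap (algebraicClosure K Ω) Ω (algebraMap K (algebraicClosure K Ω) d) *
      (algebraMap F Ω y) ^ 2 = (algebraMap F Ω x) ^ 5 - algebraMap F Ω x := by
    rw [← IsScalarTower.algebraMap_apply, IsScalarTower.algebraMap_apply K F Ω, ← map_pow,
      ← map_mul, hxy, map_sub, map_pow]
  have hWΩ : algebraMap (algebraicClosure K Ω) Ω (algebraMap K (algebraicClosure K Ω) D) *
      (algebraMap F Ω w) ^ 2 = (algebraMap F Ω x) ^ 4 - 1 := by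
    rw [← IsScalarTower.algebraMap_apply, IsScalarTower.algebraMap_apply K F Ω, ← map_pow,
      ← map_mul, hw, map_sub, map_pow, map_one]
  have hsub : ∀ z : Ω, z ∈ geomPro 2 K (IntermediateField.adjoin K {x, w}) Ω →
      z ∈ geomPro 2 K (IntermediateField.adjoin K {x, y}) Ω := fun z hz =>
    gp_iff.2 (mp_sub (trans_up hXt) halg hdκ hDκ hYΩ hWΩ (gp_iff.1 hz))
  have hwm : algebraMap F Ω w ∈ geomPro 2 K (IntermediateField.adjoin K {x, y}) Ω :=
    hsub _ (gp_iff.2 MP.self)
  refine secE hG od x w hx hFx hD (fun v hv => ?_) hw N (fun z hz => hN z (hsub z hz)) s p hpv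
  rcases hodd v hv with hev | hev
  swap
  · exact hev
  -- the restricted section
  obtain ⟨F₀, hF₀⟩ : ∃ F₀ : IntermediateField K F, F₀ = IntermediateField.adjoin K {x, y} :=
    ⟨_, rfl⟩
  have hxF : x ∈ F₀ := by rw [hF₀]; exact IntermediateField.subset_adjoin K _ (by simp)
  have hyF : y ∈ F₀ := by rw [hF₀]; exact IntermediateField.subset_adjoin K _ (by simp)
  rw [← hF₀] at hN hwm
  obtain ⟨eB, s₀, p₀, hj₀, hpv₀, hs₀, hval, -, hFΩ⟩ :=
    res_sec (ℓ := 2) hx hFx F₀ hxF N hN s p hpv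
  have htop := adjoin_pair_top hF₀ hxF hyF
  have hx0 : Transcendental K (⟨x, hxF⟩ : F₀) := trans_sub hx hxF
  have hxy0 : algebraMap K F₀ d * (⟨y, hyF⟩ : F₀) ^ 2 = (⟨x, hxF⟩ : F₀) ^ 5 - ⟨x, hxF⟩ :=
    Subtype.ext hxy
  obtain ⟨R, M, i1, i2, i3, i4, i5, i6, x', y', eqv, hrat, hCall, hc, hx', hy'⟩ :=
    glue5 (Ω := Ω) (⟨x, hxF⟩ : F₀) ⟨y, hyF⟩ hx0 htop hd hxy0
  have hcompat := compat_of s₀ hj₀
  have hSec := sec_of (δ := (1 : algebraicClosure K Ω)) one_ne_zero hc hx' (by
    rw [hy']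
    change _ = 1 * algebraMap F₀ Ω ⟨y, hyF⟩
    rw [one_mul]) s₀.s s₀.cont hcompat
  refine par5 hrat hd hCall hSec hv hev hD (w := eqv.symm ⟨_, hwm⟩) ?_ fun σ => ?_
  · apply eqv.injective
    apply Subtype.ext
    rw [map_mul, map_pow, map_sub, map_pow, map_one, eqv.apply_symm_apply]
    change ((eqv (algebraMap (algebraicClosure K Ω) M (algebraMap K (algebraicClosure K Ω) D)) :
      geomPro 2 K F₀ Ω) : Ω) * (algebraMap F Ω w) ^ 2 =
        ((eqv (algebraMap R M x') : geomPro 2 K F₀ Ω) : Ω) ^ 4 - 1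
    have e1 : algebraMap F₀ Ω ⟨x, hxF⟩ = algebraMap F Ω x := rfl
    have e2 : ((algebraMap K (algebraicClosure K Ω) D : algebraicClosure K Ω) : Ω) =
      algebraMap (algebraicClosure K Ω) Ω (algebraMap K (algebraicClosure K Ω) D) := rfl
    rw [hc, hx', e1, e2, hWΩ]
  · apply eqv.injective
    rw [conjSec_apply, eqv.apply_symm_apply]
    apply Subtype.ext
    have h1 := hs₀ (AlgEquiv.autCongr eB.symm σ) (algebraMap F N w) ⟨_, hwm⟩ rfl
    have h2 : AlgEquiv.autCongr eB (AlgEquiv.autCongr eB.symm σ) = σ := by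
      ext b
      change ((eB (eB.symm (σ (eB (eB.symm b)))) : algebraicClosure K Ω) : Ω) = _
      rw [eB.apply_symm_apply, eB.apply_symm_apply]
    rw [h2, (s.s _).commutes] at h1
    exact h1

end

end Pool.Agent.K3h82.BT
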