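import Pool.Agent.K3h82.BT.KM
import Pool.Agent.K3h82.BT.KT

/-!
# The local points of the sections over `ℚ(i)`: the other quotients of genus one
-/

set_option autoImplicit false
set_option linter.all false

open Polynomial FF Pool.Agent.Y157.PS Pool.Agent.TH954 IsDedekindDomain NumberField

namespace Pool.Agent.K3h82.BT

open Pool.Agent.Y158.GR
open Pool.Agent.Y158.FQ (adjoin_pair_top)

theorem adj_mob {K F : Type} [Field K] [Field F] [Algebra K F] {e : K} (he : e ^ 4 = 1) {x y : F}
    (h2 : (2 : F) ≠ 0) (hxe : x - algebraMap K F e ≠ 0) :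
    IntermediateField.adjoin K {(x + algebraMap K F e) / (x - algebraMap K F e),
      2 * y / (x - algebraMap K F e) ^ 3} = IntermediateField.adjoin K {x, y} := by
  have he0 : e ≠ 0 := by
    rintro rfl
    norm_num at he
  have heF : algebraMap K F e ≠ 0 := (_root_.map_ne_zero _).2 he0
  obtain ⟨hu1, hxu⟩ := mob_x h2 heF hxe
  apply le_antisymm
  · have hx : x ∈ IntermediateField.adjoin K {x, y} :=
      IntermediateField.subset_adjoin K _ (by simp)
    have hy : y ∈ IntermediateField.adjoin K {x, y} :=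
      IntermediateField.subset_adjoin K _ (by simp)
    have heA : algebraMap K F e ∈ IntermediateField.adjoin K {x, y} :=
      IntermediateField.algebraMap_mem _ e
    have h2A : (2 : F) ∈ IntermediateField.adjoin K {x, y} := by
      have h := IntermediateField.algebraMap_mem (IntermediateField.adjoin K {x, y}) (2 : K)
      rwa [map_ofNat] at h
    rw [IntermediateField.adjoin_le_iff]
    rintro t (rfl | ht)
    · exact div_mem (add_mem hx heA) (sub_mem hx heA)
    · rw [Set.mem_singleton_iff] at ht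
      rw [ht]
      exact div_mem (mul_mem h2A hy) (pow_mem (sub_mem hx heA) 3)
  · obtain ⟨u, hu⟩ : ∃ u, u = (x + algebraMap K F e) / (x - algebraMap K F e) := ⟨_, rfl⟩
    obtain ⟨y', hy'⟩ : ∃ y', y' = 2 * y / (x - algebraMap K F e) ^ 3 := ⟨_, rfl⟩
    rw [← hu] at hu1 hxu
    rw [← hu, ← hy']
    have huA : u ∈ IntermediateField.adjoin K {u, y'} :=
      IntermediateField.subset_adjoin K _ (by simp)
    have hyA : y' ∈ IntermediateField.adjoin K {u, y'} :=
      IntermediateField.subset_adjoin K _ (by simp)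
    have heA : algebraMap K F e ∈ IntermediateField.adjoin K {u, y'} :=
      IntermediateField.algebraMap_mem _ e
    have h2A : (2 : F) ∈ IntermediateField.adjoin K {u, y'} := by
      have h := IntermediateField.algebraMap_mem (IntermediateField.adjoin K {u, y'}) (2 : K)
      rwa [map_ofNat] at h
    have hxA : x ∈ IntermediateField.adjoin K {u, y'} := by
      rw [hxu]
      exact div_mem (mul_mem heA (add_mem huA (one_mem _))) (sub_mem huA (one_mem _))
    rw [IntermediateField.adjoin_le_iff]
    rintro t (rfl | ht)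
    · exact hxA
    · rw [Set.mem_singleton_iff] at ht
      have h3 : t = y' * (x - algebraMap K F e) ^ 3 / 2 := by
        rw [ht, hy']
        field_simp
      rw [h3]
      exact div_mem (mul_mem hyA (pow_mem (sub_mem hxA heA) 3)) h2A

section

variable {K : Type} [Field K] [NumberField K] {F Ω B : Type} [Field F] [Field Ω] [Field B]
  [Algebra K F] [Algebra F Ω] [Algebra K Ω] [Algebra K B] [IsScalarTower K F Ω] [IsAlgClosed Ω]
  [Algebra.IsAlgebraic F Ω] [IsAlgClosure K B]
  {C Lv : Type} [Field C] [Field Lv] [Algebra Lv C] [Algebra K C] [Algebra K Lv]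
  [IsScalarTower K Lv C] [CharZero Lv] [IsAlgClosure Lv C]

variable {ι : K} {o : Lv → ℤ}

/-- units outside two -/
theorem even_unit {e : K} (he : e ^ 4 = 1) {v : HeightOneSpectrum (𝓞 K)}
    (hv : (2 : 𝓞 K) ∉ v.asIdeal) {d : K} (hd : ∃ t, v.valuation K d = t ^ 2) :
    ∃ t, v.valuation K (2 * e * d) = t ^ 2 := by
  obtain ⟨t, ht⟩ := hd
  refine ⟨t, ?_⟩
  have h2 : v.valuation K 2 = 1 := by
    have h3 : (2 : K) = algebraMap (𝓞 K) K 2 := by rw [map_ofNat]
    rw [h3, v.valuation_of_algebraMap, v.intValuation_eq_one_iff]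
    exact hv
  have h4 : v.valuation K e = 1 := by
    have h5 : v.valuation K e ^ 4 = 1 := by rw [← map_pow, he, map_one]
    rcases lt_trichotomy (v.valuation K e) 1 with h6 | h6 | h6
    · exact absurd h5 (pow_lt_one₀ zero_le h6 (by norm_num)).ne
    · exact h6
    · exact absurd h5 (one_lt_pow₀ h6 (by norm_num)).ne'
  rw [map_mul, map_mul, h2, h4, one_mul, one_mul, ht]

/-- the local point, by the other genus one quotients -/
theorem secKe (hG : Gi K ι) (od : OD Lv (algebraMap K Lv ι) o) {e : K} (he : e ^ 4 = 1) (x y w : F)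
    (hx : Transcendental K x)
    (hFx : Algebra.IsAlgebraic (IntermediateField.adjoin K {x}) F) {d D : K} (hd : d ≠ 0)
    (hD : D ≠ 0)
    (hodd : ∀ v : HeightOneSpectrum (𝓞 K), (2 : 𝓞 K) ∉ v.asIdeal →
      (∃ t, v.valuation K d = t ^ 2) ∨ ∃ t, v.valuation K D = t ^ 2)
    (hxy : algebraMap K F d * y ^ 2 = x ^ 5 - x)
    (hw : algebraMap K F D * w ^ 2 = x ^ 3 + (algebraMap K F e) ^ 2 * x) (N : IntermediateField F Ω)
    (hN : ∀ z ∈ geomPro 2 K (IntermediateField.adjoin K {x, y}) Ω, z ∈ N)
    (s : GalSection K F N B) (p : Plc K N C) (hpv : s.GivenBy Lv p) :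
    p.val (algebraMap F N x)⁻¹ 0 ∨ ∃ c : C, c ^ 5 = c ∧ p.val (algebraMap F N x) c := by
  have he0 : e ≠ 0 := by
    rintro rfl
    norm_num at he
  have hchF : CharZero F := charZero_of_injective_algebraMap (algebraMap K F).injective
  have hchC : CharZero C := charZero_of_injective_algebraMap (algebraMap K C).injective
  have h2F : (2 : F) ≠ 0 := two_ne_zero
  have heF : algebraMap K F e ≠ 0 := (_root_.map_ne_zero _).2 he0
  have heF4 : (algebraMap K F e) ^ 4 = 1 := by rw [← map_pow, he, map_one]
  have hxe : x - algebraMap K F e ≠ 0 := by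
    intro h0
    apply hx
    rw [sub_eq_zero.1 h0]
    exact isAlgebraic_algebraMap _
  obtain ⟨hu1, hxu⟩ := mob_x h2F heF hxe
  have hadj := adj_mob (y := y) he h2F hxe
  have hy' := mob_y heF4 hxe hxy
  have hw' := mob_w hxe hw
  obtain ⟨u, hu⟩ : ∃ u, u = (x + algebraMap K F e) / (x - algebraMap K F e) := ⟨_, rfl⟩
  obtain ⟨y', hyy⟩ : ∃ y', y' = 2 * y / (x - algebraMap K F e) ^ 3 := ⟨_, rfl⟩
  obtain ⟨w', hww⟩ : ∃ w', w' = 2 * w / (x - algebraMap K F e) ^ 2 := ⟨_, rfl⟩
  rw [← hu] at hu1 hxu hw' hy' hadj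
  rw [← hyy] at hy' hadj
  rw [← hww] at hw'
  have hut : Transcendental K u := by
    intro h
    apply hx
    rw [hxu, div_eq_mul_inv]
    have h1 : IsAlgebraic K (1 : F) := isAlgebraic_one
    exact ((isAlgebraic_algebraMap e).mul (h.add h1)).mul ((h.sub h1).inv)
  have hFu : Algebra.IsAlgebraic (IntermediateField.adjoin K {u}) F := by
    refine alg_sub hFx (IntermediateField.adjoin K {u}) one_ne_zero ?_
    rw [pow_one]
    rw [hxu]
    have huA : u ∈ IntermediateField.adjoin K {u} := IntermediateField.mem_adjoin_simple_self K u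
    exact div_mem (mul_mem (IntermediateField.algebraMap_mem _ e) (add_mem huA (one_mem _)))
      (sub_mem huA (one_mem _))
  have hu0 : u ≠ 0 := by
    rintro rfl
    exact hut isAlgebraic_zero
  have h1 := secK hG od u y' w' hut hFu (d := 2 * e * d) (D := 2 * e * D)
    (mul_ne_zero (mul_ne_zero two_ne_zero he0) hd) (mul_ne_zero (mul_ne_zero two_ne_zero he0) hD)
    (fun v hv => (hodd v hv).imp (even_unit he hv) (even_unit he hv))
    (by rw [← hy', map_mul, map_mul, map_ofNat]) (by rw [← hw', map_mul, map_mul, map_ofNat]) N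
    (by rw [hadj]; exact hN) s p hpv
  refine mob_val he ((_root_.map_ne_zero _).2 hu0) (u := algebraMap F N u) ?_ two_ne_zero ?_ h1
  · rw [← map_one (algebraMap F N), ← map_sub]
    exact (_root_.map_ne_zero _).2 hu1
  · conv_lhs => rw [hxu]
    rw [map_div₀, map_mul, map_add, map_sub, map_one, ← IsScalarTower.algebraMap_apply]

end

end Pool.Agent.K3h82.BT
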