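import Mathlib

/-!
# Local computations in `ℚ_2(i)`
-/

set_option autoImplicit false
set_option linter.all false

namespace Pool.Agent.K3h82.BT

/-- a discrete valuation `o` with residue field `𝔽_2` and uniformiser `1 + ι`, `ι ^ 2 = -1` -/
structure OD (L : Type) [Field L] (ι : L) (o : L → ℤ) : Prop where
  mul : ∀ x y, x ≠ 0 → y ≠ 0 → o (x * y) = o x + o y
  add : ∀ x y, x ≠ 0 → y ≠ 0 → x + y ≠ 0 → min (o x) (o y) ≤ o (x + y)
  sq : ι ^ 2 = -1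
  lam : o (1 + ι) = 1
  lam0 : 1 + ι ≠ 0
  res : ∀ x, x ≠ 0 → o x = 0 → x ≠ 1 → 1 ≤ o (x - 1)

variable {L : Type} [Field L] {ι : L} {o : L → ℤ} (h : OD L ι o)

include h

theorem OD.one : o 1 = 0 := by
  have := h.mul 1 1 one_ne_zero one_ne_zero
  rw [mul_one] at this
  linarith

theorem OD.sqr {x : L} (hx : x ≠ 0) : o (x ^ 2) = 2 * o x := by
  rw [pow_two, h.mul _ _ hx hx]
  ring

theorem OD.negone : o (-1) = 0 := by
  have h0 : (-1 : L) ≠ 0 := neg_ne_zero.2 one_ne_zero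
  have := h.sqr h0
  rw [neg_one_sq, h.one] at this
  linarith

theorem OD.neg {x : L} (hx : x ≠ 0) : o (-x) = o x := by
  rw [← neg_one_mul, h.mul _ _ (neg_ne_zero.2 one_ne_zero) hx, h.negone, zero_add]

theorem OD.ι0 : ι ≠ 0 := by
  intro h0
  have := h.sq
  rw [h0] at this
  exact neg_ne_zero.2 (one_ne_zero (α := L)) (by rw [← this]; ring)

theorem OD.oι : o ι = 0 := by
  have := h.sqr h.ι0
  rw [h.sq, h.negone] at this
  linarith

theorem OD.two : o 2 = 2 ∧ (2 : L) ≠ 0 := by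
  have e : (2 : L) = -(ι * (1 + ι) ^ 2) := by linear_combination (ι + 2) * h.sq
  have h1 : ι * (1 + ι) ^ 2 ≠ 0 := mul_ne_zero h.ι0 (pow_ne_zero _ h.lam0)
  refine ⟨?_, by rw [e]; exact neg_ne_zero.2 h1⟩
  rw [e, h.neg h1, h.mul _ _ h.ι0 (pow_ne_zero _ h.lam0), h.sqr h.lam0, h.oι, h.lam]
  norm_num

theorem OD.inv {x : L} (hx : x ≠ 0) : o x⁻¹ = -o x := by
  have := h.mul x x⁻¹ hx (inv_ne_zero hx)
  rw [mul_inv_cancel₀ hx, h.one] at this
  linarith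

theorem OD.div {x y : L} (hx : x ≠ 0) (hy : y ≠ 0) : o (x / y) = o x - o y := by
  rw [div_eq_mul_inv, h.mul _ _ hx (inv_ne_zero hy), h.inv hy]
  ring

theorem OD.add_eq {x y : L} (hx : x ≠ 0) (hy : y ≠ 0) (hlt : o x < o y) :
    x + y ≠ 0 ∧ o (x + y) = o x := by
  have h0 : x + y ≠ 0 := by
    intro h0
    rw [eq_neg_of_add_eq_zero_left h0, h.neg hy] at hlt
    exact lt_irrefl _ hlt
  refine ⟨h0, le_antisymm ?_ ?_⟩
  · by_contra hc
    push Not at hc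
    have h1 := h.add (x + y) (-y) h0 (neg_ne_zero.2 hy) (by rw [add_neg_cancel_right]; exact hx)
    rw [add_neg_cancel_right, h.neg hy] at h1
    have := lt_min hc hlt
    linarith
  · have h1 := h.add x y hx hy h0
    rw [min_eq_left hlt.le] at h1
    exact h1

theorem OD.sub_eq {x y : L} (hx : x ≠ 0) (hy : y ≠ 0) (hlt : o x < o y) :
    x - y ≠ 0 ∧ o (x - y) = o x := by
  rw [sub_eq_add_neg]
  exact h.add_eq hx (neg_ne_zero.2 hy) (by rw [h.neg hy]; exact hlt)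

theorem OD.sub_eq' {x y : L} (hx : x ≠ 0) (hy : y ≠ 0) (hlt : o y < o x) :
    x - y ≠ 0 ∧ o (x - y) = o y := by
  have h1 := h.sub_eq hy hx hlt
  have h2 : x - y = -(y - x) := by ring
  rw [h2, h.neg h1.1]
  exact ⟨neg_ne_zero.2 h1.1, h1.2⟩

/-- `x ^ 2 - 1` for `x` which is not a unit -/
theorem OD.A1 {x : L} (hx : x ≠ 0) (ho : o x ≠ 0) : x ^ 2 - 1 ≠ 0 ∧
    (0 < o x → o (x ^ 2 - 1) = 0) ∧ (o x < 0 → o (x ^ 2 - 1) = 2 * o x) := by
  have hx2 : x ^ 2 ≠ 0 := pow_ne_zero _ hx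
  have h2 := h.sqr hx
  rcases lt_or_gt_of_ne ho with hlt | hgt
  · obtain ⟨h3, h4⟩ := h.sub_eq hx2 one_ne_zero (by rw [h.one, h2]; linarith)
    exact ⟨h3, fun h5 => absurd h5 (not_lt.2 hlt.le), fun _ => by rw [h4, h2]⟩
  · obtain ⟨h3, h4⟩ := h.sub_eq' hx2 one_ne_zero (by rw [h.one, h2]; linarith)
    exact ⟨h3, fun _ => by rw [h4, h.one], fun h5 => absurd h5 (not_lt.2 hgt.le)⟩

/-- squares of units -/
theorem OD.A2 {s : L} (hs : s ≠ 0) (ho : o s = 0) (h1 : s ^ 2 ≠ 1) : 2 ≤ o (s ^ 2 - 1) := by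
  have hs1 : s ≠ 1 := by rintro rfl; exact h1 (one_pow 2)
  have hs2 : s ≠ -1 := by rintro rfl; exact h1 (by ring)
  have ha : s - 1 ≠ 0 := sub_ne_zero.2 hs1
  have hb : s + 1 ≠ 0 := by
    intro h0
    exact hs2 (eq_neg_of_add_eq_zero_left h0)
  have e : s ^ 2 - 1 = (s - 1) * (s + 1) := by ring
  have h2 := h.res s hs ho hs1
  have h3 : 1 ≤ o (s + 1) := by
    have h4 := h.add (s - 1) 2 ha h.two.2 (by
      have : s - 1 + 2 = s + 1 := by ring
      rw [this]; exact hb)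
    have h5 : s - 1 + 2 = s + 1 := by ring
    rw [h5, h.two.1] at h4
    exact le_trans (le_min h2 (by norm_num)) h4
  rw [e, h.mul _ _ ha hb]
  linarith

theorem OD.oι1 : ι - 1 ≠ 0 ∧ o (ι - 1) = 1 := by
  have e : ι - 1 = ι * (1 + ι) := by linear_combination -h.sq
  rw [e]
  refine ⟨mul_ne_zero h.ι0 h.lam0, ?_⟩
  rw [h.mul _ _ h.ι0 h.lam0, h.oι, h.lam]
  norm_num

/-- `ι s ^ 2 - 1` for units `s` -/
theorem OD.A3 {s : L} (hs : s ≠ 0) (ho : o s = 0) : ι * s ^ 2 - 1 ≠ 0 ∧ o (ι * s ^ 2 - 1) = 1 := by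
  have e : ι * s ^ 2 - 1 = (ι - 1) + ι * (s ^ 2 - 1) := by ring
  by_cases h1 : s ^ 2 = 1
  · rw [e, h1, sub_self, mul_zero, add_zero]
    exact h.oι1
  · have h2 := h.A2 hs ho h1
    have h3 : s ^ 2 - 1 ≠ 0 := sub_ne_zero.2 h1
    rw [e]
    have h4 := h.add_eq h.oι1.1 (mul_ne_zero h.ι0 h3) (by
      rw [h.oι1.2, h.mul _ _ h.ι0 h3, h.oι]; linarith)
    exact ⟨h4.1, by rw [h4.2, h.oι1.2]⟩

/-- `x` and `x ^ 2 - 1` do not both have odd order -/
theorem OD.L1 {x : L} (hx : x ≠ 0) (ho : Odd (o x)) (ho' : Odd (o (x ^ 2 - 1))) : False := by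
  have h0 : o x ≠ 0 := by
    intro h0
    rw [h0] at ho
    exact absurd ho (by decide)
  obtain ⟨-, h1, h2⟩ := h.A1 hx h0
  rcases lt_or_gt_of_ne h0 with hlt | hgt
  · rw [h2 hlt] at ho'
    exact (Int.not_odd_iff_even.2 (even_two_mul _)) ho'
  · rw [h1 hgt] at ho'
    exact absurd ho' (by decide)

/-- if `x` has odd order then `x ^ 2 - 1` is not `ι` times a square -/
theorem OD.L2 {x s : L} (hx : x ≠ 0) (ho : Odd (o x)) (hs : x ^ 2 - 1 = ι * s ^ 2) : False := by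
  have h0 : o x ≠ 0 := by
    intro h0
    rw [h0] at ho
    exact absurd ho (by decide)
  obtain ⟨h1, h2, h3⟩ := h.A1 hx h0
  have hs0 : s ≠ 0 := by
    rintro rfl
    exact h1 (by rw [hs]; ring)
  have h4 : o (x ^ 2 - 1) = 2 * o s := by
    rw [hs, h.mul _ _ h.ι0 (pow_ne_zero _ hs0), h.oι, h.sqr hs0, zero_add]
  have hx2 := pow_ne_zero 2 hx
  rcases lt_or_gt_of_ne h0 with hlt | hgt
  · -- `o s = o x`
    have h5 : o (s / x) = 0 := by
      rw [h.div hs0 hx]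
      have := h3 hlt
      linarith
    have h6 := h.A3 (div_ne_zero hs0 hx) h5
    have e : ι * (s / x) ^ 2 - 1 = -(x⁻¹) ^ 2 := by
      have : (s / x) ^ 2 = s ^ 2 / x ^ 2 := div_pow _ _ _
      rw [this]
      field_simp
      linear_combination -hs
    rw [e, h.neg (pow_ne_zero _ (inv_ne_zero hx)), h.sqr (inv_ne_zero hx)] at h6
    omega
  · have h5 : o s = 0 := by
      have := h2 hgt
      linarith
    have hιs : ι * s ≠ 0 := mul_ne_zero h.ι0 hs0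
    have h6 := h.A3 hιs (by rw [h.mul _ _ h.ι0 hs0, h.oι, h5]; norm_num)
    have e : ι * (ι * s) ^ 2 - 1 = -x ^ 2 := by
      linear_combination (ι * s ^ 2) * h.sq + hs
    rw [e, h.neg hx2, h.sqr hx] at h6
    omega

/-- if `x` is `ι` times a square then `x ^ 2 - 1` has even order -/
theorem OD.L3 {x s : L} (hx : x ≠ 0) (hs : x = ι * s ^ 2) (ho : Odd (o (x ^ 2 - 1))) : False := by
  have hs0 : s ≠ 0 := by
    rintro rfl
    exact hx (by rw [hs]; ring)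
  by_cases h0 : o x = 0
  · have h1 : o s = 0 := by
      have h2 := h.mul ι (s ^ 2) h.ι0 (pow_ne_zero _ hs0)
      rw [← hs, h0, h.oι, h.sqr hs0] at h2
      linarith
    obtain ⟨h2, h3⟩ := h.A3 hs0 h1
    rw [← hs] at h2 h3
    have h4 := h.add_eq h2 h.two.2 (by rw [h3, h.two.1]; norm_num)
    have e : x ^ 2 - 1 = (x - 1) * (x - 1 + 2) := by ring
    rw [e, h.mul _ _ h2 h4.1, h4.2, h3] at ho
    exact absurd ho (by decide)
  · obtain ⟨-, h1, h2⟩ := h.A1 hx h0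
    rcases lt_or_gt_of_ne h0 with hlt | hgt
    · rw [h2 hlt] at ho
      exact (Int.not_odd_iff_even.2 (even_two_mul _)) ho
    · rw [h1 hgt] at ho
      exact absurd ho (by decide)

/-- **the local computation**: the classes of the local points -/
theorem OD.cls {D c ξ η γ : L} (hD : D = 1 ∨ D = ι ∨ D = 1 + ι ∨ D = ι * (1 + ι))
    (hc : c = 1 ∨ c = ι ∨ c = 1 + ι ∨ c = ι * (1 + ι)) (hξ : ξ ≠ 0) (hξ1 : ξ ^ 2 ≠ 1)
    (hη : D * η ^ 2 = ξ ^ 3 - ξ) (hγ : c * γ ^ 2 = D * ξ) :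
    c = 1 ∨ c = D ∨ (D = 1 ∧ c = ι) := by
  have hι0 := h.ι0
  have hl0 := h.lam0
  have key0 : ∀ {z : L}, (z = 1 ∨ z = ι ∨ z = 1 + ι ∨ z = ι * (1 + ι)) → z ≠ 0 := by
    intro z hz
    rcases hz with hz | hz | hz | hz <;> rw [hz]
    · exact one_ne_zero
    · exact hι0
    · exact hl0
    · exact mul_ne_zero hι0 hl0
  have hD0 : D ≠ 0 := key0 hD
  have hc0 : c ≠ 0 := key0 hc
  have hγ0 : γ ≠ 0 := by
    rintro rfl
    rw [zero_pow two_ne_zero, mul_zero] at hγ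
    exact mul_ne_zero hD0 hξ hγ.symm
  have hξ2 : ξ ^ 2 - 1 ≠ 0 := sub_ne_zero.2 hξ1
  have hη0 : η ≠ 0 := by
    rintro rfl
    rw [zero_pow two_ne_zero, mul_zero] at hη
    exact mul_ne_zero hξ hξ2 (by linear_combination -hη)
  have e1 : ξ ^ 2 - 1 = (D * η / γ) ^ 2 / c := by
    have : (ξ ^ 2 - 1) * (c * γ ^ 2) = (D * η) ^ 2 := by
      rw [hγ]; linear_combination (-D) * hη
    rw [div_pow, div_div, eq_div_iff (mul_ne_zero (pow_ne_zero _ hγ0) hc0)]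
    linear_combination this
  have e2 : ξ = c * γ ^ 2 / D := by
    rw [hγ, mul_div_cancel_left₀ _ hD0]
  have hE0 : D * η / γ ≠ 0 := div_ne_zero (mul_ne_zero hD0 hη0) hγ0
  have o1 : o (ξ ^ 2 - 1) = 2 * o (D * η / γ) - o c := by
    rw [e1, h.div (pow_ne_zero _ hE0) hc0, h.sqr hE0]
  have o2 : o ξ = o c + 2 * o γ - o D := by
    conv_lhs => rw [e2]
    rw [h.div (mul_ne_zero hc0 (pow_ne_zero _ hγ0)) hD0, h.mul _ _ hc0 (pow_ne_zero _ hγ0),
      h.sqr hγ0]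
  have oil : o (ι * (1 + ι)) = 1 := by
    rw [h.mul _ _ hι0 hl0, h.oι, h.lam]; norm_num
  have podd : ∀ m : ℤ, Odd (2 * m - 1) := fun m => ⟨m - 1, by ring⟩
  have podd' : ∀ m : ℤ, Odd (1 + 2 * m - 0) := fun m => ⟨m, by ring⟩
  rcases hc with hc | hc | hc | hc
  · exact Or.inl hc
  · -- `c = ι`
    rcases hD with hD | hD | hD | hD
    · exact Or.inr (Or.inr ⟨hD, hc⟩)
    · exact Or.inr (Or.inl (by rw [hc, hD]))
    · exfalso
      rw [hc, hD, h.oι, h.lam] at o2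
      refine h.L2 (s := D * η / γ / ι) hξ (by rw [o2]; exact ⟨o γ - 1, by ring⟩) ?_
      rw [e1, hc]
      field_simp
    · exfalso
      rw [hc, hD, h.oι, oil] at o2
      refine h.L2 (s := D * η / γ / ι) hξ (by rw [o2]; exact ⟨o γ - 1, by ring⟩) ?_
      rw [e1, hc]
      field_simp
  · -- `c = 1 + ι`
    rw [hc, h.lam] at o1
    rcases hD with hD | hD | hD | hD
    · exfalso
      rw [hc, hD, h.lam, h.one] at o2
      exact h.L1 hξ (by rw [o2]; exact podd' _) (by rw [o1]; exact podd _)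
    · exfalso
      rw [hc, hD, h.lam, h.oι] at o2
      exact h.L1 hξ (by rw [o2]; exact podd' _) (by rw [o1]; exact podd _)
    · exact Or.inr (Or.inl (by rw [hc, hD]))
    · exfalso
      refine h.L3 (s := ι * γ) hξ ?_ (by rw [o1]; exact podd _)
      rw [hc, hD] at hγ
      have e3 : ξ * ι = γ ^ 2 := by
        have : (1 + ι) * (ξ * ι) = (1 + ι) * γ ^ 2 := by linear_combination -hγ
        exact mul_left_cancel₀ hl0 this
      have : ι * (ι * γ) ^ 2 = -ι * γ ^ 2 := by linear_combination (ι * γ ^ 2) * h.sq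
      rw [this, ← e3]
      linear_combination ξ * h.sq
  · -- `c = ι (1 + ι)`
    rw [hc, oil] at o1
    rcases hD with hD | hD | hD | hD
    · exfalso
      rw [hc, hD, oil, h.one] at o2
      exact h.L1 hξ (by rw [o2]; exact podd' _) (by rw [o1]; exact podd _)
    · exfalso
      rw [hc, hD, oil, h.oι] at o2
      exact h.L1 hξ (by rw [o2]; exact podd' _) (by rw [o1]; exact podd _)
    · exfalso
      refine h.L3 (s := γ) hξ ?_ (by rw [o1]; exact podd _)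
      rw [hc, hD] at hγ
      have : (1 + ι) * (ι * γ ^ 2) = (1 + ι) * ξ := by linear_combination hγ
      exact (mul_left_cancel₀ hl0 this).symm
    · exact Or.inr (Or.inl (by rw [hc, hD]))

omit h

/-- the `x`-coordinate of `(1 + ι) P` -/
def rho (ι : L) (z : L) : L := (z ^ 2 - 1) / (2 * ι * z)

/-- not a coordinate of a torsion point -/
def NT (z : L) : Prop := z ≠ 0 ∧ z ^ 2 ≠ 1 ∧ z ^ 2 ≠ -1

include h

theorem OD.rho_o {z : L} (hz : z ≠ 0) (h1 : z ^ 2 - 1 ≠ 0) : rho ι z ≠ 0 ∧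
    o (rho ι z) = o (z ^ 2 - 1) - 2 - o z := by
  have h2 : 2 * ι ≠ 0 := mul_ne_zero h.two.2 h.ι0
  refine ⟨div_ne_zero h1 (mul_ne_zero h2 hz), ?_⟩
  unfold rho
  rw [h.div h1 (mul_ne_zero h2 hz), h.mul _ _ h2 hz, h.mul _ _ h.two.2 h.ι0, h.two.1, h.oι]
  ring

theorem OD.rho_neg {z : L} (hz : z ≠ 0) (ho : o z < 0) : rho ι z ≠ 0 ∧ o (rho ι z) = o z - 2 := by
  obtain ⟨h1, -, h2⟩ := h.A1 hz ho.ne
  obtain ⟨h3, h4⟩ := h.rho_o hz h1
  exact ⟨h3, by rw [h4, h2 ho]; ring⟩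

theorem OD.rho_pos {z : L} (hz : z ≠ 0) (ho : 0 < o z) : rho ι z ≠ 0 ∧ o (rho ι z) < 0 := by
  obtain ⟨h1, h2, -⟩ := h.A1 hz ho.ne'
  obtain ⟨h3, h4⟩ := h.rho_o hz h1
  exact ⟨h3, by rw [h4, h2 ho]; linarith⟩

/-- for a unit `z` such that `z - 1` has order at least `2` -/
theorem OD.rho_near {z : L} (hz : z ≠ 0) (ho : o z = 0) (hz1 : z ^ 2 ≠ 1) (h2 : 2 ≤ o (z - 1)) :
    rho ι z ≠ 0 ∧ 0 < o (rho ι z) := by
  have hs1 : z ≠ 1 := by rintro rfl; exact hz1 (one_pow 2)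
  have hs2 : z ≠ -1 := by rintro rfl; exact hz1 (by ring)
  have ha : z - 1 ≠ 0 := sub_ne_zero.2 hs1
  have hb : z + 1 ≠ 0 := fun h0 => hs2 (eq_neg_of_add_eq_zero_left h0)
  have e : z ^ 2 - 1 = (z - 1) * (z + 1) := by ring
  have h0 : z ^ 2 - 1 ≠ 0 := sub_ne_zero.2 hz1
  obtain ⟨h3, h4⟩ := h.rho_o hz h0
  refine ⟨h3, ?_⟩
  rw [h4, ho, e, h.mul _ _ ha hb]
  have e2 : z + 1 = (z - 1) + 2 := by ring
  rcases h2.lt_or_eq with hlt | heq
  · have h5 := h.add_eq h.two.2 ha (by rw [h.two.1]; exact hlt)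
    have : z + 1 = 2 + (z - 1) := by ring
    rw [this, h5.2, h.two.1]
    linarith
  · -- both have the order `2`
    have h5 : (2 : L) / (z - 1) ≠ 0 := div_ne_zero h.two.2 ha
    have h6 : o (-(2 / (z - 1))) = 0 := by
      rw [h.neg h5, h.div h.two.2 ha, h.two.1, ← heq]; norm_num
    have h7 : -(2 / (z - 1)) ≠ 1 := by
      intro h8
      apply hb
      have : -(2 / (z - 1)) * (z - 1) = 1 * (z - 1) := by rw [h8]
      rw [neg_mul, div_mul_cancel₀ _ ha] at this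
      linear_combination -this
    have h8 := h.res _ (neg_ne_zero.2 h5) h6 h7
    have e3 : z + 1 = -(z - 1) * (-(2 / (z - 1)) - 1) := by
      field_simp
      ring
    rw [e3, h.mul _ _ (neg_ne_zero.2 ha) (sub_ne_zero.2 h7), h.neg ha, ← heq]
    linarith

/-- for a unit `z` such that `z - 1` has order `1` -/
theorem OD.rho_far {z : L} (hz : z ≠ 0) (ho : o z = 0) (hz1 : z ^ 2 ≠ 1) (hz2 : z ^ 2 ≠ -1)
    (h1 : o (z - 1) = 1) : rho ι z ≠ 0 ∧ o (rho ι z) = 0 ∧ rho ι z ^ 2 ≠ 1 ∧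
      2 ≤ o (rho ι z - 1) := by
  have hs1 : z ≠ 1 := by rintro rfl; exact hz1 (one_pow 2)
  have hs2 : z ≠ -1 := by rintro rfl; exact hz1 (by ring)
  have ha : z - 1 ≠ 0 := sub_ne_zero.2 hs1
  have hb : z + 1 ≠ 0 := fun h0 => hs2 (eq_neg_of_add_eq_zero_left h0)
  have hci : z - ι ≠ 0 := by
    intro h0
    apply hz2
    rw [sub_eq_zero.1 h0, h.sq]
  have hdi : z + ι ≠ 0 := by
    intro h0
    apply hz2
    rw [eq_neg_of_add_eq_zero_left h0, neg_sq, h.sq]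
  have h0 : z ^ 2 - 1 ≠ 0 := sub_ne_zero.2 hz1
  have h2ι : 2 * ι ≠ 0 := mul_ne_zero h.two.2 h.ι0
  have o2ι : o (2 * ι) = 2 := by rw [h.mul _ _ h.two.2 h.ι0, h.two.1, h.oι]; norm_num
  obtain ⟨h3, h4⟩ := h.rho_o hz h0
  -- `z + 1` has order `1`
  have h5 : o (z + 1) = 1 := by
    have h6 := h.add_eq ha h.two.2 (by rw [h1, h.two.1]; norm_num)
    have : z + 1 = z - 1 + 2 := by ring
    rw [this, h6.2, h1]
  have e : z ^ 2 - 1 = (z - 1) * (z + 1) := by ring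
  have h6 : o (rho ι z) = 0 := by
    rw [h4, ho, e, h.mul _ _ ha hb, h1, h5]; norm_num
  have hι0 := h.ι0
  have h20 := h.two.2
  have e1 : rho ι z - 1 = (z - ι) ^ 2 / (2 * ι * z) := by
    unfold rho
    field_simp
    linear_combination -h.sq
  have e2 : rho ι z + 1 = (z + ι) ^ 2 / (2 * ι * z) := by
    unfold rho
    field_simp
    linear_combination -h.sq
  have hd : 2 * ι * z ≠ 0 := mul_ne_zero h2ι hz
  have od : o (2 * ι * z) = 2 := by rw [h.mul _ _ h2ι hz, o2ι, ho]; norm_num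
  have hm1 : rho ι z - 1 ≠ 0 := by rw [e1]; exact div_ne_zero (pow_ne_zero _ hci) hd
  have hp1 : rho ι z + 1 ≠ 0 := by rw [e2]; exact div_ne_zero (pow_ne_zero _ hdi) hd
  have o1 : o (rho ι z - 1) = 2 * o (z - ι) - 2 := by
    rw [e1, h.div (pow_ne_zero _ hci) hd, h.sqr hci, od]
  have o2 : o (rho ι z + 1) = 2 * o (z + ι) - 2 := by
    rw [e2, h.div (pow_ne_zero _ hdi) hd, h.sqr hdi, od]
  -- the order of `z - ι` is at least `2`
  have o1ι : o (1 - ι) = 1 ∧ 1 - ι ≠ 0 := by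
    have : (1 : L) - ι = -(ι - 1) := by ring
    rw [this, h.neg h.oι1.1]
    exact ⟨h.oι1.2, neg_ne_zero.2 h.oι1.1⟩
  have h7 : 2 ≤ o (z - ι) := by
    have h8 : (z - 1) / (ι - 1) ≠ 0 := div_ne_zero ha h.oι1.1
    have h9 : o ((z - 1) / (ι - 1)) = 0 := by
      rw [h.div ha h.oι1.1, h1, h.oι1.2]; norm_num
    have h10 : (z - 1) / (ι - 1) ≠ 1 := by
      intro h11
      rw [div_eq_one_iff_eq h.oι1.1] at h11
      exact hci (by linear_combination h11)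
    have h12 := h.res _ h8 h9 h10
    have e3 : z - ι = (ι - 1) * ((z - 1) / (ι - 1) - 1) := by
      rw [mul_sub, mul_div_cancel₀ _ h.oι1.1]; ring
    rw [e3, h.mul _ _ h.oι1.1 (sub_ne_zero.2 h10), h.oι1.2]
    linarith
  refine ⟨h3, h6, ?_, by rw [o1]; linarith⟩
  intro h8
  have : (rho ι z - 1) * (rho ι z + 1) = 0 := by linear_combination h8
  rcases mul_eq_zero.1 this with h9 | h9
  · exact hm1 h9
  · exact hp1 h9

/-- `(1 + ι) ^ 3 P` is near `0` -/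
theorem OD.rho3 {z : L} (hz : NT z) : rho ι (rho ι (rho ι z)) ≠ 0 ∧
    o (rho ι (rho ι (rho ι z))) < 0 := by
  obtain ⟨hz0, hz1, hz2⟩ := hz
  have neg : ∀ {y : L}, y ≠ 0 → o y < 0 → rho ι y ≠ 0 ∧ o (rho ι y) < 0 := fun hy ho => by
    obtain ⟨h1, h2⟩ := h.rho_neg hy ho
    exact ⟨h1, by rw [h2]; linarith⟩
  rcases lt_trichotomy (o z) 0 with ho | ho | ho
  · obtain ⟨h1, h2⟩ := neg hz0 ho
    obtain ⟨h3, h4⟩ := neg h1 h2
    exact neg h3 h4
  · have hs1 : z ≠ 1 := by rintro rfl; exact hz1 (one_pow 2)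
    have h1 := h.res z hz0 ho hs1
    rcases h1.lt_or_eq with hlt | heq
    · obtain ⟨h2, h3⟩ := h.rho_near hz0 ho hz1 (by linarith)
      obtain ⟨h4, h5⟩ := h.rho_pos h2 h3
      exact neg h4 h5
    · obtain ⟨h2, h3, h4, h5⟩ := h.rho_far hz0 ho hz1 hz2 heq.symm
      obtain ⟨h6, h7⟩ := h.rho_near h2 h3 h4 h5
      exact h.rho_pos h6 h7
  · obtain ⟨h1, h2⟩ := h.rho_pos hz0 ho
    obtain ⟨h3, h4⟩ := neg h1 h2
    exact neg h3 h4

theorem OD.rho_iter (n : ℕ) {y : L} (hy : y ≠ 0) (ho : o y < 0) :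
    (rho ι)^[n] y ≠ 0 ∧ o ((rho ι)^[n] y) = o y - 2 * n := by
  induction n with
  | zero => simp [hy]
  | succ n ih =>
    rw [Function.iterate_succ_apply']
    obtain ⟨h1, h2⟩ := ih
    obtain ⟨h3, h4⟩ := h.rho_neg h1 (by rw [h2]; have : (0 : ℤ) ≤ n := Int.natCast_nonneg n; linarith)
    refine ⟨h3, ?_⟩
    rw [h4, h2]
    push_cast
    ring

/-- there is no infinite chain of divisions -/
theorem OD.no_chain {ξ : L} (hξ : NT ξ)
    (hc : ∀ n : ℕ, ∃ ξ' : L, NT ξ' ∧ (rho ι)^[3] ξ = (rho ι)^[n + 3] ξ') : False := by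
  obtain ⟨h1, h2⟩ := h.rho3 hξ
  set m : ℤ := o (rho ι (rho ι (rho ι ξ))) with hm
  obtain ⟨ξ', h3, h4⟩ := hc (m.natAbs)
  obtain ⟨h5, h6⟩ := h.rho3 h3
  obtain ⟨-, h7⟩ := h.rho_iter m.natAbs h5 h6
  have e1 : (rho ι)^[3] ξ = rho ι (rho ι (rho ι ξ)) := rfl
  have e2 : (rho ι)^[m.natAbs + 3] ξ' = (rho ι)^[m.natAbs] (rho ι (rho ι (rho ι ξ'))) := by
    rw [Function.iterate_add_apply]
    rfl
  rw [e1, e2] at h4
  rw [← h4, ← hm] at h7
  have : (m.natAbs : ℤ) = -m := by omega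
  rw [this] at h7
  omega

end Pool.Agent.K3h82.BT
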