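import Pool.Agent.Y157.PS.All
import Pool.Agent.Y158.GR.Glue

/-!
# The branch points of `y ^ 2 = x ^ 5 - x` in the coordinate `1 / (x - a)`
-/

set_option autoImplicit false
set_option linter.all false

open Polynomial FF Pool.Agent.Y157.PS

namespace Pool.Agent.K3h82.BT

section fin

variable {κ : Type} [Field κ]

/-- the fourth roots of unity -/
noncomputable def T4 (κ : Type) [Field κ] : Finset κ := nthRootsFinset 4 (1 : κ)

open Classical in
/-- the roots of `x ^ 5 - x` -/
noncomputable def T5 (κ : Type) [Field κ] : Finset κ := insert 0 (T4 κ)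

theorem mem_T4 {e : κ} : e ∈ T4 κ ↔ e ^ 4 = 1 := mem_nthRootsFinset (by norm_num) _

theorem mem_T5 {e : κ} : e ∈ T5 κ ↔ e ^ 5 = e := by
  classical
  unfold T5
  rw [Finset.mem_insert, mem_T4]
  constructor
  · rintro (h | h)
    · rw [h]; ring
    · linear_combination e * h
  · intro h
    have h1 : e * (e ^ 4 - 1) = 0 := by linear_combination h
    rcases mul_eq_zero.1 h1 with h2 | h2
    · exact Or.inl h2
    · exact Or.inr (by linear_combination h2)

theorem zero_notMem_T4 : (0 : κ) ∉ T4 κ := by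
  rw [mem_T4]
  norm_num

open Classical in
/-- the inverses of the differences with `a` -/
noncomputable def shf (a : κ) (T : Finset κ) : Finset κ := T.image fun e => (e - a)⁻¹

open Classical in
/-- the branch points of `y ^ 2 = x ^ 5 - x` in the coordinate `1 / (x - a)` -/
noncomputable def B5 (a : κ) : Finset κ := insert 0 (shf a (T5 κ))

theorem inj_shf {a : κ} : Function.Injective (fun e : κ => (e - a)⁻¹) := by
  intro e e' h
  have h1 := inv_injective h
  linear_combination h1

theorem card_shf {a : κ} {T : Finset κ} : (shf a T).card = T.card := by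
  classical
  exact Finset.card_image_of_injective _ inj_shf

theorem zero_notMem_shf {a : κ} {T : Finset κ} (ha : a ∉ T) : (0 : κ) ∉ shf a T := by
  classical
  unfold shf
  rw [Finset.mem_image]
  rintro ⟨e, he, h0⟩
  have h1 : e - a = 0 := inv_eq_zero.1 h0
  exact ha (by rwa [← sub_eq_zero.1 h1])

theorem A4_sub {a : κ} : shf a (T4 κ) ⊆ B5 a := by
  classical
  intro e he
  unfold B5
  apply Finset.mem_insert_of_mem
  unfold shf at he ⊢
  rw [Finset.mem_image] at he ⊢
  obtain ⟨b, hb, rfl⟩ := he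
  exact ⟨b, Finset.mem_insert_of_mem hb, rfl⟩

theorem prod_shf {M : Type} [Field M] [Algebra κ M] {a : κ} {T : Finset κ} (ha : a ∉ T) {X : M}
    (hX : X - algebraMap κ M a ≠ 0) :
    ∏ b ∈ shf a T, ((X - algebraMap κ M a)⁻¹ - algebraMap κ M b) =
      (∏ e ∈ T, (X - algebraMap κ M e)) * ((X - algebraMap κ M a)⁻¹) ^ T.card *
        (∏ e ∈ T, (algebraMap κ M a - algebraMap κ M e))⁻¹ := by
  classical
  unfold shf
  rw [Finset.prod_image (fun e _ e' _ h => inj_shf h), ← Finset.prod_const, ← Finset.prod_mul_distrib,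
    ← Finset.prod_inv_distrib, ← Finset.prod_mul_distrib]
  refine Finset.prod_congr rfl fun e he => ?_
  have h1 : algebraMap κ M a - algebraMap κ M e ≠ 0 := by
    rw [← map_sub]
    refine (_root_.map_ne_zero _).2 (sub_ne_zero.2 ?_)
    rintro rfl
    exact ha he
  have h2 : algebraMap κ M e - algebraMap κ M a ≠ 0 := by
    intro h0
    apply h1
    linear_combination -h0
  rw [map_inv₀, map_sub]
  field_simp
  ring

variable [IsAlgClosed κ] [CharZero κ]

theorem card_T4 : (T4 κ).card = 4 := by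
  haveI : NeZero (4 : ℕ) := ⟨by norm_num⟩
  obtain ⟨ζ, hζ⟩ := HasEnoughRootsOfUnity.exists_primitiveRoot κ 4
  exact hζ.card_nthRootsFinset

theorem card_T5 : (T5 κ).card = 5 := by
  classical
  unfold T5
  rw [Finset.card_insert_of_notMem zero_notMem_T4, card_T4]

theorem card_B5 {a : κ} (ha : a ∉ T5 κ) : (B5 a).card = 6 := by
  classical
  unfold B5
  rw [Finset.card_insert_of_notMem (zero_notMem_shf ha), card_shf, card_T5]

theorem prod_T4 {M : Type} [Field M] [Algebra κ M] (X : M) :
    ∏ e ∈ T4 κ, (X - algebraMap κ M e) = X ^ 4 - 1 := by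
  haveI : NeZero (4 : ℕ) := ⟨by norm_num⟩
  obtain ⟨ζ, hζ⟩ := HasEnoughRootsOfUnity.exists_primitiveRoot κ 4
  have h1 := X_pow_sub_one_eq_prod (by norm_num) hζ
  have h2 := congrArg (fun P : κ[X] => P.eval₂ (algebraMap κ M) X) h1
  simp only [eval₂_sub, eval₂_pow, eval₂_X, eval₂_one] at h2
  rw [eval₂_finsetProd] at h2
  simp only [eval₂_sub, eval₂_X, eval₂_C] at h2
  exact h2.symm

theorem prod_T5 {M : Type} [Field M] [Algebra κ M] (X : M) :
    ∏ e ∈ T5 κ, (X - algebraMap κ M e) = X ^ 5 - X := by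
  classical
  unfold T5
  rw [Finset.prod_insert zero_notMem_T4, prod_T4, map_zero]
  ring

theorem prod_A4 {M : Type} [Field M] [Algebra κ M] {a : κ} (ha : a ∉ T4 κ) {X : M}
    (hX : X - algebraMap κ M a ≠ 0) :
    ∏ b ∈ shf a (T4 κ), ((X - algebraMap κ M a)⁻¹ - algebraMap κ M b) =
      (X ^ 4 - 1) * ((X - algebraMap κ M a)⁻¹) ^ 4 * (algebraMap κ M (a ^ 4 - 1))⁻¹ := by
  rw [prod_shf ha hX, prod_T4, prod_T4, card_T4, map_sub, map_pow, map_one]

theorem prod_B5 {M : Type} [Field M] [Algebra κ M] {a : κ} (ha : a ∉ T5 κ) {X : M}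
    (hX : X - algebraMap κ M a ≠ 0) :
    ∏ b ∈ B5 a, ((X - algebraMap κ M a)⁻¹ - algebraMap κ M b) =
      (X ^ 5 - X) * ((X - algebraMap κ M a)⁻¹) ^ 6 * (algebraMap κ M (a ^ 5 - a))⁻¹ := by
  classical
  unfold B5
  rw [Finset.prod_insert (zero_notMem_shf ha), prod_shf ha hX, prod_T5, prod_T5, card_T5, map_zero,
    map_sub, map_pow]
  ring

theorem notMem_T5 {a : κ} (ha : a ^ 5 - a ≠ 0) : a ∉ T5 κ := by
  rw [mem_T5]
  intro h
  exact ha (sub_eq_zero.2 h)

end fin

section rat

variable {κ R : Type} [Field κ] [Field R] [Algebra κ R]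

theorem ratF_inv {x : R} (hx : RatF κ x) (a : κ) : RatF κ (x - algebraMap κ R a)⁻¹ := by
  have h1 : x = (x - algebraMap κ R a)⁻¹⁻¹ + algebraMap κ R a := by rw [inv_inv]; ring
  constructor
  · intro h
    apply hx.trans
    rw [h1]
    exact (h.inv).add (isAlgebraic_algebraMap a)
  · rw [eq_top_iff, ← hx.gen, IntermediateField.adjoin_le_iff, Set.singleton_subset_iff]
    rw [SetLike.mem_coe]
    have h2 : (x - algebraMap κ R a)⁻¹ ∈ IntermediateField.adjoin κ {(x - algebraMap κ R a)⁻¹} :=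
      IntermediateField.mem_adjoin_simple_self _ _
    have h3 := add_mem (inv_mem h2) (IntermediateField.algebraMap_mem
      (IntermediateField.adjoin κ {(x - algebraMap κ R a)⁻¹}) a)
    rwa [← h1] at h3

end rat

end Pool.Agent.K3h82.BT
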