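import Pool.Agent.K3h82.BT.Ine5

/-!
# Rigidity of sections which are locally given by a branch point
-/

set_option autoImplicit false
set_option linter.all false

open Polynomial FF Pool.Agent.Y157.PS IsDedekindDomain NumberField

namespace Pool.Agent.K3h82.BT

open Pool.Agent.Y158.GR

section comm

variable {ℓ : ℕ} [hℓ : Fact ℓ.Prime] {κ R M : Type} [Field κ] [IsAlgClosed κ] [CharZero κ]
  [Field R] [Field M] [Algebra κ R] [Algebra R M] [Algebra κ M] [IsScalarTower κ R M] {x : R}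
  {B : Finset κ} {Y : M} {k : Type} [Field k] [Algebra k κ]

/-- elements which fix the place `W` commute with the inertia generator -/
theorem comm_of_fixes' (hC : Cov ℓ κ R M x B Y) {s : (κ ≃ₐ[k] κ) →* RingAut M}
    (hs : Act k κ R M x s) (hμ : ∀ σ : κ ≃ₐ[k] κ, ∀ c : κ, c ^ ℓ = 1 → σ c = c) (W : Place κ M)
    {e : κ} (he : e ∈ B) (hW : 0 < W.ord (algebraMap R M x - algebraMap κ M e))
    {c : M ≃ₐ[R] M} (hcW : Fixes W c) {σ : κ ≃ₐ[k] κ} {u : κ} (hu : u ≠ 0)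
    (hY : s σ Y = algebraMap κ M u * Y) (hσ : Fixes W (s σ)) :
    s σ = cjA c s σ := by
  have hYW := hC.ordY W he hW
  have hY0 : Y ≠ 0 := by
    rintro rfl
    rw [W.ord_zero] at hYW
    exact zero_ne_one hYW
  have hsi : ∀ z : M, s σ⁻¹ (s σ z) = z := fun z => Pool.Agent.Y748.PS.s_inv_apply s σ z
  have his : ∀ z : M, s σ (s σ⁻¹ z) = z := fun z => Pool.Agent.Y748.PS.s_apply_inv s σ z
  -- `η = (s σ)⁻¹ c (s σ)`
  obtain ⟨η, hη⟩ := conjR hC.rat (s σ) (σ : κ ≃+* κ) (fun b => hs.const σ b) (hs.fixx σ) c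
  have hη' : ∀ z, η z = s σ⁻¹ (c (s σ z)) := by
    intro z
    rw [hη, map_inv]
    rfl
  have hηW : Fixes W η := by
    intro z
    have h1 : W.ord (s σ (η z)) = W.ord (η z) := hσ _
    rw [hη', his, hcW, hσ] at h1
    rw [hη', ← h1]
  obtain ⟨ξ, hξ, hcY⟩ := hC.actY hY0 c
  have hηY : η Y = c Y := by
    have h1 := hsi Y
    rw [hY, map_mul, hs.const] at h1
    have h2 : η Y = s σ⁻¹ (algebraMap κ M u * (algebraMap κ M ξ * Y)) := by
      rw [hη', hY, map_mul, hcY, Pool.Agent.Y748.PS.gal_const]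
    rw [h2, map_mul, map_mul, hs.const, hs.const, hμ _ ξ hξ, hcY]
    linear_combination (algebraMap κ M ξ) * h1
  have h1 : (c⁻¹ * η : M ≃ₐ[R] M) = 1 := by
    refine hC.stabR a_stab W _ (hcW.inv.mul hηW) Y hYW ?_
    change c⁻¹ (η Y) = Y
    rw [hηY, inv_c]
  have h2 : η = c := by
    have h3 := congrArg (fun g => c * g) h1
    simp only [mul_inv_cancel_left, mul_one] at h3
    exact h3
  ext z
  rw [cjA_apply]
  have h3 : s σ (η (c⁻¹ z)) = c (s σ (c⁻¹ z)) := by rw [hη', his]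
  rw [← h3, h2, c_inv]

end comm

section glb

variable {K κ : Type} [Field K] [NumberField K] [Field κ] [Algebra K κ] [IsAlgClosure K κ]

/-- **quadratic characters with local conditions are trivial** -/
theorem glb2 {d : K} {Lv C : Type} [Field Lv] [Field C] [Algebra K Lv] [Algebra Lv C] [Algebra K C]
    [IsScalarTower K Lv C] [CharZero Lv] [IsAlgClosure Lv C]
    (hinj : ∀ a : K, a ≠ 0 → (∀ v : HeightOneSpectrum (𝓞 K), (2 : 𝓞 K) ∉ v.asIdeal →
      (∃ t : WithZero (Multiplicative ℤ), v.valuation K d = t ^ 2) →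
      ∃ t : WithZero (Multiplicative ℤ), v.valuation K a = t ^ 2) →
      (∃ z : Lv, algebraMap K Lv a = z ^ 2) → ∃ b : K, a = b ^ 2)
    (ι : κ →ₐ[K] C) (χ : (κ ≃ₐ[K] κ) → κ) (hχ1 : ∀ σ, χ σ ^ 2 = 1)
    (hχ2 : ∀ σ τ, χ (σ * τ) = χ σ * χ τ)
    (hχ3 : ∃ E : IntermediateField K κ, FiniteDimensional K E ∧ ∀ σ ∈ E.fixingSubgroup, χ σ = 1)
    (hI : ∀ v : HeightOneSpectrum (𝓞 K), (2 : 𝓞 K) ∉ v.asIdeal →
      (∃ t : WithZero (Multiplicative ℤ), v.valuation K d = t ^ 2) →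
      ∃ V : ValuationSubring κ, Above v V ∧ ∀ σ, Ine V σ → χ σ = 1)
    (hD : ∀ σ, DecL Lv ι σ → χ σ = 1) : ∀ σ, χ σ = 1 := by
  have : Algebra.IsAlgebraic K κ := IsAlgClosure.isAlgebraic
  have : IsAlgClosed κ := IsAlgClosure.isAlgClosed K
  have : Normal K κ := IsAlgClosure.normal K κ
  have : IsGalois K κ := IsGalois.mk
  have hμ : ∀ (σ : κ ≃ₐ[K] κ) (c : κ), c ^ 2 = 1 → σ c = c := mu2
  obtain ⟨E, hE, hEχ⟩ := hχ3
  obtain ⟨c, hc, hcχ⟩ := Pool.Agent.Y655.PS.resolvent (⊤ : Subgroup (κ ≃ₐ[K] κ)) χ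
    (fun σ _ h => by
      have := hχ1 σ
      rw [h, zero_pow two_ne_zero] at this
      exact zero_ne_one this)
    (fun σ _ σ' _ => hχ2 σ σ') (fun σ _ σ' _ => hμ σ _ (hχ1 σ')) E (fun σ h _ => hEχ σ h)
  have hcχ' : ∀ σ, σ c = χ σ * c := fun σ => hcχ σ trivial
  -- the number
  obtain ⟨a, ha⟩ : ∃ a : K, algebraMap K κ a = c ^ 2 := by
    have h1 : c ^ 2 ∈ (⊥ : IntermediateField K κ) := by
      rw [InfiniteGalois.mem_bot_iff_fixed]
      intro σ
      rw [map_pow, hcχ', mul_pow, hχ1, one_mul]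
    exact IntermediateField.mem_bot.1 h1
  have ha0 : a ≠ 0 := by
    rintro rfl
    rw [map_zero] at ha
    exact pow_ne_zero 2 hc ha.symm
  -- the local root
  obtain ⟨w, hw⟩ := locfix (L := Lv) ι (c := c) (fun σ hσ => by
    rw [hcχ', hD σ hσ, one_mul])
  have hwa : algebraMap K Lv a = w ^ 2 := by
    apply (algebraMap Lv C).injective
    rw [map_pow, hw, ← map_pow, ← ha, ι.commutes, IsScalarTower.algebraMap_apply K Lv C]
  obtain ⟨b, hb⟩ := hinj a ha0 (fun v hv hev => by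
    obtain ⟨V, hV, hVχ⟩ := hI v hv hev
    obtain ⟨t, ht⟩ := hV.pow (ℓ := 2) (by exact_mod_cast hv) hc
      (fun σ hσ => by rw [hcχ', hVχ σ hσ, one_mul]) ha
    exact ⟨_, ht⟩) ⟨w, hwa⟩
  have hcK : ∃ b : K, algebraMap K κ b = c := by
    have h1 : (c - algebraMap K κ b) * (c + algebraMap K κ b) = 0 := by
      have h2 : c ^ 2 = algebraMap K κ b ^ 2 := by rw [← ha, hb, map_pow]
      linear_combination h2
    rcases mul_eq_zero.1 h1 with h2 | h2
    · exact ⟨b, (sub_eq_zero.1 h2).symm⟩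
    · exact ⟨-b, by rw [map_neg]; exact (eq_neg_of_add_eq_zero_left h2).symm⟩
  obtain ⟨b, hb⟩ := hcK
  intro σ
  have h1 := hcχ' σ
  rw [← hb, σ.commutes, hb] at h1
  exact (mul_right_cancel₀ hc (by rw [one_mul, ← h1])).symm

/-- there is a place above `7` -/
theorem exists_seven (K : Type) [Field K] [NumberField K] :
    ∃ v : HeightOneSpectrum (𝓞 K), (7 : 𝓞 K) ∈ v.asIdeal := by
  have h2 : ¬ IsUnit (7 : 𝓞 K) := by
    intro h
    have h1 := (NumberField.isUnit_iff_norm (K := K) (x := (7 : 𝓞 K))).1 h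
    have e : ((7 : 𝓞 K) : K) = algebraMap ℚ K 7 := by
      rw [map_ofNat (algebraMap ℚ K)]
      exact map_ofNat (algebraMap (𝓞 K) K) 7
    rw [RingOfIntegers.coe_norm, e, Algebra.norm_algebraMap, abs_pow] at h1
    have h3 : (1 : ℚ) < |(7 : ℚ)| := by norm_num
    have h4 := one_lt_pow₀ h3 (Module.finrank_pos (R := ℚ) (M := K)).ne'
    rw [h1] at h4
    exact lt_irrefl _ h4
  obtain ⟨I, hI, h2I⟩ := exists_max_ideal_of_mem_nonunits h2
  have hI0 : I ≠ ⊥ := by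
    rintro rfl
    rw [Ideal.mem_bot] at h2I
    exact (by norm_num : (7 : 𝓞 K) ≠ 0) h2I
  exact ⟨⟨I, hI.isPrime, hI0⟩, h2I⟩

end glb

end Pool.Agent.K3h82.BT
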